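import Pool.Agent.Y926.TW.Stm2
import Pool.Agent.Y926.LZ.Bd

/-!
# The forms are small (job TW-ARC, helper664)
-/

set_option autoImplicit false

open Polynomial Pool.Agent.H337R2 Pool.Agent.W165.OZ Pool.Agent.Y926.LZ

namespace Pool.Agent.Y926.TW

noncomputable section

namespace ArcL

/-! ### Linearity -/

lemma coeff_KP_sum {n h b : ℕ} (s : Finset ℕ) (g : ℚ[X]) (P : ℕ → ℚ[X]) (x : ℚ) :
    ∑ d ∈ s, PowerSeries.coeff b (RS (sP n) (mP h) (KP n h (g * P d)) x) =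
      PowerSeries.coeff b (RS (sP n) (mP h) (KP n h (g * ∑ d ∈ s, P d)) x) := by
  unfold RS KP num
  rw [Finset.mul_sum, Polynomial.sum_comp, Finset.mul_sum, Finset.mul_sum, map_sum,
    Finset.sum_mul, map_sum]

lemma coeff_KP_zero {n h b : ℕ} (x : ℚ) (g : ℚ[X]) :
    PowerSeries.coeff b (RS (sP n) (mP h) (KP n h (g * 0)) x) = 0 := by
  have := coeff_KP_sum (n := n) (h := h) (b := b) ∅ g (fun _ => 0) x
  rw [Finset.sum_empty, Finset.sum_empty] at this
  exact this.symm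

lemma sum_Pv {m : ℕ} (B e : ℕ) (w : Fin m → ℕ → ℤ) (Q : Fin m → ℚ[X]) :
    ∑ d ∈ (Finset.Icc 1 B).filter (fun d => e ∣ d), Pv w Q d = fe B w Q e := by
  unfold Pv fe Cd
  rw [Finset.sum_comm]
  refine Finset.sum_congr rfl fun l _ => ?_
  rw [← Finset.sum_mul, map_sum]

lemma fe_one {m : ℕ} (B : ℕ) (w : Fin m → ℕ → ℤ) (Q : Fin m → ℚ[X])
    (h0 : ∀ l, ∑ d ∈ Finset.Icc 1 B, w l d = 0) : fe B w Q 1 = 0 := by
  unfold fe Cd
  apply Finset.sum_eq_zero
  intro l _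
  rw [Finset.filter_true_of_mem (fun d _ => one_dvd d)]
  have : ∑ d ∈ Finset.Icc 1 B, (w l d : ℚ) = 0 := by exact_mod_cast h0 l
  rw [this, map_zero, zero_mul]

/-! ### The head -/

/-- the terms as a function of the point, without the point zero -/
def Fh (n h b : ℕ) (g : ℚ[X]) (P : ℕ → ℚ[X]) (d : ℕ) (x : ℚ) : ℚ :=
  if x = 0 then 0 else PowerSeries.coeff b (RS (sP n) (mP h) (KP n h (g * P d)) x)

lemma head_inner {b B m ν L h : ℕ} {w : Fin m → ℕ → ℤ} {Q : Fin m → ℚ[X]} (g : ℚ[X])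
    (h0 : ∀ l, ∑ d ∈ Finset.Icc 1 B, w l d = 0) (hV : Van b B ν (L + ν) w Q) {e u : ℕ}
    (he : 1 ≤ e) (heB : e ≤ B) (hu : u < e * L) (hc : Nat.Coprime u e) :
    ∑ d ∈ (Finset.Icc 1 B).filter (fun d => e ∣ d), Fh (2 * ν + 1) h b g (Pv w Q) d ((u : ℚ) / e)
      = 0 := by
  unfold Fh
  by_cases hx : (u : ℚ) / e = 0
  · simp only [hx, if_true]
    exact Finset.sum_const_zero
  · simp only [hx, if_false]
    rw [coeff_KP_sum, sum_Pv]
    rcases Nat.lt_or_ge 1 e with h1 | h1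
    · apply RS_zero
      have he0 : (e : ℚ) ≠ 0 := by exact_mod_cast (by omega : e ≠ 0)
      have h2 := hV e h1 heB (u + ν * e) (by
        calc u + ν * e < e * L + ν * e := by omega
          _ = e * (L + ν) := by ring) (by
        rw [Nat.coprime_add_mul_right_left]
        exact hc)
      have h3 : (((u + ν * e : ℕ) : ℚ)) / e - ν = (u : ℚ) / e := by
        push_cast
        field_simp
        ring
      rw [h3] at h2
      rw [mul_comm g]
      exact KP_dvd h2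
    · have : e = 1 := by omega
      subst this
      rw [fe_one B w Q h0]
      exact coeff_KP_zero _ _

lemma head_zero (hR : S_REG) {b B m ν L h : ℕ} {w : Fin m → ℕ → ℤ} {Q : Fin m → ℚ[X]} (g : ℚ[X])
    (h0 : ∀ l, ∑ d ∈ Finset.Icc 1 B, w l d = 0) (hV : Van b B ν (L + ν) w Q) (hL : 1 ≤ L) :
    ∑ d ∈ Finset.Icc 1 B, ∑ t ∈ Finset.range (d * L - 1), PowerSeries.coeff b
      (RS (sP (2 * ν + 1)) (mP h) (KP (2 * ν + 1) h (g * Pv w Q d)) (((t : ℚ) + 1) / d)) = 0 := by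
  have h1 : ∀ d ∈ Finset.Icc 1 B, ∑ t ∈ Finset.range (d * L - 1), PowerSeries.coeff b
      (RS (sP (2 * ν + 1)) (mP h) (KP (2 * ν + 1) h (g * Pv w Q d)) (((t : ℚ) + 1) / d)) =
      ∑ v ∈ Finset.range (d * L), Fh (2 * ν + 1) h b g (Pv w Q) d ((v : ℚ) / d) := by
    intro d hd
    rw [Finset.mem_Icc] at hd
    have hdL : 1 ≤ d * L := Nat.mul_pos hd.1 hL
    have hd0 : (d : ℚ) ≠ 0 := by exact_mod_cast (by omega : d ≠ 0)
    obtain ⟨N, hN⟩ : ∃ N, d * L = N + 1 := ⟨d * L - 1, by omega⟩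
    rw [hN, Nat.add_sub_cancel, Finset.sum_range_succ']
    have h2 : Fh (2 * ν + 1) h b g (Pv w Q) d (((0 : ℕ) : ℚ) / d) = 0 := by
      unfold Fh
      rw [if_pos (by simp)]
    rw [h2, add_zero]
    refine Finset.sum_congr rfl fun t _ => ?_
    unfold Fh
    have h3 : ((t + 1 : ℕ) : ℚ) / d ≠ 0 := div_ne_zero (by positivity) hd0
    rw [if_neg h3]
    push_cast
    rfl
  rw [Finset.sum_congr rfl h1, hR ℚ B L (Fh (2 * ν + 1) h b g (Pv w Q))]
  apply Finset.sum_eq_zero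
  intro e he
  apply Finset.sum_eq_zero
  intro u hu
  rw [Finset.mem_Icc] at he
  rw [Finset.mem_filter, Finset.mem_range] at hu
  exact head_inner g h0 hV he.1 he.2 hu.1 hu.2

/-! ### Norms -/

lemma Nm_sum {ι : Type} {T : ℕ} {ρ : ℚ} (hρ : 0 ≤ ρ) (s : Finset ι) (A : ι → ℚ)
    (f : ι → PowerSeries ℚ) (hf : ∀ i ∈ s, Nm T ρ (f i) ≤ A i) :
    Nm T ρ (∑ i ∈ s, f i) ≤ ∑ i ∈ s, A i := by
  classical
  induction s using Finset.induction_on with
  | empty =>
    rw [Finset.sum_empty, Finset.sum_empty]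
    have := Nm_C (T := T) (ρ := ρ) 0
    rw [map_zero, abs_zero] at this
    exact this.le
  | insert a s ha ih =>
    rw [Finset.sum_insert ha, Finset.sum_insert ha]
    exact (Nm_add hρ _ _).trans (add_le_add (hf a (Finset.mem_insert_self _ _))
      (ih fun i hi => hf i (Finset.mem_insert_of_mem hi)))

variable {n b h : ℕ} {c : ℚ}

lemma base_ge (hn : 1 ≤ n) (hc : 2 * (n : ℚ) ≤ c) : (1 : ℚ) ≤ 54 * (c / n) ^ 2 := by
  have hn' : (1 : ℚ) ≤ n := by exact_mod_cast hn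
  have hτ : 2 ≤ c / n := by rw [le_div_iff₀ (by linarith)]; linarith
  nlinarith

lemma Nm_Gb (hn : 1 ≤ n) (hc : 2 * (n : ℚ) ≤ c) {i K : ℕ} (hi : i + n ≤ K) :
    Nm b 1 (TS c ((Gb n i).comp (yp n))) ≤ (54 * (c / n) ^ 2) ^ K := by
  have h1 := Gb_le (b := b) (m := i) (B := 1) hn le_rfl hc
  rw [Nat.cast_one, one_pow, mul_one] at h1
  refine h1.trans (pow_le_pow_right₀ (base_ge hn hc) ?_)
  have := Nat.div_mul_le_self i n
  calc n * (i / n + 1) = i / n * n + n := by ring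
    _ ≤ K := by omega

lemma Nm_Qv (hn : 1 ≤ n) (hc : 2 * (n : ℚ) ≤ c) {D H : ℕ} {a : ℕ → ℤ} (ha : ∀ i, |a i| ≤ (H : ℤ)) :
    Nm b 1 (TS c ((Qv n D a).comp (yp n))) ≤ D * H * (54 * (c / n) ^ 2) ^ (D + n) := by
  unfold Qv
  rw [Polynomial.sum_comp, map_sum]
  refine (Nm_sum zero_le_one _ (fun _ => (H : ℚ) * (54 * (c / n) ^ 2) ^ (D + n)) _ ?_).trans ?_
  · intro i hi
    rw [Finset.mem_range] at hi
    rw [Polynomial.mul_comp, Polynomial.C_comp, map_mul, TS_C]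
    refine Nm_mul_le zero_le_one ?_ (Nm_Gb hn hc (by omega))
    rw [Nm_C]
    have := ha i
    exact_mod_cast this
  · rw [Finset.sum_const, Finset.card_range, nsmul_eq_mul]
    apply le_of_eq
    ring

lemma Nm_Pv {m : ℕ} (hn : 1 ≤ n) (hc : 2 * (n : ℚ) ≤ c) {D H : ℕ} {a : Fin m → ℕ → ℤ}
    (ha : ∀ l i, |a l i| ≤ (H : ℤ)) (w : Fin m → ℕ → ℤ) (d : ℕ) :
    Nm b 1 (TS c ((Pv w (fun l => Qv n D (a l)) d).comp (yp n))) ≤
      ((∑ l, |w l d| : ℤ) : ℚ) * (D * H * (54 * (c / n) ^ 2) ^ (D + n)) := by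
  unfold Pv
  rw [Polynomial.sum_comp, map_sum]
  refine (Nm_sum zero_le_one _
    (fun l => ((|w l d| : ℤ) : ℚ) * (D * H * (54 * (c / n) ^ 2) ^ (D + n))) _ ?_).trans ?_
  · intro l _
    rw [Polynomial.mul_comp, Polynomial.C_comp, map_mul, TS_C]
    refine Nm_mul_le zero_le_one ?_ (Nm_Qv hn hc (ha l))
    rw [Nm_C, Int.cast_abs]
  · rw [← Finset.sum_mul, Int.cast_sum]

/-- the bound of a tail term -/
lemma term_le {m B r d t D H i E : ℕ} (hn : 1 ≤ n) (hr : 2 ≤ r) (hd : 1 ≤ d) (hdB : d ≤ B)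
    {a : Fin m → ℕ → ℤ} (ha : ∀ l i, |a l i| ≤ (H : ℤ)) (w : Fin m → ℕ → ℤ)
    (hE : E = i + D + 2 * n) (hh : 2 * E + 3 ≤ 2 * h * n) (ht : ¬ t + 1 < d * (r * n)) :
    |PowerSeries.coeff b (RS (sP n) (mP h)
        (KP n h (Gb n i * Pv w (fun l => Qv n D (a l)) d)) (((t : ℚ) + 1) / d))|
      ≤ ((∑ l, |w l d| : ℤ) : ℚ) * (D * H * M8 n h B r E) * (1 / ((t : ℚ) + 1) ^ 2) := by
  have hn' : (1 : ℚ) ≤ n := by exact_mod_cast hn
  have hd' : (1 : ℚ) ≤ d := by exact_mod_cast hd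
  have hB' : (d : ℚ) ≤ B := by exact_mod_cast hdB
  have hr' : (2 : ℚ) ≤ r := by exact_mod_cast hr
  obtain ⟨c, hc⟩ : ∃ c : ℚ, c = ((t : ℚ) + 1) / d := ⟨_, rfl⟩
  have ht' : (d : ℚ) * (r * n) ≤ (t : ℚ) + 1 := by exact_mod_cast not_lt.1 ht
  have hcr : (r : ℚ) * n ≤ c := by
    rw [hc, le_div_iff₀ (by linarith)]
    linarith
  have hc2 : 2 * (n : ℚ) ≤ c := by nlinarith
  have hc0 : 0 < c := by linarith
  have hτ : (r : ℚ) ≤ c / n := by rw [le_div_iff₀ (by linarith)]; exact hcr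
  have hWd : (0 : ℚ) ≤ ((∑ l, |w l d| : ℤ) : ℚ) := by
    have : (0 : ℤ) ≤ ∑ l, |w l d| := Finset.sum_nonneg fun _ _ => abs_nonneg _
    exact_mod_cast this
  rw [← hc]
  have h1 := Nm_Gb (n := n) (b := b) (c := c) (i := i) (K := i + n) hn hc2 le_rfl
  have h2 := Nm_Pv (n := n) (b := b) (c := c) (D := D) (H := H) hn hc2 ha w d
  have h3 := Nm_mul_le (T := b) zero_le_one h1 h2
  have h4 : (54 * (c / n) ^ 2) ^ (i + n) *
      (((∑ l, |w l d| : ℤ) : ℚ) * (D * H * (54 * (c / n) ^ 2) ^ (D + n))) =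
      ((∑ l, |w l d| : ℤ) : ℚ) * (D * H) * (54 * (c / n) ^ 2) ^ E := by
    rw [hE, show i + D + 2 * n = (i + n) + (D + n) by ring, pow_add _ (i + n) (D + n)]
    ring
  rw [← map_mul, ← Polynomial.mul_comp, h4] at h3
  have h5 := RS_le (h := h) hn hc2 h3
  refine h5.trans ?_
  have h6 := fact_ratio hc0 hn h
  have h7 := tail_pow (p := 2 * E + 1) (q := 2 * h * n) (by linarith) hτ (by omega)
  have h8 : 1 / (c / n) ^ 2 ≤ ((B : ℚ) * n) ^ 2 * (1 / ((t : ℚ) + 1) ^ 2) := by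
    have ht0 : (0 : ℚ) < (t : ℚ) + 1 := by positivity
    have h9 : 1 / (c / n) ^ 2 = ((d : ℚ) * n) ^ 2 * (1 / ((t : ℚ) + 1) ^ 2) := by
      rw [hc]
      field_simp
    rw [h9]
    gcongr
  have key : (n.factorial : ℚ) ^ (2 * h) * (4 * c * (54 * (c / n) ^ 2) ^ E) *
        (2 / c ^ n) ^ (2 * h) ≤ M8 n h B r E * (1 / ((t : ℚ) + 1) ^ 2) := by
    calc (n.factorial : ℚ) ^ (2 * h) * (4 * c * (54 * (c / n) ^ 2) ^ E) *
          (2 / c ^ n) ^ (2 * h)
        = (4 * c * (54 * (c / n) ^ 2) ^ E) *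
          ((n.factorial : ℚ) ^ (2 * h) * (2 / c ^ n) ^ (2 * h)) := by ring
      _ ≤ (4 * c * (54 * (c / n) ^ 2) ^ E) * (4 ^ h / (c / n) ^ (2 * h * n)) := by
          gcongr
      _ = 4 ^ (h + 1) * n * 54 ^ E *
          ((c / n) ^ (2 * E + 1) / (c / n) ^ (2 * h * n)) := by
          rw [mul_pow _ ((c / n) ^ 2), ← pow_mul (c / n) 2 E, pow_succ (c / n) (2 * E),
            pow_succ (4 : ℚ) h]
          have : (c : ℚ) = n * (c / n) := by field_simp
          conv_lhs => rw [this]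
          have h10 : (n : ℚ) * (c / n) / n = c / n := by rw [← this]
          rw [h10]
          ring
      _ ≤ 4 ^ (h + 1) * n * 54 ^ E *
          (1 / (r : ℚ) ^ (2 * h * n - (2 * E + 1) - 2) * (1 / (c / n) ^ 2)) := by
          gcongr
      _ ≤ 4 ^ (h + 1) * n * 54 ^ E *
          (1 / (r : ℚ) ^ (2 * h * n - (2 * E + 1) - 2) *
            (((B : ℚ) * n) ^ 2 * (1 / ((t : ℚ) + 1) ^ 2))) := by
          gcongr
      _ = M8 n h B r E * (1 / ((t : ℚ) + 1) ^ 2) := by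
          unfold M8
          ring
  calc (n.factorial : ℚ) ^ (2 * h) *
        (4 * c * (((∑ l, |w l d| : ℤ) : ℚ) * (D * H) * (54 * (c / n) ^ 2) ^ E)) *
        (2 / c ^ n) ^ (2 * h)
      = ((∑ l, |w l d| : ℤ) : ℚ) * (D * H) * ((n.factorial : ℚ) ^ (2 * h) *
        (4 * c * (54 * (c / n) ^ 2) ^ E) * (2 / c ^ n) ^ (2 * h)) := by ring
    _ ≤ ((∑ l, |w l d| : ℤ) : ℚ) * (D * H) * (M8 n h B r E * (1 / ((t : ℚ) + 1) ^ 2)) := by
        gcongr
    _ = _ := by ring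

/-! ### Degrees -/

lemma Gb_deg (hn : 1 ≤ n) (i : ℕ) : (Gb n i).natDegree ≤ i := by
  have hNB : ∀ j, (NB n 1 0 j).natDegree ≤ j := by
    intro j
    unfold NB
    refine (Polynomial.natDegree_C_mul_le _ _).trans ?_
    rw [YB_natDegree]
  unfold Gb
  refine Polynomial.natDegree_mul_le.trans ?_
  have h1 : (NB n 1 0 n ^ (i / n)).natDegree ≤ i / n * n := by
    refine Polynomial.natDegree_pow_le.trans ?_
    exact Nat.mul_le_mul_left _ (hNB n)
  have h2 := hNB (i % n)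
  have h3 := Nat.div_add_mod i n
  calc (NB n 1 0 n ^ (i / n)).natDegree + (NB n 1 0 (i % n)).natDegree
      ≤ i / n * n + i % n := add_le_add h1 h2
    _ = i := by rw [mul_comm]; exact h3

lemma Pv_deg {m : ℕ} (hn : 1 ≤ n) (D : ℕ) (a : Fin m → ℕ → ℤ) (w : Fin m → ℕ → ℤ) (d : ℕ) :
    (Pv w (fun l => Qv n D (a l)) d).natDegree ≤ D := by
  unfold Pv
  refine Polynomial.natDegree_sum_le_of_forall_le _ _ fun l _ => ?_
  refine (Polynomial.natDegree_C_mul_le _ _).trans ?_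
  unfold Qv
  refine Polynomial.natDegree_sum_le_of_forall_le _ _ fun i hi => ?_
  rw [Finset.mem_range] at hi
  exact (Polynomial.natDegree_C_mul_le _ _).trans ((Gb_deg hn i).trans hi.le)

/-! ### Splitting of the series -/

lemma tsum_split {f : ℕ → ℝ} (hf : Summable f) (N : ℕ) :
    ∑' t, f t = ∑ t ∈ Finset.range (N - 1), f t + ∑' t, (if t + 1 < N then 0 else f t) := by
  have h1 : HasSum (fun t => if t + 1 < N then f t else 0) (∑ t ∈ Finset.range (N - 1), f t) := by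
    have h2 : HasSum (fun t => if t + 1 < N then f t else 0)
        (∑ t ∈ Finset.range (N - 1), (if t + 1 < N then f t else 0)) :=
      hasSum_sum_of_ne_finset_zero (by
        intro t ht
        rw [Finset.mem_range] at ht
        exact if_neg (by omega))
    have h3 : ∑ t ∈ Finset.range (N - 1), (if t + 1 < N then f t else 0) =
        ∑ t ∈ Finset.range (N - 1), f t := by
      refine Finset.sum_congr rfl fun t ht => ?_
      rw [Finset.mem_range] at ht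
      exact if_pos (by omega)
    rw [h3] at h2
    exact h2
  have h2 : (fun t => if t + 1 < N then 0 else f t) =
      fun t => f t - (if t + 1 < N then f t else 0) := by
    funext t
    split_ifs <;> ring
  rw [h2, (hf.hasSum.sub h1).tsum_eq]
  ring

end ArcL

open ArcL

theorem t_arc (hR : S_REG) : S_ARC := by
  intro b B m h ν r D i W H w c hb hb1 hr hν hdeg h0 hc hW hV
  obtain ⟨n, hn⟩ : ∃ n, n = 2 * ν + 1 := ⟨_, rfl⟩
  have hn1 : 1 ≤ n := by omega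
  obtain ⟨E, hE⟩ : ∃ E, E = i + D + 2 * n := ⟨_, rfl⟩
  have hdeg' : 2 * E + 3 ≤ 2 * h * n := by rw [hE, hn]; exact hdeg
  obtain ⟨P, hP⟩ : ∃ P : ℕ → ℚ[X], P = Pv w (fun l => Qv n D (c l)) := ⟨_, rfl⟩
  have hhead := head_zero (h := h) hR (Gb n i) h0 (L := r * (2 * ν + 1)) hV
    (Nat.mul_pos (by omega) (by omega))
  rw [← hn, ← hP] at hhead
  rw [← hn, ← hP, ← hE]
  have hM8 : 0 ≤ M8 n h B r E := by unfold M8; positivity
  -- the splitting
  have hsplit : ∀ d ∈ Finset.Icc 1 B, Sd n h b d (KP n h (Gb n i * P d)) =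
      ((∑ t ∈ Finset.range (d * (r * n) - 1), PowerSeries.coeff b
        (RS (sP n) (mP h) (KP n h (Gb n i * P d)) (((t : ℚ) + 1) / d)) : ℚ) : ℝ) +
      ∑' t : ℕ, (if t + 1 < d * (r * n) then 0 else ((PowerSeries.coeff b
        (RS (sP n) (mP h) (KP n h (Gb n i * P d)) (((t : ℚ) + 1) / d)) : ℚ) : ℝ)) := by
    intro d hd
    rw [Finset.mem_Icc] at hd
    have h1 : (Gb n i * P d).natDegree ≤ i + D := by
      refine Polynomial.natDegree_mul_le.trans (add_le_add (Gb_deg hn1 i) ?_)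
      rw [hP]
      exact Pv_deg hn1 D c w d
    have h2 : 2 * (Gb n i * P d).natDegree + 3 ≤ n * (2 * h) := by
      have : n * (2 * h) = 2 * h * n := by ring
      rw [this]
      omega
    have h3 := (hasSum_S (n := n) (h := h) (b := b) (d := d) hb hb1 hd.1 _ (degree_KP_lt h2)).summable
    unfold Sd
    rw [tsum_split h3 (d * (r * n))]
    push_cast
    rfl
  rw [Finset.sum_congr rfl hsplit, Finset.sum_add_distrib]
  have hh0 : ∑ d ∈ Finset.Icc 1 B, ((∑ t ∈ Finset.range (d * (r * n) - 1), PowerSeries.coeff b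
        (RS (sP n) (mP h) (KP n h (Gb n i * P d)) (((t : ℚ) + 1) / d)) : ℚ) : ℝ) = 0 := by
    rw [← Rat.cast_sum, hhead, Rat.cast_zero]
  rw [hh0, zero_add]
  refine (Finset.abs_sum_le_sum_abs _ _).trans ?_
  have hbd : ∀ d ∈ Finset.Icc 1 B, |∑' t : ℕ, (if t + 1 < d * (r * n) then 0 else
      ((PowerSeries.coeff b (RS (sP n) (mP h) (KP n h (Gb n i * P d)) (((t : ℚ) + 1) / d)) : ℚ) :
        ℝ))| ≤ ((∑ l, |w l d| : ℤ) : ℝ) * (D * H * (2 * (M8 n h B r E : ℝ))) := by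
    intro d hd
    rw [Finset.mem_Icc] at hd
    have hWd : (0 : ℝ) ≤ ((∑ l, |w l d| : ℤ) : ℝ) := by
      have : (0 : ℤ) ≤ ∑ l, |w l d| := Finset.sum_nonneg fun _ _ => abs_nonneg _
      exact_mod_cast this
    have hM8' : (0 : ℝ) ≤ (M8 n h B r E : ℝ) := by exact_mod_cast hM8
    have h1 := sum_bound (f := fun t : ℕ => (if t + 1 < d * (r * n) then 0 else
      ((PowerSeries.coeff b (RS (sP n) (mP h) (KP n h (Gb n i * P d)) (((t : ℚ) + 1) / d)) : ℚ) :
        ℝ))) (M := ((∑ l, |w l d| : ℤ) : ℝ) * (D * H * (M8 n h B r E : ℝ))) (by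
      intro t
      by_cases ht : t + 1 < d * (r * n)
      · simp only [ht, if_true, abs_zero]
        positivity
      · simp only [ht, if_false]
        have h2 := term_le (n := n) (b := b) (h := h) (B := B) (i := i) (E := E) (D := D) (H := H)
          hn1 hr hd.1 hd.2 hc w hE hdeg' ht
        rw [← hP] at h2
        have h3 : ((|PowerSeries.coeff b (RS (sP n) (mP h) (KP n h (Gb n i * P d))
            (((t : ℚ) + 1) / d))| : ℚ) : ℝ) ≤ ((((∑ l, |w l d| : ℤ) : ℚ) * (D * H * M8 n h B r E) *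
              (1 / ((t : ℚ) + 1) ^ 2) : ℚ) : ℝ) := by
          exact_mod_cast h2
        push_cast at h3
        push_cast
        exact h3) (by positivity)
    refine h1.trans (le_of_eq ?_)
    ring
  refine (Finset.sum_le_sum hbd).trans ?_
  rw [← Finset.sum_mul]
  have h1 : ∑ d ∈ Finset.Icc 1 B, ((∑ l, |w l d| : ℤ) : ℝ) ≤ (W : ℝ) := by
    have : (((∑ d ∈ Finset.Icc 1 B, ∑ l, |w l d| : ℤ)) : ℝ) ≤ ((W : ℤ) : ℝ) := by exact_mod_cast hW
    rw [Int.cast_sum] at this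
    exact_mod_cast this
  have hM8' : (0 : ℝ) ≤ (M8 n h B r E : ℝ) := by exact_mod_cast hM8
  exact mul_le_mul_of_nonneg_right h1 (by positivity)

end

end Pool.Agent.Y926.TW
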