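import Pool.Agent.Y926.TW.Stm2

/-!
# More than `√s` irrational odd zeta values: the difference of the forms
-/

open Polynomial Pool.Agent.H337R2 Pool.Agent.W165.OZ Pool.Agent.W165.OZ.PAx Pool.Agent.Y926.LZ

namespace Pool.Agent.Y926.TW

noncomputable section

namespace DIF

lemma pfc_sum' {ι : Type} (s : Finset ℕ) (μ : ℕ → ℕ) (S : Finset ι) (a : ι → ℚ) (P : ι → ℚ[X])
    (k j : ℕ) :
    pfc s μ (∑ m ∈ S, C (a m) * P m) k j = ∑ m ∈ S, a m * pfc s μ (P m) k j := by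
  unfold pfc
  rw [map_sum, Finset.sum_mul, map_sum]
  refine Finset.sum_congr rfl fun m _ => ?_
  rw [map_mul (TS _), TS_C, mul_assoc, PowerSeries.coeff_C_mul]

lemma pa_sum' {ι : Type} (s : Finset ℕ) (μ : ℕ → ℕ) (S : Finset ι) (a : ι → ℚ) (P : ι → ℚ[X])
    (k i : ℕ) :
    pa s μ (∑ m ∈ S, C (a m) * P m) k i = ∑ m ∈ S, a m * pa s μ (P m) k i := by
  unfold pa
  split_ifs
  · exact pfc_sum' s μ S a P k _
  · simp

lemma rhoP_sum' {ι : Type} (n h : ℕ) (S : Finset ι) (a : ι → ℚ) (P : ι → ℚ[X]) (i : ℕ) :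
    rhoP n h (∑ m ∈ S, C (a m) * P m) i = ∑ m ∈ S, a m * rhoP n h (P m) i := by
  unfold rhoP
  simp_rw [pa_sum', Finset.mul_sum]
  rw [Finset.sum_comm]

lemma KP_Pv {m : ℕ} (n h : ℕ) (w : Fin m → ℕ → ℤ) (g : ℚ[X]) (Q : Fin m → ℚ[X]) (d : ℕ) :
    KP n h (g * Pv w Q d) = ∑ l, C ((w l d : ℤ) : ℚ) * KP n h (g * Q l) := by
  unfold KP num Pv
  rw [Finset.mul_sum, Polynomial.sum_comp, Finset.mul_sum, Finset.mul_sum]
  refine Finset.sum_congr rfl fun l _ => ?_
  simp only [Polynomial.mul_comp, Polynomial.C_comp]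
  ring

lemma WW_sum_le {m : ℕ} (B J j : ℕ) (hB : 1 ≤ B) (hj : j ≤ J) (w : Fin m → ℕ → ℤ) (W : ℕ)
    (hW : ∑ d ∈ Finset.Icc 1 B, ∑ l, |w l d| ≤ (W : ℤ)) :
    ∑ l, |WW B (w l) j| ≤ (W : ℤ) * (B : ℤ) ^ J := by
  have hB' : (1 : ℤ) ≤ B := by exact_mod_cast hB
  calc ∑ l, |WW B (w l) j| ≤ ∑ l, ∑ d ∈ Finset.Icc 1 B, |w l d| * (B : ℤ) ^ J := by
        refine Finset.sum_le_sum fun l _ => ?_
        unfold WW
        refine (Finset.abs_sum_le_sum_abs _ _).trans (Finset.sum_le_sum fun d hd => ?_)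
        rw [Finset.mem_Icc] at hd
        rw [abs_mul]
        refine mul_le_mul_of_nonneg_left ?_ (abs_nonneg _)
        rw [abs_of_nonneg (by positivity)]
        have h1 : (d : ℤ) ≤ B := by exact_mod_cast hd.2
        calc (d : ℤ) ^ j ≤ (B : ℤ) ^ j := pow_le_pow_left₀ (by positivity) h1 j
          _ ≤ (B : ℤ) ^ J := pow_le_pow_right₀ hB' hj
    _ = (∑ d ∈ Finset.Icc 1 B, ∑ l, |w l d|) * (B : ℤ) ^ J := by
        rw [Finset.sum_comm, Finset.sum_mul]
        refine Finset.sum_congr rfl fun d _ => ?_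
        rw [Finset.sum_mul]
    _ ≤ _ := mul_le_mul_of_nonneg_right hW (by positivity)

end DIF

open DIF

theorem t_dif : S_DIF := by
  intro z n h b B m w g Q R W δ hn hB hb hb1 hδ hR0 hdeg hR hW hz
  -- degrees
  have hdegl : ∀ l, (KP n h (g * Q l)).degree < (QQ (sP n) (mP h)).degree :=
    fun l => degree_KP_lt (hdeg l)
  have hdegd : ∀ d, (KP n h (g * Pv w Q d)).degree < (QQ (sP n) (mP h)).degree := by
    intro d
    rw [KP_Pv]
    have e1 : (QQ (sP n) (mP h)).degree = ((n * (2 * h) : ℕ) : WithBot ℕ) := by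
      rw [Polynomial.degree_eq_natDegree (QQ_monic _ _).ne_zero, natDegree_QQ]
    rw [e1] at hdegl ⊢
    rw [← Polynomial.mem_degreeLT]
    refine Submodule.sum_mem _ fun l _ => ?_
    rw [← Polynomial.smul_eq_C_mul]
    exact Submodule.smul_mem _ _ (Polynomial.mem_degreeLT.2 (hdegl l))
  -- the coefficient
  obtain ⟨ρ, hρ⟩ : ∃ ρ : ℕ → ℚ, ρ = fun i => ∑ l, rhoP n h (KP n h (g * Q l)) i *
      (WW B (w l) (i + b) : ℚ) := ⟨_, rfl⟩
  have hcoef : ∀ i, ∑ d ∈ Finset.Icc 1 B, rhoP n h (KP n h (g * Pv w Q d)) i * (d : ℚ) ^ (i + b) =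
      ρ i := by
    intro i
    rw [hρ]
    simp only
    have e1 : ∀ d ∈ Finset.Icc 1 B, rhoP n h (KP n h (g * Pv w Q d)) i * (d : ℚ) ^ (i + b) =
        ∑ l, rhoP n h (KP n h (g * Q l)) i * ((w l d : ℚ) * (d : ℚ) ^ (i + b)) := by
      intro d _
      rw [KP_Pv, rhoP_sum', Finset.sum_mul]
      refine Finset.sum_congr rfl fun l _ => ?_
      ring
    rw [Finset.sum_congr rfl e1, Finset.sum_comm]
    refine Finset.sum_congr rfl fun l _ => ?_
    rw [← Finset.mul_sum]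
    unfold WW
    push_cast
    rfl
  -- the difference
  have hmain : ∑ d ∈ Finset.Icc 1 B, Sd n h b d (KP n h (g * Pv w Q d)) -
      (LQ z n h b B (fun d => g * Pv w Q d) : ℝ) =
      ∑ i ∈ Finset.Icc 1 (2 * h), ((Cb b i : ℚ) : ℝ) * ((ρ i : ℚ) : ℝ) * (zr (i + b) - (z (i + b) : ℝ)) := by
    have e1 : ∀ d ∈ Finset.Icc 1 B, Sd n h b d (KP n h (g * Pv w Q d)) =
        ∑ i ∈ Finset.Icc 1 (2 * h), ((Cb b i * rhoP n h (KP n h (g * Pv w Q d)) i *
          (d : ℚ) ^ (i + b) : ℚ) : ℝ) * zr (i + b) - (bet n h b d (KP n h (g * Pv w Q d)) : ℝ) := by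
      intro d hd
      rw [Finset.mem_Icc] at hd
      exact (hasSum_S hb hb1 hd.1 _ (hdegd d)).tsum_eq
    rw [Finset.sum_congr rfl e1]
    unfold LQ
    push_cast
    rw [← Finset.sum_sub_distrib]
    have e2 : ∀ i ∈ Finset.Icc 1 (2 * h), ((Cb b i : ℚ) : ℝ) * ((ρ i : ℚ) : ℝ) *
        (zr (i + b) - (z (i + b) : ℝ)) = ∑ d ∈ Finset.Icc 1 B, ((Cb b i : ℚ) : ℝ) *
        ((rhoP n h (KP n h (g * Pv w Q d)) i : ℚ) : ℝ) * (d : ℝ) ^ (i + b) *
        (zr (i + b) - (z (i + b) : ℝ)) := by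
      intro i _
      rw [← hcoef i]
      push_cast
      rw [Finset.mul_sum, Finset.sum_mul]
      refine Finset.sum_congr rfl fun d _ => ?_
      ring
    rw [Finset.sum_congr rfl e2, Finset.sum_comm]
    refine Finset.sum_congr rfl fun d _ => ?_
    rw [sub_sub_sub_cancel_right, ← Finset.sum_sub_distrib]
    refine Finset.sum_congr rfl fun i _ => ?_
    ring
  rw [hmain]
  refine (Finset.abs_sum_le_sum_abs _ _).trans ?_
  have hR0' : (0 : ℝ) ≤ R := by exact_mod_cast hR0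
  have h1 : ∀ i ∈ Finset.Icc 1 (2 * h),
      |((Cb b i : ℚ) : ℝ) * ((ρ i : ℚ) : ℝ) * (zr (i + b) - (z (i + b) : ℝ))| ≤
      2 ^ (2 * h + b) * R * (W * (B : ℝ) ^ (2 * h + b)) * δ := by
    intro i hi
    rw [Finset.mem_Icc] at hi
    have hnn : (0 : ℝ) ≤ 2 ^ (2 * h + b) * R * (W * (B : ℝ) ^ (2 * h + b)) * δ := by positivity
    rcases Nat.even_or_odd i with hi2 | hi2
    · have e1 : ρ i = 0 := by
        rw [hρ]
        exact Finset.sum_eq_zero fun l _ => by rw [rho_even hn _ hi2 hi.1, zero_mul]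
      rw [e1]
      simpa using hnn
    · rcases hz (i + b) (hi2.add_even hb) (by omega) (by omega) with h3 | h3
      · have e1 : ρ i = 0 := by
          rw [hρ]
          exact Finset.sum_eq_zero fun l _ => by rw [h3 l]; simp
        rw [e1]
        simpa using hnn
      · have a1 : |(Cb b i : ℚ)| ≤ 2 ^ (2 * h + b) := by
          unfold Cb
          rw [abs_of_nonneg (by positivity)]
          have h4 : (i - 1 + b).choose (i - 1) ≤ 2 ^ (i - 1 + b) := Nat.choose_le_two_pow _ _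
          have h5 : 2 ^ (i - 1 + b) ≤ 2 ^ (2 * h + b) := Nat.pow_le_pow_right (by norm_num) (by omega)
          exact_mod_cast h4.trans h5
        have a1' : |((Cb b i : ℚ) : ℝ)| ≤ 2 ^ (2 * h + b) := by exact_mod_cast a1
        have a2 : |ρ i| ≤ R * (W * (B : ℚ) ^ (2 * h + b)) := by
          rw [hρ]
          refine (Finset.abs_sum_le_sum_abs _ _).trans ?_
          have a3 : ∀ l ∈ Finset.univ, |rhoP n h (KP n h (g * Q l)) i * (WW B (w l) (i + b) : ℚ)| ≤
              R * ((|WW B (w l) (i + b)| : ℤ) : ℚ) := by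
            intro l _
            rw [abs_mul, Int.cast_abs]
            exact mul_le_mul_of_nonneg_right (hR l i hi.2) (abs_nonneg _)
          refine (Finset.sum_le_sum a3).trans ?_
          rw [← Finset.mul_sum]
          refine mul_le_mul_of_nonneg_left ?_ hR0
          have a4 := WW_sum_le B (2 * h + b) (i + b) hB (by omega) w W hW
          have a5 : ((∑ l, |WW B (w l) (i + b)| : ℤ) : ℚ) ≤ (((W : ℤ) * (B : ℤ) ^ (2 * h + b) : ℤ) : ℚ) := by
            exact_mod_cast a4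
          push_cast at a5 ⊢
          exact a5
        have a2' : |((ρ i : ℚ) : ℝ)| ≤ R * (W * (B : ℝ) ^ (2 * h + b)) := by exact_mod_cast a2
        rw [abs_mul, abs_mul, mul_assoc ((2 : ℝ) ^ (2 * h + b))]
        refine mul_le_mul (mul_le_mul a1' a2' (abs_nonneg _) (by positivity)) h3 (abs_nonneg _)
          (by positivity)
  refine (Finset.sum_le_sum h1).trans ?_
  rw [Finset.sum_const, Nat.card_Icc, nsmul_eq_mul]
  push_cast
  simp

end

end Pool.Agent.Y926.TW
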