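import Pool.Agent.Y926.TW.Stm2
import Pool.Agent.Y926.LZ.NonX

/-!
# Integrality of the forms
-/

open Polynomial Pool.Agent.H337R2 Pool.Agent.W165.OZ Pool.Agent.W165.OZ.PAx Pool.Agent.Y926.LZ

namespace Pool.Agent.Y926.TW

noncomputable section

namespace IntAux

/-! ### linearity -/

section lin
variable {κ : Type*}

lemma pfc_sum' (s : Finset ℕ) (μ : ℕ → ℕ) (S : Finset κ) (a : κ → ℚ) (P : κ → ℚ[X]) (k j : ℕ) :
    pfc s μ (∑ m ∈ S, C (a m) * P m) k j = ∑ m ∈ S, a m * pfc s μ (P m) k j := by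
  unfold pfc
  rw [map_sum, Finset.sum_mul, map_sum]
  refine Finset.sum_congr rfl fun m _ => ?_
  rw [map_mul (TS _), TS_C, mul_assoc, PowerSeries.coeff_C_mul]

lemma pa_sum' (s : Finset ℕ) (μ : ℕ → ℕ) (S : Finset κ) (a : κ → ℚ) (P : κ → ℚ[X]) (k i : ℕ) :
    pa s μ (∑ m ∈ S, C (a m) * P m) k i = ∑ m ∈ S, a m * pa s μ (P m) k i := by
  unfold pa
  split_ifs
  · exact pfc_sum' s μ S a P k _
  · simp

lemma rhoP_sum' (n h : ℕ) (S : Finset κ) (a : κ → ℚ) (P : κ → ℚ[X]) (i : ℕ) :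
    rhoP n h (∑ m ∈ S, C (a m) * P m) i = ∑ m ∈ S, a m * rhoP n h (P m) i := by
  unfold rhoP
  simp_rw [pa_sum', Finset.mul_sum]
  rw [Finset.sum_comm]

lemma Gk_sum' (n h b : ℕ) (S : Finset κ) (a : κ → ℚ) (P : κ → ℚ[X]) (x : ℚ) (k : ℕ) :
    Gk n h b (∑ m ∈ S, C (a m) * P m) x k = ∑ m ∈ S, a m * Gk n h b (P m) x k := by
  unfold Gk
  have h1 : ∀ i ∈ Finset.Icc 1 (2 * h), pa (sP n) (mP h) (∑ m ∈ S, C (a m) * P m) k i *
      Cb b i / (x + k) ^ (i + b) = ∑ m ∈ S, a m * (pa (sP n) (mP h) (P m) k i *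
      Cb b i / (x + k) ^ (i + b)) := by
    intro i _
    rw [pa_sum', Finset.sum_mul, Finset.sum_div]
    refine Finset.sum_congr rfl fun m _ => ?_
    ring
  rw [Finset.sum_congr rfl h1, Finset.sum_comm]
  refine Finset.sum_congr rfl fun m _ => ?_
  rw [Finset.mul_sum]

lemma KP_sum' (n h : ℕ) (S : Finset κ) (a : κ → ℚ) (P : κ → ℚ[X]) :
    KP n h (∑ m ∈ S, C (a m) * P m) = ∑ m ∈ S, C (a m) * KP n h (P m) := by
  unfold KP num
  rw [Polynomial.sum_comp, Finset.mul_sum, Finset.mul_sum]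
  refine Finset.sum_congr rfl fun m _ => ?_
  rw [Polynomial.mul_comp, Polynomial.C_comp]
  ring

end lin

/-! ### `p`-adic bounds -/

section pad
variable {p : ℕ} [hp : Fact p.Prime]

lemma PB_sum {κ : Type*} {ρ A : ℚ} (hρ : 0 ≤ ρ) (hA : 0 ≤ A) (S : Finset κ)
    (f : κ → PowerSeries ℚ) (h : ∀ i ∈ S, PB p ρ A (f i)) : PB p ρ A (∑ i ∈ S, f i) := by
  intro j
  rw [map_sum]
  exact padicNorm.sum_le' (fun i hi => h i hi j) (by positivity)

lemma PB_int {ρ A : ℚ} {f : PowerSeries ℚ} (a : ℤ) (h : PB p ρ A f) :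
    PB p ρ A (PowerSeries.C ((a : ℤ) : ℚ) * f) := by
  intro j
  rw [PowerSeries.coeff_C_mul, padicNorm.mul]
  have h1 := padicNorm.of_int (p := p) a
  calc padicNorm p (a : ℚ) * padicNorm p (PowerSeries.coeff j f)
      ≤ 1 * padicNorm p (PowerSeries.coeff j f) :=
        mul_le_mul_of_nonneg_right h1 (padicNorm.nonneg _)
    _ ≤ _ := by rw [one_mul]; exact h j

lemma PB_G {n m k : ℕ} (hn : 1 ≤ n) :
    PB p ((p : ℚ) ^ Nat.log p n) 1 (TS (-(k : ℚ)) ((Gb n m).comp (yp n))) := by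
  have h1 := PB_PG (p := p) (n := n) (b := 0) (B := 0) (R := 0) (m := m) (k := k) hn
  have h2 : Phi n 0 0 0 = 1 := by
    unfold Phi Ix
    rw [Finset.prod_sigma]
    simp
  rwa [h2, one_mul] at h1

/-- the basic products -/
lemma PB_GQ {n m k D : ℕ} (hn : 1 ≤ n) (c : ℕ → ℤ) :
    PB p ((p : ℚ) ^ Nat.log p n) 1 (TS (-(k : ℚ)) ((Gb n m * Qv n D c).comp (yp n))) := by
  have hρ : (1 : ℚ) ≤ (p : ℚ) ^ Nat.log p n := rho_ge n
  have hρ0 : (0 : ℚ) ≤ (p : ℚ) ^ Nat.log p n := by linarith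
  rw [Polynomial.mul_comp, map_mul]
  have h2 : PB p ((p : ℚ) ^ Nat.log p n) 1 (TS (-(k : ℚ)) ((Qv n D c).comp (yp n))) := by
    unfold Qv
    rw [Polynomial.sum_comp, map_sum]
    refine PB_sum hρ0 zero_le_one _ _ fun i _ => ?_
    rw [Polynomial.mul_comp, Polynomial.C_comp, map_mul, TS_C]
    exact PB_int (c i) (PB_G hn)
  have h3 := PB.mul hρ0 zero_le_one zero_le_one (PB_G (p := p) (n := n) (m := m) (k := k) hn) h2
  rwa [one_mul] at h3

lemma PB_lin {n k : ℕ} {M : ℕ} (a : Fin M → ℤ) (P : Fin M → ℚ[X])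
    (h : ∀ l, PB p ((p : ℚ) ^ Nat.log p n) 1 (TS (-(k : ℚ)) ((P l).comp (yp n)))) :
    PB p ((p : ℚ) ^ Nat.log p n) 1
      (TS (-(k : ℚ)) ((∑ l, C ((a l : ℤ) : ℚ) * P l).comp (yp n))) := by
  have hρ : (1 : ℚ) ≤ (p : ℚ) ^ Nat.log p n := rho_ge n
  have hρ0 : (0 : ℚ) ≤ (p : ℚ) ^ Nat.log p n := by linarith
  rw [Polynomial.sum_comp, map_sum]
  refine PB_sum hρ0 zero_le_one _ _ fun l _ => ?_
  rw [Polynomial.mul_comp, Polynomial.C_comp, map_mul, TS_C]
  exact PB_int (a l) (h l)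

/-- the bound of the inner sums -/
lemma part_bound {n h b e u : ℕ} (hb : Even b) (he : 2 ≤ e) (hc : Nat.Coprime u e) {P : ℚ[X]}
    (hdeg : P.degree < (QQ (sP n) (mP h)).degree)
    (hP : ∀ k < n, ∀ i : ℕ, i ≤ 2 * h → padicNorm p (pa (sP n) (mP h) P k i) ≤
      ((p : ℚ) ^ Nat.log p n) ^ (2 * h - i))
    (hz : PowerSeries.coeff b (RS (sP n) (mP h) P (-(u : ℚ) / e)) = 0) :
    padicNorm p (∑ k ∈ (sP n).filter (fun k => u < e * k), Gk n h b P (-(u : ℚ) / e) k) ≤
      ((p : ℚ) ^ Nat.log p n) ^ (2 * h + b) := by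
  have hρ : (1 : ℚ) ≤ (p : ℚ) ^ Nat.log p n := rho_ge n
  have hρ0 : (0 : ℚ) ≤ (p : ℚ) ^ Nat.log p n := by linarith
  have he0 : (e : ℚ) ≠ 0 := by exact_mod_cast (by omega : e ≠ 0)
  have hne : ∀ m ∈ sP n, -(u : ℚ) / e + (m : ℚ) ≠ 0 := by
    intro m _ h0
    have h1 : (u : ℚ) = (e : ℚ) * m := by
      field_simp at h0
      linarith
    have h2 : u = e * m := by exact_mod_cast h1
    have h3 : e ∣ Nat.gcd u e := Nat.dvd_gcd ⟨m, h2⟩ (dvd_refl e)
    rw [hc] at h3
    have := Nat.le_of_dvd one_pos h3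
    omega
  rw [coeff_RS' hb P hdeg _ hne] at hz
  have key : ∀ T : Finset ℕ, T ⊆ sP n →
      (∀ k ∈ T, (padicNorm p (-(u : ℚ) / e + k))⁻¹ ≤ (p : ℚ) ^ Nat.log p n) →
      padicNorm p (∑ k ∈ T, Gk n h b P (-(u : ℚ) / e) k) ≤
        ((p : ℚ) ^ Nat.log p n) ^ (2 * h + b) := by
    intro T hT hc
    apply padicNorm.sum_le' _ (by positivity)
    intro k hk
    exact Gk_bound (hP k (Finset.mem_range.1 (hT hk))) (hne k (hT hk)) (hc k hk)
  by_cases hex : ∀ k ∈ (sP n).filter (fun k => u < e * k),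
      (padicNorm p (-(u : ℚ) / e + k))⁻¹ ≤ (p : ℚ) ^ Nat.log p n
  · exact key _ (Finset.filter_subset _ _) hex
  · push Not at hex
    obtain ⟨k0, hk0, hk0'⟩ := hex
    have h1 : ∑ k ∈ (sP n).filter (fun k => u < e * k), Gk n h b P (-(u : ℚ) / e) k =
        -∑ k ∈ (sP n).filter (fun k => ¬ u < e * k), Gk n h b P (-(u : ℚ) / e) k := by
      rw [eq_neg_iff_add_eq_zero, Finset.sum_filter_add_sum_filter_not, hz]
    rw [h1, padicNorm.neg]
    refine key _ (Finset.filter_subset _ _) fun k hk => ?_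
    by_contra hk'
    have h2 := close_unique (p := p) (Finset.mem_range.1 (Finset.mem_filter.1 hk0).1)
      (Finset.mem_range.1 (Finset.mem_filter.1 hk).1) (not_le.2 hk0') hk'
    rw [← h2] at hk
    exact (Finset.mem_filter.1 hk).2 (Finset.mem_filter.1 hk0).2

end pad

/-! ### the zeros -/

/-- the symmetry `t ↦ 1 - n - t` -/
lemma sym_dvd {n b : ℕ} {F : ℚ[X]} {x : ℚ} (h : (X - C x) ^ (b + 1) ∣ F.comp (yp n)) :
    (X - C (1 - (n : ℚ) - x)) ^ (b + 1) ∣ F.comp (yp n) := by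
  obtain ⟨R, hR⟩ := h
  have h1 : (F.comp (yp n)).comp (C (1 - (n : ℚ)) - X) = F.comp (yp n) := by
    rw [Polynomial.comp_assoc]
    congr 1
    unfold yp
    rw [Polynomial.mul_comp, Polynomial.add_comp, Polynomial.X_comp, Polynomial.C_comp]
    simp only [map_sub, map_one]
    ring
  have h2 : ((X - C x : ℚ[X]) ^ (b + 1)).comp (C (1 - (n : ℚ)) - X) =
      (X - C (1 - (n : ℚ) - x)) ^ (b + 1) * C ((-1 : ℚ) ^ (b + 1)) := by
    rw [Polynomial.pow_comp, Polynomial.sub_comp, Polynomial.X_comp, Polynomial.C_comp, map_pow,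
      ← mul_pow]
    congr 1
    simp only [map_sub, map_neg, map_one]
    ring
  refine ⟨C ((-1 : ℚ) ^ (b + 1)) * R.comp (C (1 - (n : ℚ)) - X), ?_⟩
  rw [← mul_assoc, ← h2, ← Polynomial.mul_comp, ← hR, h1]

lemma van_dvd {m b B ν L e u : ℕ} {w : Fin m → ℕ → ℤ} {Q : Fin m → ℚ[X]} (hV : Van b B ν L w Q)
    (hL : ν + 1 ≤ L) (he : 2 ≤ e) (heB : e ≤ B) (hu : u < e * (2 * ν + 1))
    (hc : Nat.Coprime u e) :
    (X - C (-(u : ℚ) / e)) ^ (b + 1) ∣ (fe B w Q e).comp (yp (2 * ν + 1)) := by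
  have he0 : (e : ℚ) ≠ 0 := by exact_mod_cast (by omega : e ≠ 0)
  by_cases hcase : u ≤ ν * e
  · have h1 : ν * e - u < e * L := by
      calc ν * e - u ≤ ν * e := Nat.sub_le _ _
        _ < (ν + 1) * e := by
            rw [Nat.add_mul]
            omega
        _ ≤ L * e := Nat.mul_le_mul_right _ hL
        _ = e * L := mul_comm _ _
    have h2 : Nat.Coprime (ν * e - u) e := by
      have hg1 : Nat.gcd (ν * e - u) e ∣ e := Nat.gcd_dvd_right _ _
      have hg2 : Nat.gcd (ν * e - u) e ∣ ν * e - u := Nat.gcd_dvd_left _ _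
      have hg3 : Nat.gcd (ν * e - u) e ∣ u := by
        have h3 := Nat.dvd_sub (hg1.mul_left ν) hg2
        rwa [Nat.sub_sub_self hcase] at h3
      have h4 := Nat.dvd_gcd hg3 hg1
      rw [hc] at h4
      exact Nat.eq_one_of_dvd_one h4
    have h4 := hV e he heB _ h1 h2
    have h5 : ((ν * e - u : ℕ) : ℚ) / e - ν = -(u : ℚ) / e := by
      rw [Nat.cast_sub hcase]
      push_cast
      field_simp
      ring
    rwa [h5] at h4
  · push Not at hcase
    have h1 : u - ν * e < e * L := by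
      have h6 : u < ν * e + (ν + 1) * e := by
        calc u < e * (2 * ν + 1) := hu
          _ = ν * e + (ν + 1) * e := by ring
      have h7 : (ν + 1) * e ≤ e * L := by
        rw [mul_comm e L]
        exact Nat.mul_le_mul_right _ hL
      omega
    have h2 : Nat.Coprime (u - ν * e) e := by
      have hg1 : Nat.gcd (u - ν * e) e ∣ e := Nat.gcd_dvd_right _ _
      have hg2 : Nat.gcd (u - ν * e) e ∣ u - ν * e := Nat.gcd_dvd_left _ _
      have hg3 : Nat.gcd (u - ν * e) e ∣ u := by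
        have h3 := Nat.dvd_add hg2 (hg1.mul_left ν)
        rwa [Nat.sub_add_cancel hcase.le] at h3
      have h4 := Nat.dvd_gcd hg3 hg1
      rw [hc] at h4
      exact Nat.eq_one_of_dvd_one h4
    have h4 := sym_dvd (hV e he heB _ h1 h2)
    have h5 : 1 - (((2 * ν + 1 : ℕ)) : ℚ) - (((u - ν * e : ℕ) : ℚ) / e - ν) = -(u : ℚ) / e := by
      rw [Nat.cast_sub hcase.le]
      push_cast
      field_simp
      ring
    rwa [h5] at h4

lemma Qv_natDegree (n D : ℕ) (c : ℕ → ℤ) : (Qv n D c).natDegree ≤ D := by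
  unfold Qv
  refine Polynomial.natDegree_sum_le_of_forall_le _ _ fun i hi => ?_
  refine (Polynomial.natDegree_C_mul_le _ _).trans ?_
  rw [(Gb_spec n i).2]
  exact (Finset.mem_range.1 hi).le

/-- integrality from the bounds -/
lemma int_of_bound {x : ℚ} (h : ∀ p : ℕ, [Fact p.Prime] → padicNorm p x ≤ 1) : ∃ M : ℤ, x = M := by
  have h5 := PRaux.int_of_padicNorm h
  refine ⟨x.num, ?_⟩
  have := Rat.mul_den_eq_num x
  rw [h5] at this
  simpa using this

end IntAux

open IntAux in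
/-- INT: integrality of the forms -/
theorem t_int (hR : S_REG) : S_INT := by
  intro z b B m h ν L D i q w c hb hL hdeg hw hV hz
  classical
  obtain ⟨n, hn⟩ : ∃ n, n = 2 * ν + 1 := ⟨_, rfl⟩
  have hV' : ∀ e, 2 ≤ e → e ≤ B → ∀ u, u < e * n → Nat.Coprime u e →
      (X - C (-(u : ℚ) / e)) ^ (b + 1) ∣ (fe B w (fun l => Qv n D (c l)) e).comp (yp n) := by
    intro e he heB u hu hc
    rw [hn] at hu ⊢
    exact van_dvd hV hL he heB hu hc
  rw [← hn] at hdeg ⊢
  clear hV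
  have hn1 : 1 ≤ n := by omega
  obtain ⟨Q, hQ⟩ : ∃ Q : Fin m → ℚ[X], Q = fun l => Qv n D (c l) := ⟨_, rfl⟩
  have hQl : ∀ l, Q l = Qv n D (c l) := fun l => by rw [hQ]
  rw [← hQ] at hV' ⊢
  obtain ⟨g, hg⟩ : ∃ g : ℚ[X], g = Gb n i := ⟨_, rfl⟩
  rw [← hg]
  obtain ⟨Kl, hKl⟩ : ∃ Kl : Fin m → ℚ[X], ∀ l, Kl l = KP n h (g * Q l) := ⟨_, fun _ => rfl⟩
  -- linearity
  have hKPd : ∀ d, KP n h (g * Pv w Q d) = ∑ l, C ((w l d : ℤ) : ℚ) * Kl l := by
    intro d
    have h1 : g * Pv w Q d = ∑ l, C ((w l d : ℤ) : ℚ) * (g * Q l) := by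
      unfold Pv
      rw [Finset.mul_sum]
      exact Finset.sum_congr rfl fun l _ => by ring
    rw [h1, KP_sum' n h Finset.univ (fun l => ((w l d : ℤ) : ℚ)) (fun l => g * Q l)]
    exact Finset.sum_congr rfl fun l _ => by rw [hKl]
  have hfe : ∀ e, g * fe B w Q e = ∑ l, C (((∑ d ∈ (Finset.Icc 1 B).filter (fun d => e ∣ d),
      w l d : ℤ)) : ℚ) * (g * Q l) := by
    intro e
    unfold fe Cd
    rw [Finset.mul_sum]
    refine Finset.sum_congr rfl fun l _ => ?_
    push_cast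
    ring
  have hKe : ∀ e, KP n h (g * fe B w Q e) =
      ∑ l, C (((∑ d ∈ (Finset.Icc 1 B).filter (fun d => e ∣ d), w l d : ℤ)) : ℚ) * Kl l := by
    intro e
    rw [hfe, KP_sum' n h Finset.univ (fun l => ((∑ d ∈ (Finset.Icc 1 B).filter (fun d => e ∣ d),
      w l d : ℤ) : ℚ)) (fun l => g * Q l)]
    exact Finset.sum_congr rfl fun l _ => by rw [hKl]
  -- degrees
  have hdegQ : ∀ l, (g * Q l).natDegree ≤ i + D := by
    intro l
    refine Polynomial.natDegree_mul_le.trans ?_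
    rw [hg, (Gb_spec n i).2, hQl]
    exact Nat.add_le_add_left (Qv_natDegree n D (c l)) i
  have hdegE : ∀ e, (KP n h (g * fe B w Q e)).degree < (QQ (sP n) (mP h)).degree := by
    intro e
    apply degree_KP_lt
    have h1 : (g * fe B w Q e).natDegree ≤ i + D := by
      rw [hfe]
      exact Polynomial.natDegree_sum_le_of_forall_le _ _ fun l _ =>
        (Polynomial.natDegree_C_mul_le _ _).trans (hdegQ l)
    omega
  -- the zeta part
  have hA : ∑ d ∈ Finset.Icc 1 B, ∑ j ∈ Finset.Icc 1 (2 * h),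
      Cb b j * rhoP n h (KP n h (g * Pv w Q d)) j * (d : ℚ) ^ (j + b) * z (j + b) =
      ∑ j ∈ Finset.Icc 1 (2 * h), ∑ l, Cb b j * rhoP n h (Kl l) j *
        (WW B (w l) (j + b) : ℚ) * z (j + b) := by
    rw [Finset.sum_comm]
    refine Finset.sum_congr rfl fun j _ => ?_
    have h1 : ∀ d, Cb b j * rhoP n h (KP n h (g * Pv w Q d)) j * (d : ℚ) ^ (j + b) * z (j + b) =
        ∑ l, Cb b j * rhoP n h (Kl l) j * ((w l d : ℚ) * (d : ℚ) ^ (j + b)) * z (j + b) := by
      intro d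
      rw [hKPd, rhoP_sum' n h Finset.univ (fun l => ((w l d : ℤ) : ℚ)) Kl, Finset.mul_sum,
        Finset.sum_mul, Finset.sum_mul]
      exact Finset.sum_congr rfl fun l _ => by ring
    have h2 : ∑ d ∈ Finset.Icc 1 B, Cb b j * rhoP n h (KP n h (g * Pv w Q d)) j *
        (d : ℚ) ^ (j + b) * z (j + b) = ∑ d ∈ Finset.Icc 1 B, ∑ l, Cb b j * rhoP n h (Kl l) j *
          ((w l d : ℚ) * (d : ℚ) ^ (j + b)) * z (j + b) :=
      Finset.sum_congr rfl fun d _ => h1 d
    rw [h2, Finset.sum_comm]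
    refine Finset.sum_congr rfl fun l _ => ?_
    unfold WW
    push_cast
    rw [Finset.mul_sum, Finset.sum_mul]
  -- the rational part
  have hB : ∑ d ∈ Finset.Icc 1 B, bet n h b d (KP n h (g * Pv w Q d)) =
      ∑ e ∈ Finset.Icc 1 B, ∑ u ∈ (Finset.range (e * n)).filter (fun u => Nat.Coprime u e),
        ∑ k ∈ (sP n).filter (fun k => u < e * k),
          Gk n h b (KP n h (g * fe B w Q e)) (-(u : ℚ) / e) k := by
    have hfil : ∀ e u : ℕ, 1 ≤ e → (sP n).filter (fun k : ℕ => (u : ℚ) / e < (k : ℚ)) =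
        (sP n).filter (fun k : ℕ => u < e * k) := by
      intro e u he
      ext k
      rw [Finset.mem_filter, Finset.mem_filter]
      have he0 : (0 : ℚ) < e := by exact_mod_cast he
      have h1 : (u : ℚ) / e < (k : ℚ) ↔ u < e * k := by
        rw [div_lt_iff₀ he0]
        constructor
        · intro h
          have h2 : (u : ℚ) < ((e * k : ℕ) : ℚ) := by push_cast; linarith
          exact_mod_cast h2
        · intro h
          have h2 : (u : ℚ) < ((e * k : ℕ) : ℚ) := by exact_mod_cast h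
          push_cast at h2
          linarith
      rw [h1]
    have h1 : ∀ d ∈ Finset.Icc 1 B, bet n h b d (KP n h (g * Pv w Q d)) =
        ∑ v ∈ Finset.range (d * n), (fun (d : ℕ) (x : ℚ) =>
          ∑ k ∈ (sP n).filter (fun k : ℕ => x < (k : ℚ)),
            Gk n h b (KP n h (g * Pv w Q d)) (-x) k) d ((v : ℚ) / d) := by
      intro d hd
      rw [bet_eq (Finset.mem_Icc.1 hd).1]
      refine Finset.sum_congr rfl fun v _ => ?_
      beta_reduce
      rw [hfil d v (Finset.mem_Icc.1 hd).1, neg_div]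
    rw [Finset.sum_congr rfl h1, hR ℚ B n (fun (d : ℕ) (x : ℚ) =>
          ∑ k ∈ (sP n).filter (fun k : ℕ => x < (k : ℚ)),
            Gk n h b (KP n h (g * Pv w Q d)) (-x) k)]
    refine Finset.sum_congr rfl fun e he => Finset.sum_congr rfl fun u _ => ?_
    rw [hfil e u (Finset.mem_Icc.1 he).1, Finset.sum_comm]
    refine Finset.sum_congr rfl fun k _ => ?_
    rw [hKe, Gk_sum' n h b Finset.univ (fun l => ((∑ d ∈ (Finset.Icc 1 B).filter (fun d => e ∣ d),
      w l d : ℤ) : ℚ)) Kl, neg_div]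
    have h2 : ∀ d, Gk n h b (KP n h (g * Pv w Q d)) (-((u : ℚ) / e)) k =
        ∑ l, ((w l d : ℤ) : ℚ) * Gk n h b (Kl l) (-((u : ℚ) / e)) k := by
      intro d
      rw [hKPd, Gk_sum' n h b Finset.univ (fun l => ((w l d : ℤ) : ℚ)) Kl]
    rw [Finset.sum_congr rfl fun d _ => h2 d, Finset.sum_comm]
    refine Finset.sum_congr rfl fun l _ => ?_
    rw [← Finset.sum_mul]
    push_cast
    rfl
  have hLQ : (q : ℚ) * LQ z n h b B (fun d => g * Pv w Q d) =
      ∑ j ∈ Finset.Icc 1 (2 * h), ∑ l, Cb b j * rhoP n h (Kl l) j *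
        (WW B (w l) (j + b) : ℚ) * ((q : ℚ) * z (j + b)) -
      (q : ℚ) * ∑ e ∈ Finset.Icc 1 B, ∑ u ∈ (Finset.range (e * n)).filter
        (fun u => Nat.Coprime u e), ∑ k ∈ (sP n).filter (fun k => u < e * k),
          Gk n h b (KP n h (g * fe B w Q e)) (-(u : ℚ) / e) k := by
    unfold LQ
    rw [Finset.sum_sub_distrib, hA, hB, mul_sub]
    congr 1
    rw [Finset.mul_sum]
    refine Finset.sum_congr rfl fun j _ => ?_
    rw [Finset.mul_sum]
    exact Finset.sum_congr rfl fun l _ => by ring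
  apply int_of_bound
  intro p hp
  have hρ : (1 : ℚ) ≤ (p : ℚ) ^ Nat.log p n := rho_ge n
  have hρ0 : (0 : ℚ) < (p : ℚ) ^ Nat.log p n := by linarith
  have hD : padicNorm p (Dl n 1 : ℚ) ≤ ((p : ℚ) ^ Nat.log p n)⁻¹ := by
    by_cases hpn : p ≤ n
    · rw [pn_Dl hpn, one_mul]
    · rw [Nat.log_of_lt (by omega), pow_zero, inv_one]
      exact padicNorm.of_nat _
  have hPl : ∀ (l : Fin m), ∀ k < n, ∀ j : ℕ, j ≤ 2 * h → padicNorm p (pa (sP n) (mP h) (Kl l) k j) ≤
      ((p : ℚ) ^ Nat.log p n) ^ (2 * h - j) := by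
    intro l k hk j hj
    rw [hKl]
    refine pa_bound hk _ hj ?_
    rw [hg, hQl]
    exact PB_GQ hn1 (c l)
  have hPe : ∀ e : ℕ, ∀ k < n, ∀ j : ℕ, j ≤ 2 * h →
      padicNorm p (pa (sP n) (mP h) (KP n h (g * fe B w Q e)) k j) ≤
      ((p : ℚ) ^ Nat.log p n) ^ (2 * h - j) := by
    intro e k hk j hj
    refine pa_bound hk _ hj ?_
    rw [hfe]
    refine PB_lin _ _ fun l => ?_
    rw [hg, hQl]
    exact PB_GQ hn1 (c l)
  have h6 : padicNorm p ((q : ℚ) * LQ z n h b B (fun d => g * Pv w Q d)) ≤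
      ((p : ℚ) ^ Nat.log p n) ^ (2 * h + b) := by
    rw [hLQ]
    refine padicNorm.sub.trans (max_le ?_ ?_)
    · apply padicNorm.sum_le' _ (by positivity)
      intro j hj
      rw [Finset.mem_Icc] at hj
      have hzero : ∀ x : ℚ, x = 0 → padicNorm p x ≤ ((p : ℚ) ^ Nat.log p n) ^ (2 * h + b) := by
        intro x hx
        rw [hx, padicNorm.zero]
        positivity
      apply padicNorm.sum_le' _ (by positivity)
      intro l _
      rcases Nat.even_or_odd j with hj2 | hj2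
      · apply hzero
        rw [hKl, rho_even hn1 _ hj2 hj.1]
        ring
      · rcases hz (j + b) (hj2.add_even hb) (by omega) (by omega) with h3 | ⟨a, h3⟩
        · apply hzero
          rw [h3 l]
          push_cast
          ring
        · rw [h3, padicNorm.mul, padicNorm.mul, padicNorm.mul]
          have a1 := pn_Cb (p := p) b j
          have a2 := rho_bound (p := p) hj.2 (hPl l)
          have a3 := padicNorm.of_int (p := p) (WW B (w l) (j + b))
          have a4 := padicNorm.of_int (p := p) a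
          have a5 : ((p : ℚ) ^ Nat.log p n) ^ (2 * h) ≤ ((p : ℚ) ^ Nat.log p n) ^ (2 * h + b) :=
            pow_le_pow_right₀ hρ (by omega)
          calc _ ≤ 1 * ((p : ℚ) ^ Nat.log p n) ^ (2 * h) * 1 * 1 := by
                refine mul_le_mul (mul_le_mul (mul_le_mul a1 a2 (padicNorm.nonneg _) zero_le_one) a3
                  (padicNorm.nonneg _) (by positivity)) a4 (padicNorm.nonneg _) (by positivity)
            _ ≤ _ := by rw [one_mul, mul_one, mul_one]; exact a5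
    · rw [padicNorm.mul]
      have a1 := padicNorm.of_nat (p := p) q
      have a2 : padicNorm p (∑ e ∈ Finset.Icc 1 B, ∑ u ∈ (Finset.range (e * n)).filter
          (fun u => Nat.Coprime u e), ∑ k ∈ (sP n).filter (fun k => u < e * k),
            Gk n h b (KP n h (g * fe B w Q e)) (-(u : ℚ) / e) k) ≤
          ((p : ℚ) ^ Nat.log p n) ^ (2 * h + b) := by
        apply padicNorm.sum_le' _ (by positivity)
        intro e he
        rw [Finset.mem_Icc] at he
        apply padicNorm.sum_le' _ (by positivity)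
        intro u hu
        rw [Finset.mem_filter, Finset.mem_range] at hu
        by_cases he1 : e = 1
        · subst he1
          have h7 : ∀ k, Gk n h b (KP n h (g * fe B w Q 1)) (-(u : ℚ) / (1 : ℕ)) k = 0 := by
            intro k
            rw [hKe, Gk_sum' n h b Finset.univ (fun l => ((∑ d ∈ (Finset.Icc 1 B).filter
              (fun d => 1 ∣ d), w l d : ℤ) : ℚ)) Kl]
            refine Finset.sum_eq_zero fun l _ => ?_
            have h8 : (Finset.Icc 1 B).filter (fun d => 1 ∣ d) = Finset.Icc 1 B :=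
              Finset.filter_true_of_mem fun d _ => one_dvd d
            rw [h8, hw l]
            push_cast
            ring
          rw [Finset.sum_eq_zero fun k _ => h7 k, padicNorm.zero]
          positivity
        · have he2 : 2 ≤ e := by omega
          refine part_bound hb he2 hu.2 (hdegE e) (hPe e) ?_
          apply RS_zero
          rw [mul_comm g]
          exact KP_dvd (hV' e he2 he.2 u hu.1 hu.2)
      calc _ ≤ 1 * ((p : ℚ) ^ Nat.log p n) ^ (2 * h + b) :=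
            mul_le_mul a1 a2 (padicNorm.nonneg _) zero_le_one
        _ = _ := one_mul _
  have h9 : (q : ℚ) * (Dl n 1 : ℚ) ^ (2 * h + b) * LQ z n h b B (fun d => g * Pv w Q d) =
      (Dl n 1 : ℚ) ^ (2 * h + b) * ((q : ℚ) * LQ z n h b B (fun d => g * Pv w Q d)) := by ring
  rw [h9, padicNorm.mul, pn_pow]
  have h7 : (padicNorm p (Dl n 1 : ℚ)) ^ (2 * h + b) ≤ (((p : ℚ) ^ Nat.log p n)⁻¹) ^ (2 * h + b) :=
    pow_le_pow_left₀ (padicNorm.nonneg _) hD _
  calc _ ≤ (((p : ℚ) ^ Nat.log p n)⁻¹) ^ (2 * h + b) * ((p : ℚ) ^ Nat.log p n) ^ (2 * h + b) :=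
        mul_le_mul h7 h6 (padicNorm.nonneg _) (by positivity)
    _ = 1 := by rw [← mul_pow, inv_mul_cancel₀ hρ0.ne', one_pow]

end

end Pool.Agent.Y926.TW
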