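import Pool.Agent.Y926.TW.Stm

/-! # TW-NOD, TW-NOE: the nodes and the number of equations -/

open Polynomial Pool.Agent.H337R2 Pool.Agent.W165.OZ Pool.Agent.Y926.LZ

namespace Pool.Agent.Y926.TW

noncomputable section

namespace JNOD

theorem cnt (e L : ℕ) :
    ((Finset.range (e * L)).filter (fun u => Nat.Coprime u e)).card = e.totient * L := by
  induction L with
  | zero => simp
  | succ L ih =>
    have h1 : Finset.range (e * (L + 1)) =
        Finset.range (e * L) ∪ Finset.Ico (e * L) (e * L + e) := by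
      ext u
      simp only [Finset.mem_range, Finset.mem_union, Finset.mem_Ico, mul_add, mul_one]
      omega
    have h2 : Disjoint ((Finset.range (e * L)).filter (fun u => Nat.Coprime u e))
        ((Finset.Ico (e * L) (e * L + e)).filter (fun u => Nat.Coprime u e)) := by
      rw [Finset.disjoint_left]
      intro u hu hu'
      simp only [Finset.mem_filter, Finset.mem_range, Finset.mem_Ico] at hu hu'
      omega
    have h3 : ((Finset.Ico (e * L) (e * L + e)).filter (fun u => Nat.Coprime u e)).card =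
        e.totient := by
      rw [← Nat.filter_coprime_Ico_eq_totient e (e * L)]
      congr 1
      ext u
      simp only [Finset.mem_filter, Nat.coprime_comm]
    rw [h1, Finset.filter_union, Finset.card_union_of_disjoint h2, ih, h3]
    ring

theorem inj {a e a' e' : ℕ} (he : 1 ≤ e) (he' : 1 ≤ e') (h : Nat.Coprime a e)
    (h' : Nat.Coprime a' e') (hq : (a : ℚ) / e = a' / e') : a = a' ∧ e = e' := by
  have he0 : (e : ℚ) ≠ 0 := by exact_mod_cast (by omega : e ≠ 0)
  have he0' : (e' : ℚ) ≠ 0 := by exact_mod_cast (by omega : e' ≠ 0)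
  have hq' : a * e' = a' * e := by
    have h0 : (a : ℚ) * e' = a' * e := (div_eq_div_iff he0 he0').1 hq
    exact_mod_cast h0
  have h1 : e ∣ e' := h.symm.dvd_of_dvd_mul_left ⟨a', by rw [hq']; ring⟩
  have h2 : e' ∣ e := h'.symm.dvd_of_dvd_mul_left ⟨a, by rw [← hq']; ring⟩
  have h3 := Nat.dvd_antisymm h1 h2
  subst h3
  exact ⟨Nat.eq_of_mul_eq_mul_right (by omega) hq', rfl⟩

end JNOD

/-- NOE: the number of equations -/
theorem t_noe : S_NOE := by
  intro S L _
  rw [Finset.card_sigma, Finset.sum_mul]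
  exact Finset.sum_congr rfl fun e _ => JNOD.cnt e L

/-- NOD: the nodes -/
theorem t_nod : S_NOD := by
  classical
  intro S ν L m hS hmL
  set T : Finset (Σ _ : ℕ, ℕ) := S.sigma fun e =>
    (Finset.range (e * (2 * L - m))).filter (fun u => Nat.Coprime u e) with hT
  let f : (Σ _ : ℕ, ℕ) → ℚ := fun p => (p.2 : ℚ) / p.1 - ((L : ℚ) - m) - ν
  have hf : ∀ e a : ℕ, f ⟨e, a⟩ = (a : ℚ) / e - ((L : ℚ) - m) - ν := fun e a => rfl
  have hmem : ∀ e a : ℕ, (⟨e, a⟩ : Σ _ : ℕ, ℕ) ∈ T →
      e ∈ S ∧ a < e * (2 * L - m) ∧ Nat.Coprime a e := by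
    intro e a hp
    simpa only [hT, Finset.mem_sigma, Finset.mem_filter, Finset.mem_range] using hp
  refine ⟨T.image f, ?_, ?_⟩
  · rw [Finset.card_image_of_injOn, hT]
    · exact t_noe S (2 * L - m) hS
    · rintro ⟨e, a⟩ hp ⟨e', a'⟩ hp' h
      obtain ⟨h1, -, h3⟩ := hmem _ _ hp
      obtain ⟨h1', -, h3'⟩ := hmem _ _ hp'
      have h4 : (a : ℚ) / e = a' / e' := by
        rw [hf, hf] at h
        linarith
      obtain ⟨rfl, rfl⟩ := JNOD.inj (by have := hS e h1; omega) (by have := hS e' h1'; omega)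
        h3 h3' h4
      rfl
  · intro x hx
    obtain ⟨⟨e, a⟩, hp, rfl⟩ := Finset.mem_image.1 hx
    obtain ⟨h1, h2, h3⟩ := hmem _ _ hp
    have he := hS e h1
    have he0 : (e : ℚ) ≠ 0 := by exact_mod_cast (by omega : e ≠ 0)
    rw [hf]
    refine ⟨?_, e, h1, (a : ℤ) - e * ((L : ℤ) - m), ?_, ?_, ?_, ?_⟩
    · intro k hk
      have h5 : (a : ℚ) / e = ((k + ((L : ℤ) - m) + ν : ℤ) : ℚ) := by
        push_cast
        linarith
      rw [div_eq_iff he0] at h5
      have h6 : (a : ℤ) = (k + ((L : ℤ) - m) + ν) * e := by exact_mod_cast h5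
      have h7 : e ∣ a := Int.natCast_dvd_natCast.1 ⟨_, by rw [h6, mul_comm]⟩
      have h8 := Nat.Coprime.eq_one_of_dvd h3.symm h7
      omega
    · have h5 : IsCoprime (a : ℤ) (e : ℤ) := Nat.isCoprime_iff_coprime.2 h3
      have h6 := h5.add_mul_left_left (-((L : ℤ) - m))
      have e1 : (a : ℤ) - e * ((L : ℤ) - m) = a + e * (-((L : ℤ) - m)) := by ring
      rw [e1]
      exact h6
    · have ha : 0 < a := by
        rcases Nat.eq_zero_or_pos a with h | h
        · rw [h, Nat.coprime_zero_left] at h3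
          omega
        · exact h
      have ha' : (0 : ℤ) < a := by exact_mod_cast ha
      linarith
    · have h4 : ((e * (2 * L - m) : ℕ) : ℤ) = (e : ℤ) * (2 * L - m) := by
        rw [Nat.cast_mul, Nat.cast_sub (by omega)]
        push_cast
        ring
      have h5 : (a : ℤ) < e * (2 * L - m) := by
        rw [← h4]
        exact_mod_cast h2
      linarith
    · push_cast
      rw [sub_div, mul_div_cancel_left₀ _ he0]

end

end Pool.Agent.Y926.TW
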