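import Pool.Agent.Y926.TW.Stm2
import Pool.Agent.Y926.LZ.Coef
import Mathlib.NumberTheory.SiegelsLemma

/-!
# SIE: application of Siegel's lemma
-/

open Polynomial Pool.Agent.H337R2 Pool.Agent.W165.OZ Pool.Agent.Y926.LZ

namespace Pool.Agent.Y926.TW

noncomputable section

namespace JSIE

section siegel

attribute [local instance] Matrix.seminormedAddCommGroup

/-- Siegel's lemma -/
theorem siegel {α β : Type} [Fintype α] [Fintype β] (A : α → β → ℤ) (Y μ H : ℕ) (hY : 1 ≤ Y)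
    (hA : ∀ a b, |A a b| ≤ (Y : ℤ)) (hμ : 1 ≤ μ) (hc : Fintype.card α + μ ≤ Fintype.card β)
    (hH : (Fintype.card β * Y) ^ Fintype.card α ≤ H ^ μ) :
    ∃ t : β → ℤ, t ≠ 0 ∧ (∀ a, ∑ b, A a b * t b = 0) ∧ ∀ b, |t b| ≤ (H : ℤ) := by
  classical
  have hH1 : 1 ≤ H := by
    rcases Nat.eq_zero_or_pos H with h | h
    · exfalso
      rw [h, zero_pow (by omega)] at hH
      have h1 : 0 < (Fintype.card β * Y) ^ Fintype.card α :=
        Nat.pow_pos (Nat.mul_pos (by omega) (by omega))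
      omega
    · exact h
  rcases Nat.eq_zero_or_pos (Fintype.card α) with h0 | h0
  · have hb : 0 < Fintype.card β := by omega
    obtain ⟨b0⟩ := Fintype.card_pos_iff.1 hb
    have hα : IsEmpty α := Fintype.card_eq_zero_iff.1 h0
    refine ⟨Pi.single b0 1, ?_, fun a => hα.elim a, ?_⟩
    · intro h
      have h1 := congrFun h b0
      rw [Pi.single_eq_same, Pi.zero_apply] at h1
      exact one_ne_zero h1
    · intro b
      have hH1' : (1 : ℤ) ≤ H := by exact_mod_cast hH1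
      by_cases hb : b = b0
      · subst hb
        rw [Pi.single_eq_same, abs_one]
        exact hH1'
      · rw [Pi.single_eq_of_ne hb, abs_zero]
        omega
  · obtain ⟨t, ht0, hAt, hnorm⟩ := Int.Matrix.exists_ne_zero_int_vec_norm_le
      (Matrix.of A : Matrix α β ℤ) (by omega) h0
    refine ⟨t, ht0, ?_, ?_⟩
    · intro a
      have h1 := congrFun hAt a
      exact h1
    · intro b
      have hnA : ‖(Matrix.of A : Matrix α β ℤ)‖ ≤ (Y : ℝ) := by
        rw [Matrix.norm_le_iff (by positivity)]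
        intro i j
        rw [Int.norm_eq_abs]
        have h1 := hA i j
        exact_mod_cast h1
      have hYR : (1 : ℝ) ≤ Y := by exact_mod_cast hY
      have hmax : max 1 ‖(Matrix.of A : Matrix α β ℤ)‖ ≤ (Y : ℝ) := max_le hYR hnA
      have hα : (0 : ℝ) < Fintype.card α := by exact_mod_cast h0
      have hμR : (1 : ℝ) ≤ μ := by exact_mod_cast hμ
      have hcR : (Fintype.card α : ℝ) + μ ≤ Fintype.card β := by exact_mod_cast hc
      have hβ1 : (1 : ℝ) ≤ Fintype.card β := by linarith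
      set X : ℝ := (Fintype.card β : ℝ) * Y with hX
      have hX1 : 1 ≤ X := one_le_mul_of_one_le_of_one_le hβ1 hYR
      have hX0 : 0 ≤ X := by linarith
      have h1 : ‖t‖ ≤ X ^ ((Fintype.card α : ℝ) / (Fintype.card β - Fintype.card α)) := by
        refine hnorm.trans (Real.rpow_le_rpow (by positivity) ?_ ?_)
        · exact mul_le_mul_of_nonneg_left hmax (by positivity)
        · exact div_nonneg hα.le (by linarith)
      have h2 : X ^ ((Fintype.card α : ℝ) / (Fintype.card β - Fintype.card α)) ≤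
          X ^ ((Fintype.card α : ℝ) / μ) := by
        apply Real.rpow_le_rpow_of_exponent_le hX1
        exact div_le_div_of_nonneg_left hα.le (by linarith) (by linarith)
      have h3 : X ^ ((Fintype.card α : ℝ) / μ) ≤ H := by
        rw [div_eq_mul_inv, Real.rpow_mul hX0, Real.rpow_natCast]
        have h4 : X ^ Fintype.card α ≤ (H : ℝ) ^ μ := by
          rw [hX]
          exact_mod_cast hH
        calc (X ^ Fintype.card α) ^ ((μ : ℝ)⁻¹) ≤ ((H : ℝ) ^ μ) ^ ((μ : ℝ)⁻¹) :=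
              Real.rpow_le_rpow (by positivity) h4 (by positivity)
          _ = H := Real.pow_rpow_inv_natCast (by positivity) (by omega)
      have h4 : ‖t b‖ ≤ (H : ℝ) := (norm_le_pi_norm t b).trans (h1.trans (h2.trans h3))
      rw [Int.norm_eq_abs] at h4
      exact_mod_cast h4

end siegel

/-- vanishing of the Taylor coefficients -/
theorem dvd_of_TS {b : ℕ} {x : ℚ} {q : ℚ[X]} (h : ∀ j ≤ b, PowerSeries.coeff j (TS x q) = 0) :
    (X - C x) ^ (b + 1) ∣ q := by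
  rw [Polynomial.X_sub_C_pow_dvd_iff, Polynomial.X_pow_dvd_iff]
  intro j hj
  have h1 := h j (by omega)
  have h2 : TS x q = ((Polynomial.taylor x q : ℚ[X]) : PowerSeries ℚ) := rfl
  rw [h2, Polynomial.coeff_coe, Polynomial.taylor_apply] at h1
  exact h1

/-- the basis is linearly independent -/
theorem Qv_ne {n D : ℕ} {c : ℕ → ℤ} (h : ∃ i < D, c i ≠ 0) : Qv n D c ≠ 0 := by
  classical
  let s := (Finset.range D).filter (fun i => c i ≠ 0)
  have hs : s.Nonempty := by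
    obtain ⟨i, h1, h2⟩ := h
    exact ⟨i, Finset.mem_filter.2 ⟨Finset.mem_range.2 h1, h2⟩⟩
  obtain ⟨i0, hi0⟩ : ∃ i0, i0 = s.max' hs := ⟨_, rfl⟩
  have hm : i0 ∈ Finset.range D ∧ c i0 ≠ 0 := by
    rw [hi0]
    exact Finset.mem_filter.1 (s.max'_mem hs)
  have hcoef : (Qv n D c).coeff i0 = (c i0 : ℚ) * (Gb n i0).coeff i0 := by
    unfold Qv
    rw [Polynomial.finsetSum_coeff, Finset.sum_eq_single i0]
    · rw [Polynomial.coeff_C_mul]
    · intro i hi hne
      rw [Polynomial.coeff_C_mul]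
      by_cases hci : c i = 0
      · rw [hci, Int.cast_zero, zero_mul]
      · have h1 : i ≤ i0 := by
          rw [hi0]
          exact s.le_max' i (Finset.mem_filter.2 ⟨hi, hci⟩)
        have h2 : i < i0 := lt_of_le_of_ne h1 hne
        rw [Polynomial.coeff_eq_zero_of_natDegree_lt (by rw [(Gb_spec n i).2]; exact h2), mul_zero]
    · intro h
      exact absurd hm.1 h
  intro h0
  rw [h0, Polynomial.coeff_zero] at hcoef
  have h1 : (Gb n i0).coeff i0 ≠ 0 := by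
    have h2 := Gb_spec n i0
    have h3 : (Gb n i0).leadingCoeff ≠ 0 := leadingCoeff_ne_zero.2 h2.1
    rwa [Polynomial.leadingCoeff, h2.2] at h3
  have h4 : (c i0 : ℚ) ≠ 0 := by exact_mod_cast hm.2
  exact (mul_ne_zero h4 h1) hcoef.symm

/-- the integral weight -/
def Zc (B : ℕ) (w : ℕ → ℤ) (e : ℕ) : ℤ := ∑ d ∈ (Finset.Icc 1 B).filter (fun d => e ∣ d), w d

theorem Cd_eq (B : ℕ) (w : ℕ → ℤ) (e : ℕ) : Cd B (fun d => (w d : ℚ)) e = (Zc B w e : ℚ) := by
  unfold Cd Zc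
  push_cast
  rfl

theorem Zc_le {B W : ℕ} {w : ℕ → ℤ} (hw : ∑ d ∈ Finset.Icc 1 B, |w d| ≤ (W : ℤ)) (e : ℕ) :
    |Zc B w e| ≤ (W : ℤ) :=
  (Finset.abs_sum_le_sum_abs _ _).trans ((Finset.sum_le_sum_of_subset_of_nonneg
    (Finset.filter_subset _ _) (fun _ _ _ => abs_nonneg _)).trans hw)

/-- the size of the entries -/
theorem ent_le {b B ν r D e u i j : ℕ} {M : ℤ} (hr : 2 ≤ r) (he : 1 ≤ e) (heB : e ≤ B)
    (hu : u < e * (r * (2 * ν + 1) + ν)) (hi : i ≤ D) (hj : j ≤ b)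
    (hM : (e : ℚ) ^ (4 * D) * (Dl (2 * ν + 1) 1 : ℚ) ^ b *
      PowerSeries.coeff j (TS ((u : ℚ) / e - ν) ((Gb (2 * ν + 1) i).comp (yp (2 * ν + 1)))) = M) :
    |M| ≤ ((B ^ (4 * D) * Dl (2 * ν + 1) 1 ^ b * (54 * r ^ 2) ^ (D + (2 * ν + 1)) : ℕ) : ℤ) := by
  obtain ⟨n, hn⟩ : ∃ n, n = 2 * ν + 1 := ⟨_, rfl⟩
  rw [← hn] at hM hu ⊢
  have hnu : (n : ℚ) = 2 * ν + 1 := by rw [hn]; push_cast; ring
  have hν0 : (0 : ℚ) ≤ ν := by positivity
  have he0 : (0 : ℚ) < e := by exact_mod_cast he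
  have hn0 : (0 : ℚ) < n := by rw [hnu]; positivity
  have hr2 : (2 : ℚ) ≤ r := by exact_mod_cast hr
  have hx0 : 0 ≤ (u : ℚ) / e := by positivity
  have hx1 : (u : ℚ) / e ≤ r * n + ν := by
    rw [div_le_iff₀ he0]
    have h1 : u ≤ (r * n + ν) * e := by rw [mul_comm]; exact hu.le
    exact_mod_cast h1
  have hg := Gb_le2 (n := n) (T := b) (c := (u : ℚ) / e - ν) (c' := (r : ℚ) * n) (B := 1) (m := i)
    (by omega) le_rfl (by nlinarith) (by linarith) (by linarith)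
  have hq : (r : ℚ) * n / n = r := by field_simp
  rw [hq] at hg
  have hbase : (1 : ℚ) ≤ 54 * (r : ℚ) ^ 2 := by nlinarith
  have hg2 : Nm b 1 (TS ((u : ℚ) / e - ν) ((Gb n i).comp (yp n))) ≤
      (54 * (r : ℚ) ^ 2) ^ (D + n) := by
    refine hg.trans ?_
    have h1 : (54 * ((1 : ℕ) : ℚ) ^ 4 * (r : ℚ) ^ 2) = 54 * (r : ℚ) ^ 2 := by push_cast; ring
    rw [h1]
    apply pow_le_pow_right₀ hbase
    have h2 := Nat.mul_div_le i n
    calc n * (i / n + 1) = n * (i / n) + n := by ring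
      _ ≤ D + n := by omega
  have hc := coeff_le_Nm (T := b) (ρ := 1) zero_le_one
    (TS ((u : ℚ) / e - ν) ((Gb n i).comp (yp n))) hj
  rw [one_pow, mul_one] at hc
  have hc2 := hc.trans hg2
  have heB' : (e : ℚ) ≤ B := by exact_mod_cast heB
  have h1 : |(M : ℚ)| ≤ (B : ℚ) ^ (4 * D) * (Dl n 1 : ℚ) ^ b * (54 * (r : ℚ) ^ 2) ^ (D + n) := by
    rw [← hM, abs_mul, abs_of_nonneg (show (0 : ℚ) ≤ (e : ℚ) ^ (4 * D) * (Dl n 1 : ℚ) ^ b by
      positivity)]
    apply mul_le_mul _ hc2 (abs_nonneg _) (by positivity)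
    exact mul_le_mul_of_nonneg_right (pow_le_pow_left₀ he0.le heB' _) (by positivity)
  exact_mod_cast h1

theorem coeff_sum {ι : Type} (s : Finset ι) (a : ι → ℚ) (Q : ι → ℚ[X]) (x : ℚ) (n j : ℕ) :
    PowerSeries.coeff j (TS x ((∑ l ∈ s, C (a l) * Q l).comp (yp n))) =
      ∑ l ∈ s, a l * PowerSeries.coeff j (TS x ((Q l).comp (yp n))) := by
  rw [Polynomial.sum_comp, map_sum, map_sum]
  refine Finset.sum_congr rfl fun l _ => ?_
  rw [Polynomial.mul_comp, Polynomial.C_comp, map_mul, TS_C, PowerSeries.coeff_C_mul]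

end JSIE

open JSIE in
/-- SIE: Siegel's lemma -/
theorem t_sie (hN : S_NOE) (hC : S_COE) : S_SIE := by
  classical
  intro b B m ν r D W μ H w hB hμ hW hr hν hw hE hH
  obtain ⟨n, hn⟩ : ∃ n, n = 2 * ν + 1 := ⟨_, rfl⟩
  obtain ⟨L, hL⟩ : ∃ L, L = r * n + ν := ⟨_, rfl⟩
  rw [← hn] at hE hH ⊢
  rw [← hL] at hE hH ⊢
  obtain ⟨S, hS⟩ : ∃ S, S = su B (fun l d => (w l d : ℚ)) := ⟨_, rfl⟩
  have hS1 : ∀ e, e ∈ S ↔ (2 ≤ e ∧ e ≤ B) ∧ ∃ l, Cd B (fun d => (w l d : ℚ)) e ≠ 0 := by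
    intro e
    rw [hS]
    unfold su
    rw [Finset.mem_filter, Finset.mem_Icc]
  obtain ⟨T, hT⟩ : ∃ T, T = S.sigma fun e =>
    (Finset.range (e * L)).filter (fun u => Nat.Coprime u e) := ⟨_, rfl⟩
  have hTcard : T.card = NN B (fun l d => (w l d : ℚ)) * L := by
    rw [hT, hN S L (fun e he => ((hS1 e).1 he).1.1), hS]
    rfl
  have hTm : ∀ e u : ℕ, (⟨e, u⟩ : Σ _ : ℕ, ℕ) ∈ T ↔ e ∈ S ∧ u < e * L ∧ Nat.Coprime u e := by
    intro e u
    rw [hT, Finset.mem_sigma, Finset.mem_filter, Finset.mem_range]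
  have hent : ∀ (p : T) (j : Fin (b + 1)) (i : Fin D), ∃ M : ℤ,
      (p.1.1 : ℚ) ^ (4 * D) * (Dl n 1 : ℚ) ^ b *
      PowerSeries.coeff (j : ℕ) (TS ((p.1.2 : ℚ) / p.1.1 - ν) ((Gb n i).comp (yp n))) = M := by
    rintro ⟨⟨e, u⟩, hp⟩ j i
    obtain ⟨h1, h2, h3⟩ := (hTm e u).1 hp
    have he := ((hS1 e).1 h1).1.1
    have he0 : (e : ℚ) ≠ 0 := by exact_mod_cast (by omega : e ≠ 0)
    refine hC n b e D i j _ (by omega) (by omega) ⟨(u : ℤ) - ν * e, ?_⟩ i.2.le (by omega)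
    push_cast
    rw [sub_div, mul_div_cancel_right₀ _ he0]
  choose M hM using hent
  let A : T × Fin (b + 1) → Fin m × Fin D → ℤ := fun a q =>
    Zc B (w q.1) a.1.1.1 * M a.1 a.2 q.2
  have hDl : 0 < Dl n 1 := Pool.Agent.W165.OZ.PRaux.Dl_pos n 1
  have hY : 1 ≤ W * B ^ (4 * D) * Dl n 1 ^ b * (54 * r ^ 2) ^ (D + n) :=
    Nat.mul_pos (Nat.mul_pos (Nat.mul_pos (by omega) (Nat.pow_pos (by omega)))
      (Nat.pow_pos hDl)) (Nat.pow_pos (Nat.mul_pos (by norm_num) (Nat.pow_pos (by omega))))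
  have hcα : Fintype.card (T × Fin (b + 1)) = (b + 1) * (NN B (fun l d => (w l d : ℚ)) * L) := by
    rw [Fintype.card_prod, Fintype.card_coe, Fintype.card_fin, hTcard, mul_comm]
  have hcβ : Fintype.card (Fin m × Fin D) = m * D := by
    rw [Fintype.card_prod, Fintype.card_fin, Fintype.card_fin]
  obtain ⟨t, ht0, hAt, htH⟩ := siegel A (W * B ^ (4 * D) * Dl n 1 ^ b * (54 * r ^ 2) ^ (D + n)) μ H
    hY (by
      rintro ⟨⟨⟨e, u⟩, hp⟩, j⟩ ⟨l, i⟩
      obtain ⟨h1, h2, h3⟩ := (hTm e u).1 hp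
      have he := ((hS1 e).1 h1).1
      have h4 : |M ⟨⟨e, u⟩, hp⟩ j i| ≤
          ((B ^ (4 * D) * Dl n 1 ^ b * (54 * r ^ 2) ^ (D + n) : ℕ) : ℤ) := by
        have h5 := hM ⟨⟨e, u⟩, hp⟩ j i
        simp only at h5
        rw [hn] at h5
        have h6 := ent_le (B := B) hr (by omega) he.2 (by rw [← hn, ← hL]; exact h2) i.2.le
          (by omega) h5
        rw [← hn] at h6
        exact h6
      have h5 := Zc_le (hw l) e
      show |Zc B (w l) e * M ⟨⟨e, u⟩, hp⟩ j i| ≤ _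
      rw [abs_mul]
      calc |Zc B (w l) e| * |M ⟨⟨e, u⟩, hp⟩ j i|
          ≤ (W : ℤ) * ((B ^ (4 * D) * Dl n 1 ^ b * (54 * r ^ 2) ^ (D + n) : ℕ) : ℤ) :=
            mul_le_mul h5 h4 (abs_nonneg _) (by positivity)
        _ = _ := by push_cast; ring) hμ (by rw [hcα, hcβ]; exact hE) (by
      rw [hcα, hcβ]
      exact hH)
  obtain ⟨c, hc⟩ : ∃ c : Fin m → ℕ → ℤ, ∀ l i, c l i = if h : i < D then t (l, ⟨i, h⟩) else 0 :=
    ⟨fun l i => if h : i < D then t (l, ⟨i, h⟩) else 0, fun l i => rfl⟩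
  refine ⟨c, ?_, ?_, ?_⟩
  · obtain ⟨⟨l, i⟩, hli⟩ : ∃ q, t q ≠ 0 := by
      by_contra hcon
      push Not at hcon
      exact ht0 (funext hcon)
    refine ⟨l, Qv_ne ⟨i, i.2, ?_⟩⟩
    rw [hc, dif_pos i.2]
    exact hli
  · intro l i
    rw [hc]
    split_ifs with h
    · exact htH _
    · rw [abs_zero]
      positivity
  · intro e he2 heB u hu hcop
    rw [← hn]
    by_cases heS : e ∈ S
    · apply dvd_of_TS
      intro j hj
      have hmem : (⟨e, u⟩ : Σ _ : ℕ, ℕ) ∈ T := (hTm e u).2 ⟨heS, hu, hcop⟩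
      have key := hAt (⟨⟨e, u⟩, hmem⟩, ⟨j, by omega⟩)
      have hkey : (∑ q : Fin m × Fin D, ((Zc B (w q.1) e : ℤ) : ℚ) *
          ((M ⟨⟨e, u⟩, hmem⟩ ⟨j, by omega⟩ q.2 : ℤ) : ℚ) * ((t q : ℤ) : ℚ)) = 0 := by
        exact_mod_cast key
      rw [Fintype.sum_prod_type] at hkey
      have he0 : (e : ℚ) ≠ 0 := by exact_mod_cast (by omega : e ≠ 0)
      have hDl0 : (Dl n 1 : ℚ) ≠ 0 := by exact_mod_cast hDl.ne'
      have hK : (e : ℚ) ^ (4 * D) * (Dl n 1 : ℚ) ^ b ≠ 0 :=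
        mul_ne_zero (pow_ne_zero _ he0) (pow_ne_zero _ hDl0)
      apply mul_left_cancel₀ hK
      rw [mul_zero, ← hkey]
      unfold fe
      rw [coeff_sum, Finset.mul_sum]
      refine Finset.sum_congr rfl fun l _ => ?_
      rw [Cd_eq]
      unfold Qv
      rw [coeff_sum, Finset.sum_range, Finset.mul_sum, Finset.mul_sum]
      refine Finset.sum_congr rfl fun i _ => ?_
      rw [← hM ⟨⟨e, u⟩, hmem⟩ ⟨j, by omega⟩ i, hc, dif_pos i.2]
      simp only [Fin.eta]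
      ring
    · have h0 : fe B w (fun l => Qv n D (c l)) e = 0 := by
        unfold fe
        refine Finset.sum_eq_zero fun l _ => ?_
        have h1 : Cd B (fun d => (w l d : ℚ)) e = 0 := by
          by_contra hne
          exact heS ((hS1 e).2 ⟨⟨he2, heB⟩, l, hne⟩)
        rw [h1, map_zero, zero_mul]
      rw [h0, Polynomial.zero_comp]
      exact dvd_zero _

end

end Pool.Agent.Y926.TW
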