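import Pool.Agent.Y926.TW.Stm

/-!
# SLP: a subspace of minimal slope
-/

open Polynomial Pool.Agent.H337R2 Pool.Agent.W165.OZ Pool.Agent.Y926.LZ

namespace Pool.Agent.Y926.TW

noncomputable section

namespace SLP

variable {B : ℕ}

/-- the functional `c ↦ ∑_{e ∣ d} c_d` -/
def Lf (B e : ℕ) : (Fin B → ℚ) →ₗ[ℚ] ℚ where
  toFun c := ∑ d : Fin B, if e ∣ d.1 + 1 then c d else 0
  map_add' c c' := by
    rw [← Finset.sum_add_distrib]
    refine Finset.sum_congr rfl fun d _ => ?_
    split_ifs <;> simp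
  map_smul' r c := by
    simp only [RingHom.id_apply, smul_eq_mul, Finset.mul_sum]
    refine Finset.sum_congr rfl fun d _ => ?_
    split_ifs <;> simp

theorem sum_Icc (B : ℕ) {M : Type*} [AddCommMonoid M] (f : ℕ → M) :
    ∑ d ∈ Finset.Icc 1 B, f d = ∑ d : Fin B, f (d.1 + 1) := by
  rw [Fin.sum_univ_eq_sum_range (fun i => f (i + 1)) B]
  rw [Finset.range_eq_Ico, Finset.sum_Ico_add' f 0 B 1]
  rfl

theorem Cd_eq (B e : ℕ) (c : ℕ → ℚ) : Cd B c e = Lf B e (fun d : Fin B => c (d.1 + 1)) := by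
  unfold Cd
  rw [Finset.sum_filter, sum_Icc]
  rfl

open Classical in
/-- the support of a subspace -/
def sup (B : ℕ) (V : Submodule ℚ (Fin B → ℚ)) : Finset ℕ :=
  (Finset.Icc 2 B).filter fun e => ∃ c ∈ V, Lf B e c ≠ 0

/-- the weight of a subspace -/
def N (B : ℕ) (V : Submodule ℚ (Fin B → ℚ)) : ℕ := ∑ e ∈ sup B V, e.totient

theorem NN_eq (B : ℕ) {m : ℕ} (c : Fin m → ℕ → ℚ) :
    NN B c = N B (Submodule.span ℚ (Set.range fun (l : Fin m) (d : Fin B) => c l (d.1 + 1))) := by
  unfold NN N su sup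
  refine Finset.sum_congr ?_ fun _ _ => rfl
  ext e
  simp only [Finset.mem_filter, Cd_eq]
  refine and_congr_right fun _ => ?_
  constructor
  · rintro ⟨l, hl⟩
    exact ⟨_, Submodule.subset_span ⟨l, rfl⟩, hl⟩
  · rintro ⟨x, hx, hx2⟩
    by_contra hcon
    push Not at hcon
    apply hx2
    have : Submodule.span ℚ (Set.range fun (l : Fin m) (d : Fin B) => c l (d.1 + 1)) ≤
        LinearMap.ker (Lf B e) := by
      rw [Submodule.span_le]
      rintro _ ⟨l, rfl⟩
      exact hcon l
    exact this hx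

theorem N_le (B : ℕ) (V : Submodule ℚ (Fin B → ℚ)) : N B V ≤ B ^ 2 := by
  classical
  unfold N sup
  calc _ ≤ ∑ e ∈ Finset.Icc 2 B, e.totient :=
        Finset.sum_le_sum_of_subset (Finset.filter_subset _ _)
    _ ≤ ∑ e ∈ Finset.Icc 2 B, B := by
        refine Finset.sum_le_sum fun e he => ?_
        exact (Nat.totient_le e).trans (Finset.mem_Icc.1 he).2
    _ = (B + 1 - 2) * B := by rw [Finset.sum_const, Nat.card_Icc, smul_eq_mul]
    _ ≤ B * B := Nat.mul_le_mul_right _ (by omega)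
    _ = B ^ 2 := (sq B).symm

/-- the functionals of the exponents -/
def Ev (B : ℕ) (J : Finset ℕ) : (Fin B → ℚ) →ₗ[ℚ] (J → ℚ) where
  toFun c j := ∑ d : Fin B, c d * ((d.1 + 1 : ℕ) : ℚ) ^ j.1
  map_add' c c' := by
    funext j
    simp only [Pi.add_apply, add_mul, Finset.sum_add_distrib]
  map_smul' r c := by
    funext j
    simp only [Pi.smul_apply, smul_eq_mul, mul_assoc, Finset.mul_sum, RingHom.id_apply]

theorem ker_dim (B : ℕ) (J : Finset ℕ) : B - J.card ≤ Module.finrank ℚ (LinearMap.ker (Ev B J)) := by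
  have h1 := LinearMap.finrank_range_add_finrank_ker (Ev B J)
  have h2 : Module.finrank ℚ (LinearMap.range (Ev B J)) ≤ J.card := by
    refine (Submodule.finrank_le _).trans ?_
    rw [Module.finrank_fintype_fun_eq_card, Fintype.card_coe]
  rw [Module.finrank_fintype_fun_eq_card, Fintype.card_fin] at h1
  omega

/-- a subspace of minimal slope -/
theorem exists_min (B : ℕ) (W : Submodule ℚ (Fin B → ℚ)) (hW : W ≠ ⊥) :
    ∃ V0 : Submodule ℚ (Fin B → ℚ), V0 ≤ W ∧ V0 ≠ ⊥ ∧ ∀ V : Submodule ℚ (Fin B → ℚ), V ≤ W →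
      V ≠ ⊥ → N B V0 * Module.finrank ℚ V ≤ N B V * Module.finrank ℚ V0 := by
  set f : Submodule ℚ (Fin B → ℚ) → ℕ := fun V => N B V * (B.factorial / Module.finrank ℚ V) with hf
  obtain ⟨V0, hV0, hmin⟩ := WellFounded.has_min (measure f).wf
    {V : Submodule ℚ (Fin B → ℚ) | V ≤ W ∧ V ≠ ⊥} ⟨W, le_rfl, hW⟩
  refine ⟨V0, hV0.1, hV0.2, fun V hV hV2 => ?_⟩
  have h1 : f V0 ≤ f V := by
    have := hmin V ⟨hV, hV2⟩
    exact not_lt.1 this
  have hd : ∀ V : Submodule ℚ (Fin B → ℚ), V ≠ ⊥ →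
      0 < Module.finrank ℚ V ∧ f V * Module.finrank ℚ V = N B V * B.factorial := by
    intro V hV
    have h2 : 0 < Module.finrank ℚ V := by
      rw [Module.finrank_pos_iff]
      exact (Submodule.nontrivial_iff_ne_bot).2 hV
    have h3 : Module.finrank ℚ V ≤ B := by
      refine (Submodule.finrank_le _).trans ?_
      rw [Module.finrank_fintype_fun_eq_card, Fintype.card_fin]
    refine ⟨h2, ?_⟩
    rw [hf]
    simp only
    rw [mul_assoc, Nat.div_mul_cancel (Nat.dvd_factorial h2 h3)]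
  obtain ⟨p1, e1⟩ := hd V hV2
  obtain ⟨p0, e0⟩ := hd V0 hV0.2
  have h2 : (N B V0 * Module.finrank ℚ V) * B.factorial ≤
      (N B V * Module.finrank ℚ V0) * B.factorial := by
    calc (N B V0 * Module.finrank ℚ V) * B.factorial
        = (N B V0 * B.factorial) * Module.finrank ℚ V := by ring
      _ = f V0 * Module.finrank ℚ V0 * Module.finrank ℚ V := by rw [e0]
      _ ≤ f V * Module.finrank ℚ V0 * Module.finrank ℚ V :=
          Nat.mul_le_mul_right _ (Nat.mul_le_mul_right _ h1)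
      _ = (f V * Module.finrank ℚ V) * Module.finrank ℚ V0 := by ring
      _ = (N B V * Module.finrank ℚ V0) * B.factorial := by rw [e1]; ring
  exact Nat.le_of_mul_le_mul_right h2 (Nat.factorial_pos B)

/-- clearing denominators -/
theorem clear (B m : ℕ) (x : Fin m → Fin B → ℚ) :
    ∃ (D : ℚ) (w : Fin m → ℕ → ℤ), D ≠ 0 ∧ ∀ l (d : Fin B), (w l (d.1 + 1) : ℚ) = D * x l d := by
  set D : ℕ := ∏ q : Fin m × Fin B, (x q.1 q.2).den with hD
  have hD0 : D ≠ 0 := Finset.prod_ne_zero_iff.2 fun q _ => (x q.1 q.2).den_nz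
  have h1 : ∀ l d, ∃ z : ℤ, (z : ℚ) = (D : ℚ) * x l d := by
    intro l d
    obtain ⟨k, hk⟩ : (x l d).den ∣ D := Finset.dvd_prod_of_mem
      (fun q : Fin m × Fin B => (x q.1 q.2).den) (Finset.mem_univ (l, d))
    refine ⟨k * (x l d).num, ?_⟩
    rw [hk]
    push_cast
    have h2 := Rat.den_mul_eq_num (x l d)
    rw [← h2]
    ring
  choose z hz using h1
  refine ⟨D, fun l d => if h : d - 1 < B then z l ⟨d - 1, h⟩ else 0, by exact_mod_cast hD0,
    fun l d => ?_⟩
  have h2 : d.1 + 1 - 1 < B := by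
    rw [Nat.add_sub_cancel]
    exact d.2
  simp only [dif_pos h2]
  rw [hz]
  congr 2

end SLP

open SLP in
theorem t_slp : S_SLP := by
  intro B J hJ
  set W := LinearMap.ker (Ev B J) with hWd
  have hWdim : B - J.card ≤ Module.finrank ℚ W := ker_dim B J
  have hW : W ≠ ⊥ := by
    intro h
    rw [h, finrank_bot] at hWdim
    omega
  obtain ⟨V0, hV0, hV0b, hmin⟩ := exists_min B W hW
  set m := Module.finrank ℚ V0 with hm
  have hm1 : 1 ≤ m := by
    have : 0 < m := by
      rw [hm, Module.finrank_pos_iff]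
      exact (Submodule.nontrivial_iff_ne_bot).2 hV0b
    exact this
  have hmB : m ≤ B := by
    refine (Submodule.finrank_le _).trans ?_
    rw [Module.finrank_fintype_fun_eq_card, Fintype.card_fin]
  set b := Module.finBasis ℚ V0 with hb
  obtain ⟨D, w, hD, hw⟩ := clear B m (fun l d => (b l : Fin B → ℚ) d)
  set x : Fin m → Fin B → ℚ := fun l d => (w l (d.1 + 1) : ℚ) with hx
  have hxb : ∀ l, x l = D • (b l : Fin B → ℚ) := by
    intro l
    funext d
    rw [Pi.smul_apply, smul_eq_mul]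
    exact hw l d
  have hbli : LinearIndependent ℚ (fun l => (b l : Fin B → ℚ)) :=
    b.linearIndependent.map' V0.subtype (Submodule.ker_subtype V0)
  have hxli : LinearIndependent ℚ x := by
    have h1 := hbli.units_smul (fun _ => Units.mk0 D hD)
    have h2 : ((fun _ : Fin m => Units.mk0 D hD) • fun l => (b l : Fin B → ℚ)) = x := by
      funext l
      rw [hxb l]
      rfl
    rw [h2] at h1
    exact h1
  have hxV : ∀ l, x l ∈ V0 := by
    intro l
    rw [hxb]
    exact V0.smul_mem _ (b l).2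
  have hspan : Submodule.span ℚ (Set.range x) = V0 := by
    refine Submodule.eq_of_le_of_finrank_eq ?_ ?_
    · rw [Submodule.span_le]
      rintro _ ⟨l, rfl⟩
      exact hxV l
    · rw [finrank_span_eq_card hxli, Fintype.card_fin]
  have hNw : NN B (fun l d => (w l d : ℚ)) = N B V0 := by
    rw [NN_eq]
    congr 1
  refine ⟨m, w, hm1, hmB, hxli, ?_, ?_, ?_⟩
  · intro l j hj
    have h1 := hV0 (hxV l)
    rw [hWd, LinearMap.mem_ker] at h1
    have h2 := congrFun h1 ⟨j, hj⟩
    have h3 : ((∑ d ∈ Finset.Icc 1 B, w l d * (d : ℤ) ^ j : ℤ) : ℚ) = 0 := by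
      push_cast
      rw [sum_Icc B (fun d => (w l d : ℚ) * (d : ℚ) ^ j)]
      exact h2
    exact_mod_cast h3
  · rw [hNw]
    have h1 := hmin W le_rfl hW
    calc N B V0 * (B - J.card) ≤ N B V0 * Module.finrank ℚ W := Nat.mul_le_mul_left _ hWdim
      _ ≤ N B W * m := h1
      _ ≤ B ^ 2 * m := Nat.mul_le_mul_right _ (N_le B W)
      _ = m * B ^ 2 := mul_comm _ _
  · intro m1 a ha
    rw [hNw]
    rcases Nat.eq_zero_or_pos m1 with h0 | h0
    · subst h0
      simp
    set y : Fin m1 → Fin B → ℚ := fun i d => ∑ l, a i l * (w l (d.1 + 1) : ℚ) with hy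
    have hyx : ∀ i, y i = Fintype.linearCombination ℚ x (a i) := by
      intro i
      funext d
      rw [Fintype.linearCombination_apply, Finset.sum_apply]
      rfl
    have hyli : LinearIndependent ℚ y := by
      have h1 := ha.map' (Fintype.linearCombination ℚ x)
        (LinearMap.ker_eq_bot.2 hxli.fintypeLinearCombination_injective)
      have h2 : (⇑(Fintype.linearCombination ℚ x) ∘ a) = y := by
        funext i
        rw [hyx i]
        rfl
      rw [h2] at h1
      exact h1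
    set V1 := Submodule.span ℚ (Set.range y) with hV1
    have hV1le : V1 ≤ V0 := by
      rw [hV1, Submodule.span_le]
      rintro _ ⟨i, rfl⟩
      rw [hyx i, Fintype.linearCombination_apply]
      exact V0.sum_mem fun l _ => V0.smul_mem _ (hxV l)
    have hV1d : Module.finrank ℚ V1 = m1 := by
      rw [hV1, finrank_span_eq_card hyli, Fintype.card_fin]
    have hV1b : V1 ≠ ⊥ := by
      intro h
      rw [h, finrank_bot] at hV1d
      omega
    have h1 := hmin V1 (hV1le.trans hV0) hV1b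
    have h2 : NN B (fun (i : Fin m1) d => ∑ l, a i l * (w l d : ℚ)) = N B V1 := by
      rw [NN_eq]
    rw [h2]
    rw [hV1d] at h1
    calc m1 * N B V0 = N B V0 * m1 := mul_comm _ _
      _ ≤ N B V1 * m := h1
      _ = m * N B V1 := mul_comm _ _

end

end Pool.Agent.Y926.TW
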