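import Pool.Agent.Y926.TW.Stm

/-!
# `SYM`: symmetrisation of the functional
-/

set_option autoImplicit false

open Polynomial Pool.Agent.H337R2 Pool.Agent.W165.OZ Pool.Agent.Y926.LZ

namespace Pool.Agent.Y926.TW

noncomputable section

namespace SYM

/-- the reflection `t -> 1 - n - t` -/
def io (n : ℕ) : ℚ[X] := -X - C ((n : ℚ) - 1)

/-- the odd linear polynomial -/
def sl (n : ℕ) : ℚ[X] := C 2 * X + C ((n : ℚ) - 1)

/-- the germs before the symmetrisation -/
def Hk (z : ℕ → ℚ) (n h b B : ℕ) (P : ℕ → ℚ[X]) (k : ℕ) : PowerSeries ℚ :=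
  ∑ d ∈ Finset.Icc 1 B, TS (-(k : ℚ)) ((P d).comp (yp n)) * bt z h b d k

/-- the functional on polynomials -/
def Ph (z : ℕ → ℚ) (n h b B : ℕ) (P : ℕ → ℚ[X]) (F : ℚ[X]) : ℚ :=
  ∑ k ∈ Finset.range n, PowerSeries.coeff (2 * h - 1)
    (TS (-(k : ℚ)) F * VV ((sP n).erase k) (mP h) (-(k : ℚ)) * Hk z n h b B P k)

theorem coeff_bt (z : ℕ → ℚ) (h b d k : ℕ) (F : PowerSeries ℚ) :
    PowerSeries.coeff (2 * h - 1) (F * bt z h b d k) = ∑ i ∈ Finset.Icc 1 (2 * h),
      PowerSeries.coeff (2 * h - i) F *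
        (Cb b i * (d : ℚ) ^ (i + b) * (z (i + b) - hs (i + b) (d * k))) := by
  unfold bt
  rw [Finset.mul_sum, map_sum]
  apply Finset.sum_congr rfl
  intro i hi
  rw [Finset.mem_Icc] at hi
  have e : 2 * h - 1 - (i - 1) = 2 * h - i := by omega
  rw [mul_left_comm, PowerSeries.coeff_C_mul, PowerSeries.coeff_mul_X_pow', if_pos (by omega), e,
    mul_comm]

theorem LQ_eq (z : ℕ → ℚ) (n h b B : ℕ) (P : ℕ → ℚ[X]) (g : ℚ[X]) :
    LQ z n h b B (fun d => g * P d) =
      (n.factorial : ℚ) ^ (2 * h) * Ph z n h b B P (sl n * g.comp (yp n)) := by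
  have h1 : ∀ d, (∑ i ∈ Finset.Icc 1 (2 * h), Cb b i * rhoP n h (KP n h (g * P d)) i *
      (d : ℚ) ^ (i + b) * z (i + b) - bet n h b d (KP n h (g * P d))) =
      ∑ k ∈ Finset.range n, ∑ i ∈ Finset.Icc 1 (2 * h),
        pa (sP n) (mP h) (KP n h (g * P d)) k i *
          (Cb b i * (d : ℚ) ^ (i + b) * (z (i + b) - hs (i + b) (d * k))) := by
    intro d
    unfold rhoP bet
    rw [Finset.sum_comm (s := Finset.range n) (t := Finset.Icc 1 (2 * h)),
      Finset.sum_comm (s := sP n) (t := Finset.Icc 1 (2 * h)), ← Finset.sum_sub_distrib]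
    apply Finset.sum_congr rfl
    intro i _
    rw [Finset.mul_sum, Finset.sum_mul, Finset.sum_mul, ← Finset.sum_sub_distrib]
    apply Finset.sum_congr rfl
    intro k _
    ring
  have h2 : ∀ d, ∀ k, ∀ i ∈ Finset.Icc 1 (2 * h),
      pa (sP n) (mP h) (KP n h (g * P d)) k i = (n.factorial : ℚ) ^ (2 * h) *
        PowerSeries.coeff (2 * h - i) (TS (-(k : ℚ)) (sl n * g.comp (yp n)) *
          VV ((sP n).erase k) (mP h) (-(k : ℚ)) * TS (-(k : ℚ)) ((P d).comp (yp n))) := by
    intro d k i hi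
    rw [Finset.mem_Icc] at hi
    unfold pa
    rw [if_pos hi.2]
    unfold pfc KP num sl
    rw [map_mul (TS (-(k : ℚ))), TS_C, Polynomial.mul_comp, mul_assoc, PowerSeries.coeff_C_mul]
    congr 2
    rw [← mul_assoc (C 2 * X + C ((n : ℚ) - 1)), map_mul (TS (-(k : ℚ)))]
    ring
  unfold LQ
  rw [Finset.sum_congr rfl (fun d _ => h1 d), Finset.sum_comm]
  unfold Ph
  rw [Finset.mul_sum]
  apply Finset.sum_congr rfl
  intro k _
  unfold Hk
  rw [Finset.mul_sum, map_sum, Finset.mul_sum]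
  apply Finset.sum_congr rfl
  intro d _
  rw [← mul_assoc, coeff_bt, Finset.mul_sum]
  apply Finset.sum_congr rfl
  intro i hi
  rw [h2 d k i hi]
  ring

theorem Ph_add (z : ℕ → ℚ) (n h b B : ℕ) (P : ℕ → ℚ[X]) (F F' : ℚ[X]) :
    Ph z n h b B P (F + F') = Ph z n h b B P F + Ph z n h b B P F' := by
  unfold Ph
  rw [← Finset.sum_add_distrib]
  apply Finset.sum_congr rfl
  intro k _
  rw [map_add, add_mul, add_mul, map_add]

theorem Ph_C (z : ℕ → ℚ) (n h b B : ℕ) (P : ℕ → ℚ[X]) (c : ℚ) (F : ℚ[X]) :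
    Ph z n h b B P (C c * F) = c * Ph z n h b B P F := by
  unfold Ph
  rw [Finset.mul_sum]
  apply Finset.sum_congr rfl
  intro k _
  rw [map_mul (TS (-(k : ℚ))), TS_C, mul_assoc, mul_assoc, PowerSeries.coeff_C_mul, mul_assoc]

theorem NB_deg (n m : ℕ) : (NB n 1 0 m).natDegree = m := by
  unfold NB
  rw [Polynomial.natDegree_C_mul, YB_natDegree]
  have : (m.factorial : ℚ) ≠ 0 := by exact_mod_cast m.factorial_ne_zero
  positivity

theorem NB_ne (n m : ℕ) : NB n 1 0 m ≠ 0 := by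
  unfold NB
  apply mul_ne_zero
  · rw [Ne, Polynomial.C_eq_zero]
    have : (m.factorial : ℚ) ≠ 0 := by exact_mod_cast m.factorial_ne_zero
    positivity
  · exact (YB_monic n 0 m).ne_zero

theorem Gb_deg {n : ℕ} (m : ℕ) : (Gb n m).natDegree = m := by
  unfold Gb
  rw [Polynomial.natDegree_mul (pow_ne_zero _ (NB_ne _ _)) (NB_ne _ _),
    Polynomial.natDegree_pow, NB_deg, NB_deg, mul_comm]
  exact Nat.div_add_mod m n

theorem Gb_ne (n m : ℕ) : Gb n m ≠ 0 := by
  unfold Gb
  exact mul_ne_zero (pow_ne_zero _ (NB_ne _ _)) (NB_ne _ _)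

/-- the functional vanishes on all odd polynomials of bounded degree -/
theorem Ph_span {z : ℕ → ℚ} {n h b B G : ℕ} {P : ℕ → ℚ[X]}
    (hL : ∀ i ≤ G, LQ z n h b B (fun d => Gb n i * P d) = 0) (m : ℕ) :
    m ≤ G + 1 → ∀ g : ℚ[X], g.degree < m → Ph z n h b B P (sl n * g.comp (yp n)) = 0 := by
  induction m with
  | zero =>
    intro _ g hg
    have hg0 : g = 0 := by
      rw [← Polynomial.degree_eq_bot]
      exact Nat.WithBot.lt_zero_iff.1 (by simpa using hg)
    rw [hg0, Polynomial.zero_comp, mul_zero]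
    have h1 := Ph_C z n h b B P 0 0
    rwa [map_zero, zero_mul, zero_mul] at h1
  | succ m ih =>
    intro hm g hg
    have hn0 : (n.factorial : ℚ) ^ (2 * h) ≠ 0 :=
      pow_ne_zero _ (by exact_mod_cast n.factorial_ne_zero)
    have h1 : Ph z n h b B P (sl n * (Gb n m).comp (yp n)) = 0 := by
      have h2 := hL m (by omega)
      rw [LQ_eq] at h2
      exact (mul_eq_zero.1 h2).resolve_left hn0
    set c : ℚ := g.coeff m / (Gb n m).leadingCoeff with hc
    have hlc : (Gb n m).leadingCoeff ≠ 0 := Polynomial.leadingCoeff_ne_zero.2 (Gb_ne n m)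
    have h3 : (g - C c * Gb n m).degree < (m : ℕ) := by
      rw [Polynomial.degree_lt_iff_coeff_zero]
      intro j hj
      rw [Polynomial.coeff_sub, Polynomial.coeff_C_mul]
      rcases Nat.eq_or_lt_of_le hj with h4 | h4
      · rw [← h4]
        have h5 : (Gb n m).coeff m = (Gb n m).leadingCoeff := by
          rw [Polynomial.leadingCoeff, Gb_deg]
        rw [h5, hc, div_mul_cancel₀ _ hlc, sub_self]
      · rw [Polynomial.degree_lt_iff_coeff_zero] at hg
        rw [hg j (by omega), Polynomial.coeff_eq_zero_of_natDegree_lt (by rw [Gb_deg]; exact h4),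
          mul_zero, sub_zero]
    have h4 := ih (by omega) _ h3
    have h5 : sl n * g.comp (yp n) = sl n * (g - C c * Gb n m).comp (yp n) +
        C c * (sl n * (Gb n m).comp (yp n)) := by
      rw [Polynomial.sub_comp, Polynomial.mul_comp, Polynomial.C_comp]
      ring
    rw [h5, Ph_add, Ph_C, h4, h1, mul_zero, add_zero]

/-- the odd part -/
theorem odd_part {G : ℕ} (F : ℚ[X]) (hF : F.natDegree ≤ 2 * G + 1) :
    ∃ E : ℚ[X], E.natDegree ≤ G ∧ F - F.comp (-X) = X * E.comp (X ^ 2) := by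
  refine ⟨∑ j ∈ Finset.range (G + 1), C (2 * F.coeff (2 * j + 1)) * X ^ j, ?_, ?_⟩
  · apply Polynomial.natDegree_sum_le_of_forall_le
    intro j hj
    rw [Finset.mem_range] at hj
    exact (Polynomial.natDegree_C_mul_X_pow_le _ _).trans (by omega)
  · have hE : ∀ i, (∑ j ∈ Finset.range (G + 1), C (2 * F.coeff (2 * j + 1)) * X ^ j :
        ℚ[X]).coeff i = 2 * F.coeff (2 * i + 1) := by
      intro i
      rw [Polynomial.finsetSum_coeff]
      simp only [Polynomial.coeff_C_mul_X_pow]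
      rw [Finset.sum_ite_eq]
      split_ifs with h
      · rfl
      · rw [Finset.mem_range] at h
        rw [Polynomial.coeff_eq_zero_of_natDegree_lt (by omega), mul_zero]
    rw [← Polynomial.expand_eq_comp_X_pow]
    ext i
    have hX : (-X : ℚ[X]) = C (-1) * X := by rw [map_neg, map_one, neg_one_mul]
    rw [Polynomial.coeff_sub, hX, Polynomial.comp_C_mul_X_coeff]
    cases i with
    | zero => simp
    | succ j =>
      rw [Polynomial.coeff_X_mul, Polynomial.coeff_expand (by norm_num), hE]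
      split_ifs with h
      · obtain ⟨l, rfl⟩ := h
        rw [Nat.mul_div_cancel_left _ (by norm_num)]
        rw [pow_succ, pow_mul]
        norm_num
        ring
      · have h2 : Even (j + 1) := by
          rw [Nat.even_add_one]
          intro h3
          exact h h3.two_dvd
        rw [h2.neg_one_pow]
        ring

theorem sl_comp (n : ℕ) : (sl n).comp (io n) = - sl n := by
  unfold sl io
  simp only [Polynomial.mul_comp, Polynomial.add_comp, Polynomial.X_comp, Polynomial.C_comp]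
  have h2 : (C (2 : ℚ) : ℚ[X]) = 2 := map_ofNat C 2
  rw [h2]
  ring

theorem yp_comp (n : ℕ) : (yp n).comp (io n) = yp n := by
  unfold yp io
  simp only [Polynomial.mul_comp, Polynomial.add_comp, Polynomial.X_comp, Polynomial.C_comp]
  ring

theorem sl_sq (n : ℕ) : sl n ^ 2 = (C 4 * X + C (((n : ℚ) - 1) ^ 2)).comp (yp n) := by
  unfold sl yp
  simp only [Polynomial.mul_comp, Polynomial.add_comp, Polynomial.X_comp, Polynomial.C_comp]
  have h2 : (C (2 : ℚ) : ℚ[X]) = 2 := map_ofNat C 2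
  have h4 : (C (4 : ℚ) : ℚ[X]) = 4 := map_ofNat C 4
  rw [h2, h4, map_pow C]
  ring

theorem anti {n G : ℕ} (F : ℚ[X]) (hF : F.natDegree ≤ 2 * G + 1) :
    ∃ g : ℚ[X], g.natDegree ≤ G ∧ F - F.comp (io n) = sl n * g.comp (yp n) := by
  set t : ℚ[X] := C (1 / 2) * X - C (((n : ℚ) - 1) / 2) with ht
  have hts : t.comp (sl n) = X := by
    rw [ht]
    unfold sl
    simp only [Polynomial.mul_comp, Polynomial.sub_comp, Polynomial.X_comp, Polynomial.C_comp]
    rw [mul_add, ← mul_assoc, ← C_mul, ← C_mul,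
      show (1 / 2 : ℚ) * ((n : ℚ) - 1) = ((n : ℚ) - 1) / 2 by ring,
      show (1 / 2 : ℚ) * 2 = 1 by norm_num, C_1]
    ring
  have hF1 : (F.comp t).comp (sl n) = F := by
    rw [Polynomial.comp_assoc, hts, Polynomial.comp_X]
  have hdeg : (F.comp t).natDegree ≤ 2 * G + 1 := by
    rw [Polynomial.natDegree_comp]
    have : t.natDegree ≤ 1 := by
      rw [ht]
      compute_degree
    calc F.natDegree * t.natDegree ≤ (2 * G + 1) * 1 := Nat.mul_le_mul hF this
      _ = 2 * G + 1 := by ring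
  obtain ⟨E, hE1, hE2⟩ := odd_part (F.comp t) hdeg
  refine ⟨E.comp (C 4 * X + C (((n : ℚ) - 1) ^ 2)), ?_, ?_⟩
  · rw [Polynomial.natDegree_comp]
    have : (C 4 * X + C (((n : ℚ) - 1) ^ 2) : ℚ[X]).natDegree ≤ 1 := by compute_degree
    calc _ ≤ G * 1 := Nat.mul_le_mul hE1 this
      _ = G := by ring
  · have h1 : F.comp (io n) = ((F.comp t).comp (-X)).comp (sl n) := by
      calc F.comp (io n) = ((F.comp t).comp (sl n)).comp (io n) := by rw [hF1]
        _ = (F.comp t).comp ((sl n).comp (io n)) := Polynomial.comp_assoc _ _ _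
        _ = (F.comp t).comp ((-X : ℚ[X]).comp (sl n)) := by
          rw [sl_comp, Polynomial.neg_comp, Polynomial.X_comp]
        _ = _ := (Polynomial.comp_assoc _ _ _).symm
    have h2 : F - F.comp (io n) = (F.comp t - (F.comp t).comp (-X)).comp (sl n) := by
      rw [Polynomial.sub_comp, hF1, h1]
    rw [h2, hE2, Polynomial.mul_comp, Polynomial.X_comp, Polynomial.comp_assoc,
      Polynomial.comp_assoc, Polynomial.pow_comp, Polynomial.X_comp, sl_sq]

/-- `σ` -/
abbrev sg : PowerSeries ℚ →+* PowerSeries ℚ := PowerSeries.rescale (-1 : ℚ)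

theorem sg_sg (f : PowerSeries ℚ) : sg (sg f) = f := by
  ext j
  rw [PowerSeries.coeff_rescale, PowerSeries.coeff_rescale, ← mul_assoc, ← mul_pow]
  norm_num

theorem TS_io {n k : ℕ} (hk : k < n) (F : ℚ[X]) :
    TS (-(k : ℚ)) (F.comp (io n)) = sg (TS (-((n - 1 - k : ℕ) : ℚ)) F) := by
  have h := TS_reflect ((n : ℚ) - 1) (-(k : ℚ)) F
  have h2 : -((n - 1 - k : ℕ) : ℚ) = -((n : ℚ) - 1) - (-(k : ℚ)) := by
    rw [Nat.cast_sub (by omega), Nat.cast_sub (by omega)]
    push_cast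
    ring
  rw [h2, h, sg_sg]
  rfl

theorem VV_io {n h k : ℕ} (hk : k < n) :
    VV ((sP n).erase k) (mP h) (-(k : ℚ)) =
      sg (VV ((sP n).erase (n - 1 - k)) (mP h) (-((n - 1 - k : ℕ) : ℚ))) := by
  unfold VV
  rw [map_prod]
  symm
  apply Finset.prod_bij (fun m _ => n - 1 - m)
  · intro m hm
    rw [Finset.mem_erase, Finset.mem_range] at hm ⊢
    omega
  · intro m1 hm1 m2 hm2 h
    rw [Finset.mem_erase, Finset.mem_range] at hm1 hm2
    omega
  · intro m hm
    rw [Finset.mem_erase, Finset.mem_range] at hm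
    refine ⟨n - 1 - m, ?_, by omega⟩
    rw [Finset.mem_erase, Finset.mem_range]
    omega
  · intro m hm
    rw [Finset.mem_erase, Finset.mem_range] at hm
    have h2 : -(k : ℚ) + ((n - 1 - m : ℕ) : ℚ) = -(-((n - 1 - k : ℕ) : ℚ) + m) := by
      rw [Nat.cast_sub (by omega), Nat.cast_sub (by omega), Nat.cast_sub (by omega),
        Nat.cast_sub (by omega)]
      ring
    rw [map_pow, h2, iv_neg, Even.neg_pow (even_two_mul h)]

theorem Hk_io {z : ℕ → ℚ} {n h b B : ℕ} {P : ℕ → ℚ[X]} {k : ℕ} (hk : k < n) :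
    Hk z n h b B P k + sg (Hk z n h b B P (n - 1 - k)) = Es z n h b B P k := by
  unfold Hk Es bs
  rw [map_sum, ← Finset.sum_add_distrib]
  apply Finset.sum_congr rfl
  intro d _
  rw [map_mul, ← TS_io hk, Polynomial.comp_assoc, yp_comp, mul_add]

theorem Ph_io {z : ℕ → ℚ} {n h b B : ℕ} {P : ℕ → ℚ[X]} (hh : 1 ≤ h) (F : ℚ[X]) :
    Ph z n h b B P (F.comp (io n)) = - ∑ k ∈ Finset.range n, PowerSeries.coeff (2 * h - 1)
      (TS (-(k : ℚ)) F * VV ((sP n).erase k) (mP h) (-(k : ℚ)) *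
        sg (Hk z n h b B P (n - 1 - k))) := by
  unfold Ph
  rw [← Finset.sum_range_reflect (fun k => PowerSeries.coeff (2 * h - 1)
      (TS (-(k : ℚ)) F * VV ((sP n).erase k) (mP h) (-(k : ℚ)) *
        sg (Hk z n h b B P (n - 1 - k)))) n, ← Finset.sum_neg_distrib]
  apply Finset.sum_congr rfl
  intro k hk
  rw [Finset.mem_range] at hk
  have h1 : n - 1 - (n - 1 - k) = k := by omega
  rw [TS_io hk, VV_io hk, h1]
  have h2 : sg (TS (-((n - 1 - k : ℕ) : ℚ)) F) *
      sg (VV ((sP n).erase (n - 1 - k)) (mP h) (-((n - 1 - k : ℕ) : ℚ))) * Hk z n h b B P k =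
      sg (TS (-((n - 1 - k : ℕ) : ℚ)) F *
        VV ((sP n).erase (n - 1 - k)) (mP h) (-((n - 1 - k : ℕ) : ℚ)) *
          sg (Hk z n h b B P k)) := by
    rw [map_mul, map_mul, sg_sg]
  rw [h2, PowerSeries.coeff_rescale]
  have h3 : Odd (2 * h - 1) := ⟨h - 1, by omega⟩
  rw [h3.neg_one_pow]
  ring

end SYM

open SYM in
theorem t_sym : S_SYM := by
  intro z n h b B G P hn hh hL F hF
  obtain ⟨g, hg1, hg2⟩ := anti (n := n) F hF
  have h1 : Ph z n h b B P (sl n * g.comp (yp n)) = 0 := by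
    apply Ph_span hL (G + 1) le_rfl
    exact lt_of_le_of_lt Polynomial.degree_le_natDegree (by exact_mod_cast Nat.lt_succ_of_le hg1)
  have h2 : F = F.comp (io n) + sl n * g.comp (yp n) := by rw [← hg2]; ring
  have h3 : Ph z n h b B P F = Ph z n h b B P (F.comp (io n)) := by
    conv_lhs => rw [h2]
    rw [Ph_add, h1, add_zero]
  rw [Ph_io hh, eq_neg_iff_add_eq_zero] at h3
  rw [← h3]
  unfold Ph
  rw [← Finset.sum_add_distrib]
  apply Finset.sum_congr rfl
  intro k hk
  rw [Finset.mem_range] at hk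
  rw [← Hk_io hk, mul_add, map_add]

end

end Pool.Agent.Y926.TW
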