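import Pool.Agent.Y926.TW.Stm

/-! TW-TELE: a certain rational function is not a difference `r(t - 1) - r(t)`. -/

open Polynomial Pool.Agent.H337R2 Pool.Agent.W165.OZ Pool.Agent.Y926.LZ

namespace Pool.Agent.Y926.TW.JTELE

noncomputable section

/-- the Laurent expansion at `y` -/
def ph (y : ℚ) : ℚ[X] →+* LaurentSeries ℚ :=
  (HahnSeries.ofPowerSeries ℤ ℚ).comp
    ((Polynomial.coeToPowerSeries.ringHom).comp (Polynomial.compRingHom (X + C y)))

lemma ph_apply (y : ℚ) (p : ℚ[X]) :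
    ph y p = HahnSeries.ofPowerSeries ℤ ℚ ((p.comp (X + C y) : ℚ[X]) : PowerSeries ℚ) := rfl

lemma ph_sh (y : ℚ) (p : ℚ[X]) : ph y (sh 1 p) = ph (y - 1) p := by
  rw [ph_apply, ph_apply]
  congr 2
  unfold sh
  rw [comp_assoc]
  congr 1
  rw [sub_comp, X_comp, C_comp, C_sub, Nat.cast_one]
  ring

lemma ph_ne (y : ℚ) {p : ℚ[X]} (hp : p ≠ 0) : ph y p ≠ 0 := by
  rw [ph_apply]
  intro h
  rw [← map_zero (HahnSeries.ofPowerSeries ℤ ℚ)] at h
  have h1 := HahnSeries.ofPowerSeries_injective h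
  rw [← Polynomial.coe_zero] at h1
  have h2 := Polynomial.coe_injective ℚ h1
  have h3 : p.comp (X + C y) = taylor y p := rfl
  rw [h3] at h2
  rw [← map_zero (taylor y)] at h2
  exact hp (taylor_injective y h2)

/-- a quotient with non-vanishing denominator has no polar part -/
lemma ph_reg (y : ℚ) {p : ℚ[X]} (hp : p.eval y ≠ 0) (q : ℚ[X]) (k : ℕ) :
    (ph y q * (ph y p)⁻¹).coeff (-((k : ℤ) + 1)) = 0 := by
  set P : PowerSeries ℚ := ((p.comp (X + C y) : ℚ[X]) : PowerSeries ℚ) with hP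
  set Q : PowerSeries ℚ := ((q.comp (X + C y) : ℚ[X]) : PowerSeries ℚ) with hQ
  have h0 : PowerSeries.constantCoeff P ≠ 0 := by
    rw [hP, ← PowerSeries.coeff_zero_eq_constantCoeff_apply, Polynomial.coeff_coe, coeff_zero_eq_eval_zero,
      eval_comp]
    simpa using hp
  have h1 : P * P⁻¹ = 1 := PowerSeries.mul_inv_cancel P h0
  have h2 : (ph y p)⁻¹ = HahnSeries.ofPowerSeries ℤ ℚ P⁻¹ := by
    have h3 : ph y p * HahnSeries.ofPowerSeries ℤ ℚ P⁻¹ = 1 := by
      rw [ph_apply, ← hP, ← map_mul, h1, map_one]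
    exact inv_eq_of_mul_eq_one_right h3
  rw [h2, ph_apply, ← hQ, ← map_mul, PowerSeries.coeff_coe, if_pos (by omega)]

lemma ph_C_mul (y c : ℚ) (f : LaurentSeries ℚ) (i : ℤ) : (ph y (C c) * f).coeff i = c * f.coeff i := by
  have h : ph y (C c) = HahnSeries.C c := by
    rw [ph_apply, C_comp, Polynomial.coe_C, HahnSeries.ofPowerSeries_C]
  rw [h, HahnSeries.C_mul_eq_smul, HahnSeries.coeff_smul, smul_eq_mul]

lemma ph_pole (y w : ℚ) (b : ℕ) :
    (ph y ((X - C w) ^ (b + 1)))⁻¹.coeff (-((b : ℤ) + 1)) = if y = w then 1 else 0 := by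
  split_ifs with h
  · subst h
    have h1 : ph y (X - C y) = HahnSeries.single (1 : ℤ) (1 : ℚ) := by
      rw [ph_apply, sub_comp, X_comp, C_comp, add_sub_cancel_right, Polynomial.coe_X,
        HahnSeries.ofPowerSeries_X]
    rw [map_pow, h1, HahnSeries.single_pow, HahnSeries.inv_single, one_pow, inv_one]
    have h2 : (-((b : ℤ) + 1)) = -((b + 1) • (1 : ℤ)) := by
      rw [nsmul_eq_mul, mul_one]; push_cast; ring
    rw [h2, HahnSeries.coeff_single_same]
  · have h1 : ((X - C w) ^ (b + 1) : ℚ[X]).eval y ≠ 0 := by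
      rw [eval_pow, eval_sub, eval_X, eval_C]
      exact pow_ne_zero _ (sub_ne_zero.2 h)
    have h2 := ph_reg y h1 1 b
    rwa [map_one, one_mul] at h2

lemma Pf1_ne (b d v : ℕ) : Pf1 b d v ≠ 0 := pow_ne_zero _ (X_sub_C_ne_zero _)

lemma Pf2_eq (n b d v : ℕ) : Pf2 n b d v = (X - C (-((n : ℚ) - 2 + (v : ℚ) / d))) ^ (b + 1) := by
  unfold Pf2
  rw [C_neg, sub_neg_eq_add]

lemma Pf2_ne (n b d v : ℕ) : Pf2 n b d v ≠ 0 := by
  rw [Pf2_eq]
  exact pow_ne_zero _ (X_sub_C_ne_zero _)

/-- the `(b + 1)`-st polar coefficient of the sum -/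
lemma delta_coeff (n b B : ℕ) (c : ℕ → ℚ) (y : ℚ) :
    (ph y (∑ d ∈ Finset.Icc 1 B, C (c d) * eta n b B d) * (ph y (Pi1 n b B))⁻¹).coeff (-((b : ℤ) + 1)) =
    ∑ d ∈ Finset.Icc 1 B, c d * ∑ v ∈ Finset.Icc 1 d,
      ((if y = (v : ℚ) / d then 1 else 0) + (if y = -((n : ℚ) - 2 + (v : ℚ) / d) then 1 else 0)) := by
  have hPi : Pi1 n b B ≠ 0 := Finset.prod_ne_zero_iff.2 fun q _ => mul_ne_zero (Pf1_ne _ _ _) (Pf2_ne _ _ _ _)
  have h1 : ∀ d ∈ Finset.Icc 1 B, ph y (eta n b B d) * (ph y (Pi1 n b B))⁻¹ =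
      ∑ v ∈ Finset.Icc 1 d, ((ph y (Pf1 b d v))⁻¹ + (ph y (Pf2 n b d v))⁻¹) := by
    intro d hd
    unfold eta
    rw [map_sum, Finset.sum_mul]
    refine Finset.sum_congr rfl fun v hv => ?_
    have hmem : (⟨d, v⟩ : Σ _ : ℕ, ℕ) ∈ Dv B := by
      unfold Dv
      rw [Finset.mem_sigma]
      exact ⟨hd, hv⟩
    have h2 : Pi1 n b B = (Pf1 b d v * Pf2 n b d v) *
        ∏ q ∈ (Dv B).erase ⟨d, v⟩, (Pf1 b q.1 q.2 * Pf2 n b q.1 q.2) := by
      unfold Pi1
      exact (Finset.mul_prod_erase (Dv B) (fun q : (Σ _ : ℕ, ℕ) => Pf1 b q.1 q.2 * Pf2 n b q.1 q.2) hmem).symm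
    have hr : ∏ q ∈ (Dv B).erase ⟨d, v⟩, (Pf1 b q.1 q.2 * Pf2 n b q.1 q.2) ≠ 0 :=
      Finset.prod_ne_zero_iff.2 fun q _ => mul_ne_zero (Pf1_ne _ _ _) (Pf2_ne _ _ _ _)
    rw [h2, map_mul, map_mul, map_mul, map_add]
    have e1 := ph_ne y hr
    have e2 := ph_ne y (Pf1_ne b d v)
    have e3 := ph_ne y (Pf2_ne n b d v)
    generalize ph y (∏ q ∈ (Dv B).erase ⟨d, v⟩, (Pf1 b q.1 q.2 * Pf2 n b q.1 q.2)) = r at *
    generalize ph y (Pf1 b d v) = f1 at *
    generalize ph y (Pf2 n b d v) = f2 at *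
    field_simp
  rw [map_sum, Finset.sum_mul, HahnSeries.coeff_sum]
  refine Finset.sum_congr rfl fun d hd => ?_
  rw [map_mul, mul_assoc, ph_C_mul, h1 d hd, HahnSeries.coeff_sum]
  congr 1
  refine Finset.sum_congr rfl fun v _ => ?_
  rw [HahnSeries.coeff_add, Pf2_eq, ph_pole]
  congr 1
  exact ph_pole y ((v : ℚ) / d) b

/-- a non-zero polynomial has no zeros far away -/
lemma far (v : ℚ[X]) (hv : v ≠ 0) : ∃ M0 : ℚ, ∀ y : ℚ, M0 ≤ |y| → v.eval y ≠ 0 := by
  classical
  refine ⟨1 + ∑ ρ ∈ v.roots.toFinset, |ρ|, fun y hy h => ?_⟩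
  have h1 : y ∈ v.roots.toFinset := by
    rw [Multiset.mem_toFinset, mem_roots hv]
    exact h
  have h2 := Finset.single_le_sum (f := fun ρ : ℚ => |ρ|) (fun ρ _ => abs_nonneg ρ) h1
  linarith

/-- the first count -/
lemma cnt1 (e d v M i : ℕ) (he : 2 ≤ e) (hd : 1 ≤ d) (hv1 : 1 ≤ v) (hvd : v ≤ d) :
    ((1 : ℚ) / e - M + i = (v : ℚ) / d) ↔ (i = M ∧ v * e = d) := by
  have he' : (2 : ℚ) ≤ e := by exact_mod_cast he
  have hd' : (1 : ℚ) ≤ d := by exact_mod_cast hd
  have hv' : (1 : ℚ) ≤ v := by exact_mod_cast hv1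
  have hvd' : (v : ℚ) ≤ d := by exact_mod_cast hvd
  have h1 : (0 : ℚ) < (v : ℚ) / d := by positivity
  have h2 : (v : ℚ) / d ≤ 1 := by rw [div_le_one (by positivity)]; exact hvd'
  have h3 : (0 : ℚ) < (1 : ℚ) / e := by positivity
  have h4 : (1 : ℚ) / e ≤ 1 / 2 := by
    apply div_le_div_of_nonneg_left <;> linarith
  constructor
  · intro h
    have hi : i = M := by
      have h5 : ((i : ℤ) : ℚ) - (M : ℤ) < 1 := by push_cast; linarith
      have h6 : (-1 : ℚ) < ((i : ℤ) : ℚ) - (M : ℤ) := by push_cast; linarith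
      have h7 : (i : ℤ) - M < 1 := by exact_mod_cast h5
      have h8 : (-1 : ℤ) < (i : ℤ) - M := by exact_mod_cast h6
      omega
    refine ⟨hi, ?_⟩
    rw [hi, sub_add_cancel, div_eq_div_iff (by positivity) (by positivity)] at h
    have : (v * e : ℚ) = d := by linarith
    exact_mod_cast this
  · rintro ⟨rfl, h⟩
    have : (v * e : ℚ) = d := by exact_mod_cast h
    rw [sub_add_cancel, div_eq_div_iff (by positivity) (by positivity)]
    linarith

/-- the second count -/
lemma cnt2 (n e d v M i : ℕ) (he : 2 ≤ e) (hd : 1 ≤ d) (hv1 : 1 ≤ v) (hvd : v ≤ d) :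
    ((1 : ℚ) / e - M + i = -((n : ℚ) - 2 + (v : ℚ) / d)) ↔ (i + n = M + 1 ∧ v * e = d * (e - 1)) := by
  have he' : (2 : ℚ) ≤ e := by exact_mod_cast he
  have hd' : (1 : ℚ) ≤ d := by exact_mod_cast hd
  have hv' : (1 : ℚ) ≤ v := by exact_mod_cast hv1
  have hvd' : (v : ℚ) ≤ d := by exact_mod_cast hvd
  have h1 : (0 : ℚ) < (v : ℚ) / d := by positivity
  have h2 : (v : ℚ) / d ≤ 1 := by rw [div_le_one (by positivity)]; exact hvd'
  have h3 : (0 : ℚ) < (1 : ℚ) / e := by positivity
  have h4 : (1 : ℚ) / e ≤ 1 / 2 := by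
    apply div_le_div_of_nonneg_left <;> linarith
  have key : (v * e = d * (e - 1)) ↔ (v : ℚ) / d = 1 - 1 / e := by
    have e1 : (1 : ℚ) - 1 / e = ((e : ℚ) - 1) / e := by field_simp
    rw [e1, div_eq_div_iff (by positivity) (by positivity)]
    have e2 : ((e - 1 : ℕ) : ℚ) = (e : ℚ) - 1 := by
      rw [Nat.cast_sub (by omega), Nat.cast_one]
    rw [← e2]
    constructor
    · intro h
      have h' : (v : ℚ) * e = d * ((e - 1 : ℕ) : ℚ) := by exact_mod_cast h
      linarith
    · intro h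
      have h' : (v : ℚ) * e = d * ((e - 1 : ℕ) : ℚ) := by linarith
      exact_mod_cast h'
  rw [key]
  constructor
  · intro h
    have hi : i + n = M + 1 := by
      have h5 : ((i : ℤ) : ℚ) + (n : ℤ) - (M : ℤ) < 2 := by push_cast; linarith
      have h6 : (0 : ℚ) < ((i : ℤ) : ℚ) + (n : ℤ) - (M : ℤ) := by push_cast; linarith
      have h7 : (i : ℤ) + n - M < 2 := by exact_mod_cast h5
      have h8 : (0 : ℤ) < (i : ℤ) + n - M := by exact_mod_cast h6
      omega
    refine ⟨hi, ?_⟩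
    have hi' : (i : ℚ) + n = M + 1 := by exact_mod_cast hi
    linarith
  · rintro ⟨hi, h⟩
    have hi' : (i : ℚ) + n = M + 1 := by exact_mod_cast hi
    rw [h]
    linarith

end

end Pool.Agent.Y926.TW.JTELE

namespace Pool.Agent.Y926.TW

open JTELE

theorem t_tele : S_TELE := by
  classical
  intro n b B c _ _ hn hsum u v hv hrel
  by_contra hcon
  push Not at hcon
  -- the largest `e` with `c e ≠ 0`
  set S := (Finset.Icc 1 B).filter (fun d => c d ≠ 0) with hS
  have hSne : S.Nonempty := by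
    obtain ⟨d, hd, hd'⟩ := hcon
    exact ⟨d, Finset.mem_filter.2 ⟨hd, hd'⟩⟩
  set e := S.max' hSne with he
  have heS : e ∈ S := S.max'_mem hSne
  have heB : e ∈ Finset.Icc 1 B := (Finset.mem_filter.1 heS).1
  have hce : c e ≠ 0 := (Finset.mem_filter.1 heS).2
  have hmax : ∀ d ∈ Finset.Icc 1 B, e < d → c d = 0 := by
    intro d hd hed
    by_contra h
    exact absurd (S.le_max' d (Finset.mem_filter.2 ⟨hd, h⟩)) (not_le.2 hed)
  have he2 : 2 ≤ e := by
    by_contra h
    have h1 : e = 1 := by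
      have := (Finset.mem_Icc.1 heB).1
      omega
    rw [Finset.sum_eq_single e] at hsum
    · exact hce hsum
    · intro d hd hde
      apply hmax d hd
      have := (Finset.mem_Icc.1 hd).1
      omega
    · intro h; exact absurd heB h
  obtain ⟨M0, hM0⟩ := far v hv
  obtain ⟨M, hM⟩ := exists_nat_ge (|M0| + n + 2)
  have hMn : n + 2 ≤ M := by
    have h1 : ((n + 2 : ℕ) : ℚ) ≤ M := by
      push_cast
      linarith [abs_nonneg M0]
    exact_mod_cast h1
  have he' : (2 : ℚ) ≤ e := by exact_mod_cast he2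
  have hx0 : (0 : ℚ) < 1 / e := by positivity
  have hx1 : (1 : ℚ) / e ≤ 1 := by rw [div_le_one (by positivity)]; linarith
  -- the function `r = u / v` and the sum
  set F : ℕ → ℚ := fun i => (ph ((1 : ℚ) / e - M - 1 + i) u *
    (ph ((1 : ℚ) / e - M - 1 + i) v)⁻¹).coeff (-((b : ℤ) + 1)) with hF
  have hstep : ∀ i : ℕ, ∑ d ∈ Finset.Icc 1 B, c d * ∑ w ∈ Finset.Icc 1 d,
      ((if (1 : ℚ) / e - M + i = (w : ℚ) / d then (1 : ℚ) else 0) +
        (if (1 : ℚ) / e - M + i = -((n : ℚ) - 2 + (w : ℚ) / d) then 1 else 0)) = F i - F (i + 1) := by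
    intro i
    have hy1 : (1 : ℚ) / e - M - 1 + i = ((1 : ℚ) / e - M + i) - 1 := by ring
    have hy2 : (1 : ℚ) / e - M - 1 + ((i + 1 : ℕ) : ℚ) = (1 : ℚ) / e - M + i := by push_cast; ring
    rw [← delta_coeff]
    simp only [hF]
    rw [hy1, hy2]
    generalize (1 : ℚ) / e - M + i = y
    rw [← HahnSeries.coeff_sub]
    congr 1
    have h1 := congrArg (ph y) hrel
    rw [map_add, map_mul, map_sub, map_mul, map_mul, map_mul, map_mul, ph_sh, ph_sh, map_zero] at h1
    have hPi : Pi1 n b B ≠ 0 :=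
      Finset.prod_ne_zero_iff.2 fun q _ => mul_ne_zero (Pf1_ne _ _ _) (Pf2_ne _ _ _ _)
    have e1 := ph_ne y hPi
    have e2 := ph_ne y hv
    have e3 := ph_ne (y - 1) hv
    generalize ph y (Pi1 n b B) = P at *
    generalize ph y v = V at *
    generalize ph (y - 1) v = V1 at *
    generalize ph y u = U at *
    generalize ph (y - 1) u = U1 at *
    generalize ph y (∑ d ∈ Finset.Icc 1 B, C (c d) * eta n b B d) = E at *
    field_simp
    linear_combination h1
  have htel : ∑ i ∈ Finset.range (2 * M + 1), (F i - F (i + 1)) = 0 := by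
    rw [Finset.sum_range_sub']
    have h0 : F 0 = 0 := by
      simp only [hF]
      apply ph_reg
      apply hM0
      rw [Nat.cast_zero, add_zero, abs_of_nonpos (by linarith [abs_nonneg M0])]
      linarith [le_abs_self M0, abs_nonneg M0]
    have h1 : F (2 * M + 1) = 0 := by
      simp only [hF]
      apply ph_reg
      apply hM0
      push_cast
      rw [abs_of_nonneg (by linarith [abs_nonneg M0])]
      linarith [le_abs_self M0, abs_nonneg M0]
    rw [h0, h1, sub_zero]
  rw [← Finset.sum_congr rfl (fun i _ => hstep i), Finset.sum_comm] at htel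
  -- the count
  have hcount : ∀ d ∈ Finset.Icc 1 B, ∑ i ∈ Finset.range (2 * M + 1), c d * ∑ w ∈ Finset.Icc 1 d,
      ((if (1 : ℚ) / e - M + i = (w : ℚ) / d then (1 : ℚ) else 0) +
        (if (1 : ℚ) / e - M + i = -((n : ℚ) - 2 + (w : ℚ) / d) then 1 else 0)) =
      if d = e then 2 * c e else 0 := by
    intro d hd
    have hd1 := (Finset.mem_Icc.1 hd).1
    by_cases hde : e < d
    · rw [if_neg (by omega), hmax d hd hde]
      simp
    rw [← Finset.mul_sum, Finset.sum_comm]
    have h1 : ∀ w ∈ Finset.Icc 1 d, ∑ i ∈ Finset.range (2 * M + 1),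
        ((if (1 : ℚ) / e - M + i = (w : ℚ) / d then (1 : ℚ) else 0) +
        (if (1 : ℚ) / e - M + i = -((n : ℚ) - 2 + (w : ℚ) / d) then 1 else 0)) =
        (if w * e = d then 1 else 0) + (if w * e = d * (e - 1) then 1 else 0) := by
      intro w hw
      have hw' := Finset.mem_Icc.1 hw
      rw [Finset.sum_add_distrib]
      congr 1
      · rw [Finset.sum_eq_single M]
        · exact if_congr ((cnt1 e d w M M he2 hd1 hw'.1 hw'.2).trans (by simp)) rfl rfl
        · intro i _ hi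
          rw [if_neg]
          rw [cnt1 e d w M i he2 hd1 hw'.1 hw'.2]
          exact fun h => hi h.1
        · intro h
          exact absurd (Finset.mem_range.2 (by omega)) h
      · rw [Finset.sum_eq_single (M + 1 - n)]
        · refine if_congr ((cnt2 n e d w M (M + 1 - n) he2 hd1 hw'.1 hw'.2).trans ?_) rfl rfl
          constructor
          · exact fun h => h.2
          · exact fun h => ⟨by omega, h⟩
        · intro i _ hi
          rw [if_neg]
          rw [cnt2 n e d w M i he2 hd1 hw'.1 hw'.2]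
          exact fun h => hi (by omega)
        · intro h
          exact absurd (Finset.mem_range.2 (by omega)) h
    rw [Finset.sum_congr rfl h1, Finset.sum_add_distrib]
    split_ifs with h
    · subst h
      rw [Finset.sum_eq_single 1, Finset.sum_eq_single (e - 1)]
      · rw [one_mul, if_pos rfl, if_pos (mul_comm _ _)]
        ring
      · intro w hw hw1
        rw [if_neg]
        intro h
        apply hw1
        rw [mul_comm] at h
        exact Nat.eq_of_mul_eq_mul_left (by omega) h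
      · intro h
        exact absurd (Finset.mem_Icc.2 ⟨by omega, by omega⟩) h
      · intro w hw hw1
        rw [if_neg]
        intro h
        apply hw1
        have h2 : w * e = 1 * e := by rw [h, one_mul]
        exact Nat.eq_of_mul_eq_mul_right (by omega) h2
      · intro h
        exact absurd (Finset.mem_Icc.2 ⟨le_rfl, by omega⟩) h
    · have hlt : d < e := by omega
      rw [Finset.sum_eq_zero, Finset.sum_eq_zero]
      · ring
      · intro w hw
        rw [if_neg]
        intro h2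
        have hcop : Nat.Coprime e (e - 1) := by
          have : e = (e - 1) + 1 := by omega
          rw [this, Nat.add_sub_cancel]
          exact (Nat.coprime_self_add_left).2 (Nat.coprime_one_left _)
        have h3 : e ∣ d * (e - 1) := ⟨w, by rw [← h2]; ring⟩
        have h4 : e ∣ d := hcop.dvd_of_dvd_mul_right h3
        exact absurd (Nat.le_of_dvd (by omega) h4) (by omega)
      · intro w hw
        rw [if_neg]
        intro h2
        have hw' := Finset.mem_Icc.1 hw
        nlinarith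
  rw [Finset.sum_congr rfl hcount, Finset.sum_ite_eq' , if_pos heB] at htel
  exact hce (by linarith)

end Pool.Agent.Y926.TW
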