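import Pool.Agent.Y926.TW.Stm2

/-!
# Assembly of the zero estimate (job TW-ZT)
-/

set_option autoImplicit false

open Polynomial Pool.Agent.H337R2 Pool.Agent.W165.OZ Pool.Agent.Y926.LZ

namespace Pool.Agent.Y926.TW

noncomputable section

/-! ### degrees -/

lemma zt_card_Dv (B : ℕ) : (Dv B).card ≤ B ^ 2 := by
  unfold Dv
  rw [Finset.card_sigma]
  calc ∑ d ∈ Finset.Icc 1 B, (Finset.Icc 1 d).card ≤ ∑ _d ∈ Finset.Icc 1 B, B := by
        refine Finset.sum_le_sum (fun d hd => ?_)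
        rw [Nat.card_Icc]
        have := (Finset.mem_Icc.1 hd).2
        omega
    _ = B ^ 2 := by simp [sq]

lemma zt_deg_Pf1 (b d v : ℕ) : (Pf1 b d v).natDegree ≤ b + 1 := by
  unfold Pf1
  refine natDegree_pow_le.trans ?_
  rw [natDegree_X_sub_C, mul_one]

lemma zt_deg_Pf2 (n b d v : ℕ) : (Pf2 n b d v).natDegree ≤ b + 1 := by
  unfold Pf2
  refine natDegree_pow_le.trans ?_
  rw [natDegree_X_add_C, mul_one]

lemma zt_Pf1_ne (b d v : ℕ) : Pf1 b d v ≠ 0 := pow_ne_zero _ (X_sub_C_ne_zero _)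

lemma zt_Pf2_ne (n b d v : ℕ) : Pf2 n b d v ≠ 0 := pow_ne_zero _ (X_add_C_ne_zero _)

lemma zt_deg_prod (n b : ℕ) (s : Finset (Σ _ : ℕ, ℕ)) :
    (∏ q ∈ s, (Pf1 b q.1 q.2 * Pf2 n b q.1 q.2)).natDegree ≤ s.card * (2 * (b + 1)) := by
  refine (natDegree_prod_le _ _).trans ?_
  rw [← smul_eq_mul, ← Finset.sum_const]
  refine Finset.sum_le_sum (fun q _ => ?_)
  refine natDegree_mul_le.trans ?_
  have h1 := zt_deg_Pf1 b q.1 q.2
  have h2 := zt_deg_Pf2 n b q.1 q.2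
  omega

lemma zt_Pi1_ne (n b B : ℕ) : Pi1 n b B ≠ 0 :=
  Finset.prod_ne_zero_iff.2 (fun _ _ => mul_ne_zero (zt_Pf1_ne _ _ _) (zt_Pf2_ne _ _ _ _))

lemma zt_deg_Pi1 (n b B : ℕ) : (Pi1 n b B).natDegree ≤ 2 * ((b + 1) * B ^ 2) := by
  refine (zt_deg_prod n b (Dv B)).trans ?_
  have h := Nat.mul_le_mul_right (2 * (b + 1)) (zt_card_Dv B)
  calc (Dv B).card * (2 * (b + 1)) ≤ B ^ 2 * (2 * (b + 1)) := h
    _ = 2 * ((b + 1) * B ^ 2) := by ring

lemma zt_deg_eta (n b B d : ℕ) (hd : d ∈ Finset.Icc 1 B) :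
    (eta n b B d).natDegree ≤ 2 * ((b + 1) * B ^ 2) := by
  unfold eta
  refine natDegree_sum_le_of_forall_le _ _ (fun v hv => ?_)
  have hmem : (⟨d, v⟩ : Σ _ : ℕ, ℕ) ∈ Dv B := by
    unfold Dv
    exact Finset.mem_sigma.2 ⟨hd, hv⟩
  refine natDegree_mul_le.trans ?_
  have h1 := zt_deg_prod n b ((Dv B).erase ⟨d, v⟩)
  have h2 : (Pf2 n b d v + Pf1 b d v).natDegree ≤ b + 1 :=
    natDegree_add_le_of_degree_le (zt_deg_Pf2 _ _ _ _) (zt_deg_Pf1 _ _ _)
  have h3 : ((Dv B).erase ⟨d, v⟩).card + 1 = (Dv B).card := Finset.card_erase_add_one hmem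
  have h4 := zt_card_Dv B
  calc _ ≤ ((Dv B).erase ⟨d, v⟩).card * (2 * (b + 1)) + (b + 1) := add_le_add h1 h2
    _ ≤ (((Dv B).erase ⟨d, v⟩).card + 1) * (2 * (b + 1)) := by nlinarith
    _ ≤ B ^ 2 * (2 * (b + 1)) := by
        rw [h3]
        exact Nat.mul_le_mul_right _ h4
    _ = 2 * ((b + 1) * B ^ 2) := by ring

lemma zt_yp_deg (n : ℕ) : (yp n).natDegree = 2 := by
  unfold yp
  rw [natDegree_mul X_ne_zero (X_add_C_ne_zero _), natDegree_X, natDegree_X_add_C]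

/-! ### the basis of the span -/

/-- the basis of the span of the `Q l` -/
lemma zt_basis {m D : ℕ} (Q : Fin m → ℚ[X]) (hQ : ∃ l, Q l ≠ 0)
    (hQD : ∀ l, (Q l).natDegree + 1 ≤ D) :
    ∃ (m1 : ℕ) (Q' : Fin m1 → ℚ[X]) (a : Fin m1 → Fin m → ℚ), 1 ≤ m1 ∧ m1 ≤ m ∧
      LinearIndependent ℚ Q' ∧ LinearIndependent ℚ a ∧
      (∀ l, Q l = ∑ i, C (a i l) * Q' i) ∧ ∀ i, (Q' i).natDegree + 1 ≤ D := by
  obtain ⟨l0, hl0⟩ := hQ
  have hD : 1 ≤ D := le_trans (Nat.le_add_left _ _) (hQD l0)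
  set V : Submodule ℚ ℚ[X] := Submodule.span ℚ (Set.range Q) with hV
  have hfin : Module.Finite ℚ V := Module.Finite.iff_fg.2 (Submodule.fg_span (Set.finite_range Q))
  have hmem : ∀ l, Q l ∈ V := fun l => Submodule.subset_span (Set.mem_range_self l)
  let bs' := Module.finBasis ℚ V
  have hrepr : ∀ l, Q l = ∑ i, C (bs'.repr ⟨Q l, hmem l⟩ i) * ((bs' i : V) : ℚ[X]) := by
    intro l
    have h1 := bs'.sum_repr ⟨Q l, hmem l⟩
    have h2 := congrArg (Submodule.subtype V) h1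
    rw [map_sum] at h2
    simp only [map_smul, Submodule.subtype_apply] at h2
    refine Eq.trans h2.symm ?_
    exact Finset.sum_congr rfl (fun i _ => by rw [smul_eq_C_mul])
  refine ⟨Module.finrank ℚ V, fun i => ((bs' i : V) : ℚ[X]),
    fun i l => bs'.repr ⟨Q l, hmem l⟩ i, ?_, ?_, ?_, ?_, hrepr, ?_⟩
  · have : Nontrivial V := ⟨⟨⟨Q l0, hmem l0⟩, 0, fun h => hl0 (congrArg Subtype.val h)⟩⟩
    exact Module.finrank_pos
  · have h1 := finrank_range_le_card (R := ℚ) (b := Q)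
    rw [Fintype.card_fin] at h1
    exact h1
  · exact bs'.linearIndependent.map' (Submodule.subtype V) (Submodule.ker_subtype V)
  · rw [Fintype.linearIndependent_iff]
    intro g hg i
    have h1 : ∀ v : V, ∑ i, g i * bs'.repr v i = 0 := by
      intro v
      obtain ⟨v, hv⟩ := v
      induction hv using Submodule.span_induction with
      | mem x hx =>
        obtain ⟨l, rfl⟩ := hx
        have h2 := congrFun hg l
        simpa [Finset.sum_apply] using h2
      | zero =>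
        have h3 : (⟨0, V.zero_mem⟩ : V) = 0 := rfl
        rw [show (∑ i, g i * bs'.repr (⟨0, V.zero_mem⟩ : V) i) = 0 by rw [h3]; simp]
      | add x y hx hy ihx ihy =>
        have h3 : (⟨x + y, V.add_mem hx hy⟩ : V) = ⟨x, hx⟩ + ⟨y, hy⟩ := rfl
        rw [h3, map_add]
        simp only [Finsupp.add_apply, mul_add, Finset.sum_add_distrib, ihx, ihy, add_zero]
      | smul r x hx ihx =>
        have h3 : (⟨r • x, V.smul_mem r hx⟩ : V) = r • ⟨x, hx⟩ := rfl
        rw [h3, map_smul]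
        simp only [Finsupp.smul_apply, smul_eq_mul]
        have h4 : ∀ i, g i * (r * bs'.repr (⟨x, hx⟩ : V) i) =
            r * (g i * bs'.repr (⟨x, hx⟩ : V) i) := fun i => by ring
        rw [Finset.sum_congr rfl (fun i _ => h4 i), ← Finset.mul_sum, ihx, mul_zero]
    have h2 := h1 (bs' i)
    rw [Finset.sum_eq_single i] at h2
    · simpa using h2
    · intro j _ hj
      rw [bs'.repr_self, Finsupp.single_eq_of_ne hj, mul_zero]
    · intro h
      exact absurd (Finset.mem_univ i) h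
  · intro i
    have h1 : V ≤ degreeLT ℚ D := by
      refine Submodule.span_le.2 ?_
      rintro _ ⟨l, rfl⟩
      rw [SetLike.mem_coe, mem_degreeLT]
      by_cases h0 : Q l = 0
      · rw [h0, degree_zero]
        exact WithBot.bot_lt_coe _
      · rw [degree_eq_natDegree h0]
        exact_mod_cast hQD l
    have h2 := h1 (bs' i).2
    rw [mem_degreeLT] at h2
    have h3 : ((bs' i : V) : ℚ[X]).natDegree < D := by
      by_cases h0 : ((bs' i : V) : ℚ[X]) = 0
      · rw [h0, natDegree_zero]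
        exact hD
      · exact (natDegree_lt_iff_degree_lt h0).2 h2
    exact h3

/-! ### reflection and shift -/

lemma zt_refl (ν : ℕ) (x : ℚ) (b : ℕ) (f : ℚ[X])
    (h : (X - C x) ^ (b + 1) ∣ f.comp (yp (2 * ν + 1))) :
    (X - C (-(2 * ν : ℚ) - x)) ^ (b + 1) ∣ f.comp (yp (2 * ν + 1)) := by
  obtain ⟨g, hg⟩ := h
  set ι : ℚ[X] := C (-(2 * ν : ℚ)) - X with hι
  have h1 : (yp (2 * ν + 1)).comp ι = yp (2 * ν + 1) := by
    unfold yp
    rw [mul_comp, add_comp, X_comp, C_comp, hι]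
    have h2 : ((2 * ν + 1 : ℕ) : ℚ) - 1 = 2 * ν := by push_cast; ring
    rw [h2]
    simp only [map_neg]
    ring
  have h2 : f.comp (yp (2 * ν + 1)) = ((X - C x) ^ (b + 1) * g).comp ι := by
    rw [← hg, comp_assoc, h1]
  rw [h2, mul_comp, pow_comp, sub_comp, X_comp, C_comp]
  have h3 : ι - C x = -(X - C (-(2 * ν : ℚ) - x)) := by
    rw [hι]
    simp only [map_sub, map_neg]
    ring
  rw [h3, neg_pow]
  exact ⟨(-1) ^ (b + 1) * g.comp ι, by ring⟩

lemma zt_shift (j : ℕ) (x : ℚ) (b : ℕ) (f : ℚ[X]) (h : (X - C (x - j)) ^ (b + 1) ∣ f) :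
    (X - C x) ^ (b + 1) ∣ sh j f := by
  obtain ⟨g, rfl⟩ := h
  unfold sh
  rw [mul_comp, pow_comp, sub_comp, X_comp, C_comp]
  refine ⟨g.comp (X - C (j : ℚ)), ?_⟩
  congr 2
  simp only [map_sub]
  ring

lemma zt_sh_sum {m : ℕ} (j : ℕ) (a : Fin m → ℚ) (f : Fin m → ℚ[X]) :
    ∑ l, C (a l) * sh j (f l) = sh j (∑ l, C (a l) * f l) := by
  unfold sh
  have h := map_sum (compRingHom (X - C (j : ℚ))) (fun l => C (a l) * f l) Finset.univ
  simp only [coe_compRingHom_apply, mul_comp, C_comp] at h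
  exact h.symm

/-- the zeros of the `fe` -/
lemma zt_van {m : ℕ} {b B ν L : ℕ} {w : Fin m → ℕ → ℤ} {Q : Fin m → ℚ[X]} (hV : Van b B ν L w Q)
    {e : ℕ} (he : 2 ≤ e) (heB : e ≤ B) {u : ℤ} (hu : IsCoprime u (e : ℤ)) (h1 : -((e : ℤ) * L) < u)
    (h2 : u < e * L) :
    (X - C ((u : ℚ) / e - ν)) ^ (b + 1) ∣ (fe B w Q e).comp (yp (2 * ν + 1)) := by
  rcases le_or_gt 0 u with h0 | h0
  · obtain ⟨u', rfl⟩ := Int.eq_ofNat_of_zero_le h0
    have h3 := hV e he heB u' (by exact_mod_cast h2) (Nat.isCoprime_iff_coprime.1 hu)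
    simpa using h3
  · obtain ⟨u', hu'⟩ := Int.eq_ofNat_of_zero_le (show 0 ≤ -u by omega)
    have hu2 : u = -(u' : ℤ) := by omega
    subst hu2
    have h3 := hV e he heB u' (by
      have : (u' : ℤ) < e * L := by linarith
      exact_mod_cast this) (Nat.isCoprime_iff_coprime.1 (IsCoprime.neg_left_iff _ _ |>.1 hu))
    have h4 := zt_refl ν _ b _ h3
    have h5 : -(2 * ν : ℚ) - ((u' : ℚ) / e - ν) = ((-(u' : ℤ) : ℤ) : ℚ) / e - ν := by
      push_cast
      ring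
    rw [h5] at h4
    exact h4

lemma zt_NN_le (B : ℕ) {m : ℕ} (c : Fin m → ℕ → ℚ) : NN B c ≤ B ^ 2 := by
  classical
  unfold NN su
  calc _ ≤ ∑ e ∈ Finset.Icc 2 B, e.totient :=
        Finset.sum_le_sum_of_subset (Finset.filter_subset _ _)
    _ ≤ ∑ _e ∈ Finset.Icc 2 B, B := Finset.sum_le_sum (fun e he =>
        (Nat.totient_le e).trans (Finset.mem_Icc.1 he).2)
    _ = (B + 1 - 2) * B := by simp
    _ ≤ B * B := Nat.mul_le_mul_right _ (by omega)
    _ = B ^ 2 := by ring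

/-- the degree inequality -/
lemma zt_ineq {m m1 D b N N1 L μ h B G n : ℕ} (hm1 : 1 ≤ m1) (hmm : m1 ≤ m) (hmL : m ≤ L)
    (hmn : m1 < n) (hN1 : N1 ≤ B ^ 2) (hsl : m1 * N ≤ m * N1)
    (h1 : m * D ≤ (b + 1) * (N * L) + μ + m)
    (h2 : μ + h * m + 2 * ((b + 1) * (B ^ 2 * m)) + m ≤ G)
    (h3 : 2 * D + 2 * G + 3 ≤ n * (2 * h)) (hD : 1 ≤ D) :
    m1 * (2 * D - 2) + (n * (2 * h) - 2 * G - 3) + m1 * (2 * ((b + 1) * B ^ 2)) <
      2 * h * (n - m1) + (b + 1) * (N1 * (2 * L - m1)) := by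
  have hm : 0 < m := by omega
  have k1 : m1 * D ≤ (b + 1) * (N1 * L) + μ + m := by
    refine Nat.le_of_mul_le_mul_left ?_ hm
    calc m * (m1 * D) = m1 * (m * D) := by ring
      _ ≤ m1 * ((b + 1) * (N * L) + μ + m) := Nat.mul_le_mul_left _ h1
      _ = (b + 1) * L * (m1 * N) + m1 * (μ + m) := by ring
      _ ≤ (b + 1) * L * (m * N1) + m * (μ + m) := by gcongr
      _ = m * ((b + 1) * (N1 * L) + μ + m) := by ring
  zify [show 2 ≤ 2 * D by omega, show m1 ≤ n by omega, show m1 ≤ 2 * L by omega,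
    show 2 * G ≤ n * (2 * h) by omega, show 3 ≤ n * (2 * h) - 2 * G by omega] at *
  have q1 : (m1 : ℤ) * (2 * D) ≤ 2 * ((b + 1) * (N1 * L)) + 2 * μ + 2 * m := by linarith
  have q2 : (h : ℤ) * m1 ≤ h * m := by
    exact mul_le_mul_of_nonneg_left hmm (by positivity)
  have q3 : ((b : ℤ) + 1) * (B ^ 2 * m1) ≤ (b + 1) * (B ^ 2 * m) := by gcongr
  have q4 : ((b : ℤ) + 1) * (N1 * m1) ≤ (b + 1) * (B ^ 2 * m) := by
    have : (N1 : ℤ) * m1 ≤ B ^ 2 * m := by gcongr
    gcongr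
  have q5 : (0 : ℤ) ≤ (b + 1) * (B ^ 2 * m) := by positivity
  nlinarith

/-! ### linearity -/

lemma zt_Cd_sum {m m1 : ℕ} (B : ℕ) (w : Fin m → ℕ → ℤ) (a : Fin m1 → Fin m → ℚ) (i : Fin m1)
    (e : ℕ) : Cd B (fun d => ∑ l, a i l * (w l d : ℚ)) e =
      ∑ l, a i l * Cd B (fun d => (w l d : ℚ)) e := by
  unfold Cd
  rw [Finset.sum_comm]
  exact Finset.sum_congr rfl (fun l _ => (Finset.mul_sum _ _ _).symm)

lemma zt_comb {m m1 : ℕ} (t : Fin m → ℚ) (a : Fin m1 → Fin m → ℚ) (Q : Fin m → ℚ[X])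
    (Q' : Fin m1 → ℚ[X]) (hQ : ∀ l, Q l = ∑ i, C (a i l) * Q' i) :
    ∑ l, C (t l) * Q l = ∑ i, C (∑ l, a i l * t l) * Q' i := by
  have h1 : ∀ l, C (t l) * Q l = ∑ i, C (a i l * t l) * Q' i := by
    intro l
    rw [hQ l, Finset.mul_sum]
    refine Finset.sum_congr rfl (fun i _ => ?_)
    rw [C_mul]
    ring
  rw [Finset.sum_congr rfl (fun l _ => h1 l), Finset.sum_comm]
  refine Finset.sum_congr rfl (fun i _ => ?_)
  rw [map_sum, Finset.sum_mul]

theorem t_zt (hZE : S_ZE) (hT : S_TELE) (hD : S_DUAL) (hR : S_REC) (hS : S_SYM) (hNo : S_NOD) :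
    S_ZT := by
  intro z b B m h ν L D μ G w Q hb hb2 hh hB hmB hmL hmν hSlp hQ0 hQD hVan h1 h2 h3
  by_contra hcon
  push Not at hcon
  set n : ℕ := 2 * ν + 1 with hn
  obtain ⟨hind, hzero, hslope⟩ := hSlp
  -- step 1
  have hsym := hS z n h b B G (Pv w Q) (by omega) hh hcon
  obtain ⟨A, hAdeg, hA⟩ := hD n h (2 * G + 1) (Es z n h b B (Pv w Q)) (by omega) hh (by omega) hsym
  -- step 2
  obtain ⟨m1, Q', a, hm1, hm1m, hQ'ind, haind, hQQ', hQ'D⟩ := zt_basis Q hQ0 hQD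
  have hD1 : 1 ≤ D := le_trans (Nat.le_add_left _ _) (hQ'D ⟨0, hm1⟩)
  set c : Fin m1 → ℕ → ℚ := fun i d => ∑ l, a i l * (w l d : ℚ) with hc
  have hPv : ∀ d, Pv w Q d = ∑ i, C (c i d) * Q' i := by
    intro d
    unfold Pv
    have := zt_comb (fun l => (w l d : ℚ)) a Q Q' hQQ'
    exact this
  have hfe : ∀ e, fe B w Q e = ∑ i, C (Cd B (c i) e) * Q' i := by
    intro e
    unfold fe
    rw [zt_comb (fun l => Cd B (fun d => (w l d : ℚ)) e) a Q Q' hQQ']
    refine Finset.sum_congr rfl (fun i _ => ?_)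
    rw [hc, zt_Cd_sum]
  -- step 3
  obtain ⟨Nd, hNd1, hNd2⟩ := hNo (su B c) ν L m1 (fun e he => by
    classical
    unfold su at he
    exact (Finset.mem_Icc.1 (Finset.mem_filter.1 he).1).1) (by omega)
  have hN1 : (∑ e ∈ su B c, e.totient) = NN B c := rfl
  rw [hN1] at hNd1
  have hze := hZE m1 n (2 * h) b (2 * ((b + 1) * B ^ 2)) (2 * D - 2) (n * (2 * h) - 2 * G - 3)
    (fun i => (Q' i).comp (yp n)) A (Pi1 n b B)
    (fun i => ∑ d ∈ Finset.Icc 1 B, C (c i d) * eta n b B d)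
    (fun k i => ∑ d ∈ Finset.Icc 1 B, PowerSeries.C (c i d) * bs z n h b d k) Nd
  have hlin : LinearIndependent ℚ (fun i => (Q' i).comp (yp n)) := by
    have h4 := hQ'ind.map' (aeval (yp n) : ℚ[X] →ₐ[ℚ] ℚ[X]).toLinearMap (by
      rw [LinearMap.ker_eq_bot']
      intro p hp
      have h5 : p.comp (yp n) = 0 := by
        rw [← hp]
        simp [aeval_def, comp, eval₂_eq_eval_map, algebraMap_eq]
      by_contra hp0
      rcases comp_eq_zero_iff.1 h5 with h6 | ⟨_, h6⟩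
      · exact hp0 h6
      · have h7 := zt_yp_deg n
        rw [h6, natDegree_C] at h7
        omega)
    have h6 : (fun i => (Q' i).comp (yp n)) =
        ⇑((aeval (yp n) : ℚ[X] →ₐ[ℚ] ℚ[X]).toLinearMap) ∘ Q' := by
      funext i
      simp [aeval_def, comp, eval₂_eq_eval_map, algebraMap_eq]
    rw [h6]
    exact h4
  have hA2 : A.natDegree ≤ n * (2 * h) - 2 * G - 3 := by omega
  have hdegQ : ∀ i, ((Q' i).comp (yp n)).natDegree ≤ 2 * D - 2 := by
    intro i
    rw [natDegree_comp, zt_yp_deg]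
    have := hQ'D i
    omega
  have hdegeta : ∀ i, (∑ d ∈ Finset.Icc 1 B, C (c i d) * eta n b B d).natDegree ≤
      2 * ((b + 1) * B ^ 2) := by
    intro i
    refine natDegree_sum_le_of_forall_le _ _ (fun d hd => ?_)
    exact (natDegree_C_mul_le _ _).trans (zt_deg_eta n b B d hd)
  have hEs : ∀ k, Es z n h b B (Pv w Q) k = ∑ i, TS (-(k : ℚ)) ((Q' i).comp (yp n)) *
      ∑ d ∈ Finset.Icc 1 B, PowerSeries.C (c i d) * bs z n h b d k := by
    intro k
    unfold Es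
    have h4 : ∀ d, TS (-(k : ℚ)) ((Pv w Q d).comp (yp n)) * bs z n h b d k =
        ∑ i, TS (-(k : ℚ)) ((Q' i).comp (yp n)) * (PowerSeries.C (c i d) * bs z n h b d k) := by
      intro d
      rw [hPv d, sum_comp, map_sum, Finset.sum_mul]
      refine Finset.sum_congr rfl (fun i _ => ?_)
      rw [mul_comp, C_comp, map_mul, TS_C]
      ring
    rw [Finset.sum_congr rfl (fun d _ => h4 d), Finset.sum_comm]
    exact Finset.sum_congr rfl (fun i _ => (Finset.mul_sum _ _ _).symm)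
  obtain ⟨u, v, hv, huv⟩ := hze hlin (zt_Pi1_ne n b B) hdegQ (by omega) hA2 (zt_deg_Pi1 n b B)
    hdegeta (by omega)
    (fun k hk => by
      have h4 := hA k hk
      rw [hEs k] at h4
      have h5 := (dvd_neg).2 h4
      rwa [neg_sub] at h5)
    (fun k hk i => by
      rw [← Finset.sum_sub_distrib, Finset.mul_sum, map_sum, ← Finset.sum_sub_distrib]
      refine Finset.dvd_sum (fun d hd => ?_)
      obtain ⟨hd1, hd2⟩ := Finset.mem_Icc.1 hd
      have h4 := hR z n h b B d k hb hh hd1 hd2 hk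
      have h5 : TS (-(k : ℚ)) (Pi1 n b B) * (PowerSeries.C (c i d) * bs z n h b d (k + 1) -
          PowerSeries.C (c i d) * bs z n h b d k) - TS (-(k : ℚ)) (C (c i d) * eta n b B d) =
          PowerSeries.C (c i d) * (TS (-(k : ℚ)) (Pi1 n b B) *
            (bs z n h b d (k + 1) - bs z n h b d k) - TS (-(k : ℚ)) (eta n b B d)) := by
        rw [map_mul, TS_C]
        ring
      rw [h5]
      exact Dvd.dvd.mul_left h4 _)
    (fun x hx => by
      classical
      obtain ⟨hx1, e, he, u', hu1, hu2, hu3, hxe⟩ := hNd2 x hx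
      unfold su at he
      obtain ⟨he1, i0, hi0⟩ := Finset.mem_filter.1 he
      obtain ⟨he2, he3⟩ := Finset.mem_Icc.1 he1
      refine ⟨fun k => ?_, fun i => Cd B (c i) e, fun h0 => hi0 (congrFun h0 i0), fun j hj => ?_⟩
      · have := hx1 (-(k : ℤ))
        push_cast at this
        exact this
      · rw [zt_sh_sum j (fun i => Cd B (c i) e) (fun i => (Q' i).comp (yp n))]
        have h5 : ∑ i, C (Cd B (c i) e) * (Q' i).comp (yp n) = (fe B w Q e).comp (yp n) := by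
          rw [hfe e, sum_comp]
          exact Finset.sum_congr rfl (fun i _ => by rw [mul_comp, C_comp])
        rw [h5]
        refine zt_shift j x b _ ?_
        have h6 : x - j = ((u' - j * e : ℤ) : ℚ) / e - ν := by
          have he0 : (e : ℚ) ≠ 0 := by exact_mod_cast (by omega : e ≠ 0)
          rw [hxe]
          push_cast
          field_simp
          ring
        rw [h6]
        have hj' : (j : ℤ) ≤ m1 := by exact_mod_cast hj
        have he0 : (0 : ℤ) < e := by exact_mod_cast (by omega : 0 < e)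
        refine zt_van hVan he2 he3 ?_ ?_ ?_
        · have h7 : u' - j * e = u' + (e : ℤ) * (-j) := by ring
          rw [h7]
          exact (IsCoprime.add_mul_left_left_iff).2 hu1
        · nlinarith
        · have : (0 : ℤ) ≤ j * e := by positivity
          linarith)
    (by
      rw [hNd1]
      exact zt_ineq hm1 hm1m hmL (by omega) (zt_NN_le B c) (hslope m1 a haind) h1 h2 h3 hD1)
  -- step 4
  have htele := hT n b B (c ⟨0, hm1⟩) hb hb2 (by omega) (by
    rw [hc]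
    simp only
    rw [Finset.sum_comm]
    refine Finset.sum_eq_zero (fun l _ => ?_)
    rw [← Finset.mul_sum]
    have h4 := hzero l
    have h5 : ∑ d ∈ Finset.Icc 1 B, (w l d : ℚ) = 0 := by exact_mod_cast h4
    rw [h5, mul_zero]) (u ⟨0, hm1⟩) v hv (huv ⟨0, hm1⟩)
  have ha0 : a ⟨0, hm1⟩ = 0 := by
    funext l
    refine Fintype.linearIndependent_iff.1 hind (a ⟨0, hm1⟩) ?_ l
    funext d
    rw [Finset.sum_apply]
    simp only [Pi.smul_apply, smul_eq_mul, Pi.zero_apply]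
    exact htele (d.1 + 1) (Finset.mem_Icc.2 ⟨by omega, by omega⟩)
  exact haind.ne_zero ⟨0, hm1⟩ ha0

end

end Pool.Agent.Y926.TW
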