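import Pool.Agent.Y926.TW.Stm

/-!
# The Casoratian of linearly independent polynomials does not vanish
-/

open Polynomial Pool.Agent.H337R2 Pool.Agent.W165.OZ Pool.Agent.Y926.LZ

namespace Pool.Agent.Y926.TW

noncomputable section

namespace CasJ

lemma sh_eval (j : ℕ) (q : ℚ[X]) (x : ℚ) : (sh j q).eval x = q.eval (x - j) := by
  simp [sh, eval_comp]

lemma sh_zero (q : ℚ[X]) : sh 0 q = q := by
  simp [sh]

lemma sh_mul (j : ℕ) (p q : ℚ[X]) : sh j (p * q) = sh j p * sh j q := by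
  simp [sh, mul_comp]

lemma sh_sum {ι : Type*} (j : ℕ) (I : Finset ι) (f : ι → ℚ[X]) :
    sh j (∑ l ∈ I, f l) = ∑ l ∈ I, sh j (f l) := by
  simp [sh, Polynomial.sum_comp]

lemma sh_sh (i : ℕ) (q : ℚ[X]) : sh 1 (sh i q) = sh (i + 1) q := by
  refine Polynomial.funext fun x => ?_
  rw [sh_eval, sh_eval, sh_eval]
  congr 1
  push_cast
  ring

lemma sh_comp (i : ℕ) (q : ℚ[X]) : (sh (i + 1) q).comp (X + 1) = sh i q := by
  refine Polynomial.funext fun x => ?_
  rw [eval_comp, sh_eval, sh_eval]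
  congr 1
  simp

lemma comp_zero' {s : ℚ[X]} (h : s.comp (X + 1) = 0) : s = 0 := by
  refine Polynomial.funext fun x => ?_
  have h1 := congrArg (eval (x - 1)) h
  rw [eval_comp] at h1
  simpa using h1

/-- periodic ratios are constant -/
lemma periodic {p q : ℚ[X]} (hq : q ≠ 0) (h : sh 1 q * p = q * sh 1 p) : ∃ κ : ℚ, p = C κ * q := by
  have hfin : {x : ℕ | q.eval (x : ℚ) = 0}.Finite := by
    have h1 : {x : ℚ | q.IsRoot x}.Finite := Polynomial.finite_setOfPred_isRoot hq
    exact h1.preimage (Nat.cast_injective.injOn)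
  obtain ⟨M, hM⟩ := hfin.bddAbove
  have hN : ∀ x : ℕ, M + 1 ≤ x → q.eval (x : ℚ) ≠ 0 := fun x hx h0 => by
    have := hM h0
    omega
  refine ⟨p.eval ((M + 1 : ℕ) : ℚ) / q.eval ((M + 1 : ℕ) : ℚ), ?_⟩
  set κ := p.eval ((M + 1 : ℕ) : ℚ) / q.eval ((M + 1 : ℕ) : ℚ) with hκ
  have h2 : ∀ k : ℕ, p.eval ((M + 1 + k : ℕ) : ℚ) = κ * q.eval ((M + 1 + k : ℕ) : ℚ) := by
    intro k
    induction k with
    | zero =>
      rw [hκ, add_zero]
      exact (div_mul_cancel₀ _ (hN _ le_rfl)).symm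
    | succ k ih =>
      have h3 := congrArg (eval ((M + 1 + (k + 1) : ℕ) : ℚ)) h
      rw [eval_mul, eval_mul, sh_eval, sh_eval] at h3
      have h4 : ((M + 1 + (k + 1) : ℕ) : ℚ) - ((1 : ℕ) : ℚ) = ((M + 1 + k : ℕ) : ℚ) := by
        push_cast; ring
      rw [h4, ih] at h3
      have h5 := hN (M + 1 + k) (by omega)
      apply mul_left_cancel₀ h5
      rw [h3]
      ring
  refine Polynomial.eq_of_infinite_eval_eq _ _ ?_
  have h6 : Set.range (fun k : ℕ => ((M + 1 + k : ℕ) : ℚ)) ⊆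
      {x | eval x p = eval x (C κ * q)} := by
    rintro _ ⟨k, rfl⟩
    show eval _ p = eval _ (C κ * q)
    rw [eval_mul, eval_C]
    exact h2 k
  refine Set.Infinite.mono h6 (Set.infinite_range_of_injective ?_)
  intro a b hab
  have : M + 1 + a = M + 1 + b := Nat.cast_injective hab
  omega

lemma aux {ι : Type} [DecidableEq ι] (n : ℕ) : ∀ (I : Finset ι) (Q p : ι → ℚ[X]), I.card = n →
    (∀ c : ι → ℚ, ∑ l ∈ I, C (c l) * Q l = 0 → ∀ l ∈ I, c l = 0) →
    (∀ j < n, ∑ l ∈ I, sh j (Q l) * p l = 0) → ∀ l ∈ I, p l = 0 := by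
  induction n with
  | zero =>
    intro I Q p hI _ _ l hl
    rw [Finset.card_eq_zero.1 hI] at hl
    simp at hl
  | succ n ih =>
    intro I Q p hI hQ hE
    by_contra hcon
    push Not at hcon
    obtain ⟨l0, hl0, hp0⟩ := hcon
    set s : ι → ℚ[X] := fun l => sh 1 (p l0) * p l - p l0 * sh 1 (p l) with hs
    have hs0 : s l0 = 0 := by simp only [hs]; ring
    have hsum : ∀ i < n, ∑ l ∈ I.erase l0, sh i (Q l) * (s l).comp (X + 1) = 0 := by
      intro i hi
      have e1 := hE (i + 1) (by omega)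
      have e2 : ∑ l ∈ I, sh (i + 1) (Q l) * sh 1 (p l) = 0 := by
        have h1 := congrArg (sh 1) (hE i (by omega))
        rw [sh_sum] at h1
        simp only [sh_mul, sh_sh] at h1
        rw [h1]
        simp [sh]
      have e3 : ∑ l ∈ I, sh (i + 1) (Q l) * s l = 0 := by
        have h1 : ∑ l ∈ I, sh (i + 1) (Q l) * s l =
            sh 1 (p l0) * ∑ l ∈ I, sh (i + 1) (Q l) * p l -
              p l0 * ∑ l ∈ I, sh (i + 1) (Q l) * sh 1 (p l) := by
          rw [Finset.mul_sum, Finset.mul_sum, ← Finset.sum_sub_distrib]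
          exact Finset.sum_congr rfl fun l _ => by simp only [hs]; ring
        rw [h1, e1, e2]
        ring
      rw [← Finset.add_sum_erase _ _ hl0, hs0, mul_zero, zero_add] at e3
      have h2 := congrArg (fun q : ℚ[X] => q.comp (X + 1)) e3
      simp only [Polynomial.sum_comp, mul_comp, sh_comp, zero_comp] at h2
      exact h2
    have hJ : ∀ l ∈ I.erase l0, (s l).comp (X + 1) = 0 := by
      refine ih (I.erase l0) Q _ (by rw [Finset.card_erase_of_mem hl0, hI]; rfl) ?_ hsum
      intro c hc l hl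
      have h1 := hQ (Function.update c l0 0) (by
        rw [← Finset.add_sum_erase _ _ hl0, Function.update_self, map_zero, zero_mul, zero_add,
          ← hc]
        exact Finset.sum_congr rfl fun l hl => by
          rw [Function.update_of_ne (Finset.ne_of_mem_erase hl)]) l (Finset.mem_of_mem_erase hl)
      rwa [Function.update_of_ne (Finset.ne_of_mem_erase hl)] at h1
    have hsl : ∀ l ∈ I, s l = 0 := by
      intro l hl
      by_cases h : l = l0
      · rw [h, hs0]
      · exact comp_zero' (hJ l (Finset.mem_erase.2 ⟨h, hl⟩))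
    have hκ : ∀ l : ι, ∃ κ : ℚ, l ∈ I → p l = C κ * p l0 := by
      intro l
      by_cases hl : l ∈ I
      · obtain ⟨κ, hκ⟩ := periodic hp0 (sub_eq_zero.1 (hsl l hl))
        exact ⟨κ, fun _ => hκ⟩
      · exact ⟨0, fun h => absurd h hl⟩
    choose κ hκ using hκ
    have h0 := hE 0 (by omega)
    have h1 : (∑ l ∈ I, C (κ l) * Q l) * p l0 = 0 := by
      rw [← h0, Finset.sum_mul]
      refine Finset.sum_congr rfl fun l hl => ?_
      rw [sh_zero, hκ l hl]
      ring
    have h2 := hQ κ ((mul_eq_zero.1 h1).resolve_right hp0) l0 hl0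
    apply hp0
    rw [hκ l0 hl0, h2, map_zero, zero_mul]

end CasJ

theorem t_cas : S_CAS := by
  intro m Q hQ p hE
  funext l
  refine CasJ.aux m Finset.univ Q p (by simp) ?_ hE l (Finset.mem_univ l)
  intro c hc l _
  refine Fintype.linearIndependent_iff.1 hQ c ?_ l
  rw [← hc]
  exact Finset.sum_congr rfl fun l _ => by rw [smul_eq_C_mul]

end

end Pool.Agent.Y926.TW
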