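import Pool.Agent.Y926.TW.Stm

/-!
# DUAL: duality for jets at the poles

A functional on the jets at the poles which vanishes on the polynomials of degree at most `G` is given by the jets of
a polynomial of small degree (Hermite interpolation and the sum of the residues).
-/

open Polynomial Pool.Agent.H337R2 Pool.Agent.W165.OZ Pool.Agent.Y926.LZ

namespace Pool.Agent.Y926.TW

noncomputable section

namespace DualJ

/-- the shift `X ↦ X + k` followed by the Taylor expansion at `-k` is the coercion -/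
lemma TS_comp (k : ℚ) (p : ℚ[X]) :
    TS (-k) (p.comp (X + C k)) = (p : PowerSeries ℚ) := by
  have h : (TS (-k)).comp (Polynomial.compRingHom (X + C k)) = Polynomial.coeToPowerSeries.ringHom := by
    apply Polynomial.ringHom_ext
    · intro a
      simp [TS_C]
    · simp only [RingHom.comp_apply, Polynomial.coe_compRingHom_apply, Polynomial.X_comp, TS_lin]
      simp
  have h2 := congrArg (fun φ : ℚ[X] →+* PowerSeries ℚ => φ p) h
  simpa using h2

lemma TS_self (k : ℚ) : TS (-k) (X + C k) = PowerSeries.X := by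
  rw [TS_lin]; simp

lemma dvd_TS {k : ℚ} {m : ℕ} {F : ℚ[X]} (hF : (X + C k) ^ m ∣ F) :
    (PowerSeries.X : PowerSeries ℚ) ^ m ∣ TS (-k) F := by
  obtain ⟨q, hq⟩ := hF
  refine ⟨TS (-k) q, ?_⟩
  rw [hq, map_mul, map_pow, TS_self]

/-- Hermite interpolation -/
lemma hermite (n m : ℕ) (E : ℕ → PowerSeries ℚ) :
    ∃ A : ℚ[X], ∀ k < n, (PowerSeries.X : PowerSeries ℚ) ^ m ∣ TS (-(k : ℚ)) A - E k := by
  obtain ⟨A, hA⟩ := Ideal.exists_forall_sub_mem_ideal
    (I := fun k : Fin n => Ideal.span {((X + C ((k : ℕ) : ℚ)) ^ m : ℚ[X])}) (by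
      intro i j hij
      have h1 : IsCoprime ((X + C ((i : ℕ) : ℚ)) ^ m) ((X + C ((j : ℕ) : ℚ)) ^ m) :=
        (coprime_lin (fun h => hij (Fin.ext h))).pow
      exact (Ideal.isCoprime_span_singleton_iff _ _).2 h1)
    (fun k : Fin n => (PowerSeries.trunc m (E k)).comp (X + C ((k : ℕ) : ℚ)))
  refine ⟨A, fun k hk => ?_⟩
  have h1 := hA ⟨k, hk⟩
  simp only at h1
  rw [Ideal.mem_span_singleton] at h1
  have h2 := dvd_TS h1
  rw [map_sub, TS_comp] at h2
  have h3 : (PowerSeries.X : PowerSeries ℚ) ^ m ∣ ((PowerSeries.trunc m (E k) : ℚ[X]) : PowerSeries ℚ) - E k := by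
    rw [PowerSeries.X_pow_dvd_iff]
    intro j hj
    rw [map_sub, Polynomial.coeff_coe, PowerSeries.coeff_trunc, if_pos hj, sub_self]
  have h4 := dvd_add h2 h3
  convert h4 using 1
  ring

/-- the sum of the residues is the coefficient of `X^(N-1)` -/
theorem residue_sum' (s : Finset ℕ) (μ : ℕ → ℕ) (P : ℚ[X])
    (hdeg : P.degree < (QQ s μ).degree) :
    ∑ k ∈ s, pa s μ P k 1 = P.coeff ((QQ s μ).natDegree - 1) := by
  have hid := pf_identity s μ P hdeg
  set N := (QQ s μ).natDegree with hN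
  have h1 : P.coeff (N - 1) = P.coeff (N - 1) := rfl
  conv_lhs at h1 => rw [hid, Polynomial.finsetSum_coeff]
  rw [← h1]
  apply Finset.sum_congr rfl
  intro k hk
  rw [Polynomial.finsetSum_coeff]
  have hNk : N = μ k + (QQ (s.erase k) μ).natDegree := by
    rw [hN, QQ_erase s μ hk, ((Polynomial.monic_X_add_C _).pow _).natDegree_mul (QQ_monic _ _),
      (Polynomial.monic_X_add_C _).natDegree_pow, Polynomial.natDegree_X_add_C, mul_one]
  have hterm : ∀ j ∈ Finset.range (μ k), (C (pfc s μ P k j) * (X + C (k : ℚ)) ^ j *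
      QQ (s.erase k) μ).coeff (N - 1) = if j = μ k - 1 then pfc s μ P k j else 0 := by
    intro j hj
    rw [Finset.mem_range] at hj
    rw [mul_assoc, Polynomial.coeff_C_mul]
    have hm : ((X + C (k : ℚ)) ^ j * QQ (s.erase k) μ).Monic :=
      ((Polynomial.monic_X_add_C _).pow _).mul (QQ_monic _ _)
    have hnd : ((X + C (k : ℚ)) ^ j * QQ (s.erase k) μ).natDegree = j + (QQ (s.erase k) μ).natDegree := by
      rw [((Polynomial.monic_X_add_C _).pow _).natDegree_mul (QQ_monic _ _),
        (Polynomial.monic_X_add_C _).natDegree_pow, Polynomial.natDegree_X_add_C, mul_one]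
    by_cases hj2 : j = μ k - 1
    · rw [if_pos hj2]
      have : N - 1 = ((X + C (k : ℚ)) ^ j * QQ (s.erase k) μ).natDegree := by
        rw [hnd, hNk]; omega
      rw [this, hm.coeff_natDegree, mul_one]
    · rw [if_neg hj2, Polynomial.coeff_eq_zero_of_natDegree_lt, mul_zero]
      rw [hnd, hNk]; omega
  rw [Finset.sum_congr rfl hterm]
  by_cases h0 : μ k = 0
  · simp [pa, h0]
  · have : 1 ≤ μ k := by omega
    simp only [pa, this, if_true]
    rw [Finset.sum_eq_single (μ k - 1)]
    · simp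
    · intro j _ hj; simp [hj]
    · intro hj
      exfalso; apply hj; rw [Finset.mem_range]; omega

end DualJ

open DualJ

theorem t_dual : S_DUAL := by
  intro n h G E hn hh hG hF
  obtain ⟨A0, hA0⟩ := hermite n (2 * h) E
  have hN : (QQ (sP n) (mP h)).natDegree = n * (2 * h) := natDegree_QQ n h
  have hNpos : 2 ≤ n * (2 * h) := by nlinarith
  set A : ℚ[X] := A0 %ₘ QQ (sP n) (mP h) with hAdef
  have hA : ∀ k < n, (PowerSeries.X : PowerSeries ℚ) ^ (2 * h) ∣ TS (-(k : ℚ)) A - E k := by
    intro k hk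
    have h1 : (X + C (k : ℚ)) ^ (2 * h) ∣ A0 - A := by
      have h2 : A0 - A = QQ (sP n) (mP h) * (A0 /ₘ QQ (sP n) (mP h)) := by
        have := Polynomial.modByMonic_add_div A0 (QQ (sP n) (mP h))
        rw [hAdef]
        linear_combination -this
      rw [h2, QQ_erase (sP n) (mP h) (Finset.mem_range.2 hk), mul_assoc]
      exact dvd_mul_right _ _
    have h3 := dvd_TS h1
    rw [map_sub] at h3
    have h4 := dvd_sub (hA0 k hk) h3
    convert h4 using 1
    ring
  have hAdeg : A.natDegree < n * (2 * h) := by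
    rw [← hN]
    apply Polynomial.natDegree_modByMonic_lt _ (QQ_monic _ _)
    intro h1
    rw [h1, Polynomial.natDegree_one] at hN
    omega
  refine ⟨A, ?_, hA⟩
  by_contra hcon
  push Not at hcon
  have hA1 : A ≠ 0 := by
    intro h0
    rw [h0, Polynomial.natDegree_zero] at hcon
    omega
  set a := A.natDegree with ha
  set F : ℚ[X] := X ^ (n * (2 * h) - 1 - a) with hFdef
  have hFdeg : F.natDegree = n * (2 * h) - 1 - a := by
    rw [hFdef, Polynomial.natDegree_X_pow]
  have hPdeg : (F * A).natDegree = n * (2 * h) - 1 := by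
    rw [Polynomial.natDegree_mul (pow_ne_zero _ Polynomial.X_ne_zero) hA1, hFdeg, ← ha]
    omega
  have hdeg : (F * A).degree < (QQ (sP n) (mP h)).degree := by
    rw [Polynomial.degree_eq_natDegree (QQ_monic _ _).ne_zero, hN]
    refine lt_of_le_of_lt Polynomial.degree_le_natDegree ?_
    rw [hPdeg]
    exact_mod_cast (by omega)
  have hres := residue_sum' (sP n) (mP h) (F * A) hdeg
  have hlead : (F * A).coeff ((QQ (sP n) (mP h)).natDegree - 1) ≠ 0 := by
    rw [hN, ← hPdeg, Polynomial.coeff_natDegree, Polynomial.leadingCoeff_ne_zero]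
    exact mul_ne_zero (pow_ne_zero _ Polynomial.X_ne_zero) hA1
  apply hlead
  rw [← hres, ← hF F (by rw [hFdeg]; omega)]
  apply Finset.sum_congr rfl
  intro k hk
  rw [Finset.mem_range] at hk
  have h1 : pa (sP n) (mP h) (F * A) k 1 = pfc (sP n) (mP h) (F * A) k (2 * h - 1) := by
    unfold pa
    rw [if_pos (show 1 ≤ mP h k by show 1 ≤ 2 * h; omega)]
  rw [h1]
  unfold pfc
  have h2 : TS (-(k : ℚ)) (F * A) * VV ((sP n).erase k) (mP h) (-(k : ℚ)) =
      TS (-(k : ℚ)) F * VV ((sP n).erase k) (mP h) (-(k : ℚ)) * E k +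
      TS (-(k : ℚ)) F * VV ((sP n).erase k) (mP h) (-(k : ℚ)) * (TS (-(k : ℚ)) A - E k) := by
    rw [map_mul]; ring
  rw [h2, map_add]
  have h3 : PowerSeries.coeff (2 * h - 1) (TS (-(k : ℚ)) F * VV ((sP n).erase k) (mP h) (-(k : ℚ)) *
      (TS (-(k : ℚ)) A - E k)) = 0 := by
    have h4 : (PowerSeries.X : PowerSeries ℚ) ^ (2 * h) ∣
        TS (-(k : ℚ)) F * VV ((sP n).erase k) (mP h) (-(k : ℚ)) * (TS (-(k : ℚ)) A - E k) :=
      Dvd.dvd.mul_left (hA k hk) _
    rw [PowerSeries.X_pow_dvd_iff] at h4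
    exact h4 _ (by omega)
  rw [h3, add_zero]

end

end Pool.Agent.Y926.TW
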