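import Pool.Agent.Y926.TW.Stm2

/-!
# The size of the coefficients of the forms
-/

open Polynomial Pool.Agent.H337R2 Pool.Agent.W165.OZ Pool.Agent.Y926.LZ

namespace Pool.Agent.Y926.TW

noncomputable section

namespace RHOx

lemma Nm_sum_le {T : ℕ} {ρ : ℚ} (hρ : 0 ≤ ρ) {ι : Type*} (s : Finset ι) (A : ι → ℚ)
    (f : ι → PowerSeries ℚ) (hf : ∀ i ∈ s, Nm T ρ (f i) ≤ A i) :
    Nm T ρ (∑ i ∈ s, f i) ≤ ∑ i ∈ s, A i := by
  classical
  induction s using Finset.induction_on with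
  | empty =>
    rw [Finset.sum_empty, Finset.sum_empty]
    unfold Nm
    simp
  | insert a s ha ih =>
    rw [Finset.sum_insert ha, Finset.sum_insert ha]
    exact (Nm_add hρ _ _).trans (add_le_add (hf a (Finset.mem_insert_self _ _))
      (ih fun i hi => hf i (Finset.mem_insert_of_mem hi)))

/-- the bound of the basis -/
lemma Gb_bd {n k m T : ℕ} (hk : k < n) :
    Nm T 1 (TS (-(k : ℚ)) ((Gb n m).comp (yp n))) ≤ 216 ^ (m + n) := by
  have hn : 1 ≤ n := by omega
  have hn' : (1 : ℚ) ≤ n := by exact_mod_cast hn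
  have hk' : (k : ℚ) + 1 ≤ n := by exact_mod_cast hk
  have hk0 : (0 : ℚ) ≤ k := by positivity
  have h2 := Gb_le2 (n := n) (T := T) (B := 1) (m := m) (c := -(k : ℚ)) (c' := 2 * (n : ℚ)) hn
    le_rfl le_rfl (by linarith) (by linarith)
  have e : 54 * ((1 : ℕ) : ℚ) ^ 4 * (2 * (n : ℚ) / n) ^ 2 = 216 := by
    have h3 : (2 * (n : ℚ) / n) = 2 := by field_simp
    rw [h3]
    norm_num
  rw [e] at h2
  refine h2.trans (pow_le_pow_right₀ (by norm_num) ?_)
  have h4 : n * (m / n) ≤ m := Nat.mul_div_le m n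
  rw [Nat.mul_add, Nat.mul_one]
  omega

/-- the bound of the combinations -/
lemma Qv_bd {n k D T H : ℕ} {c : ℕ → ℤ} (hc : ∀ i, |c i| ≤ (H : ℤ)) (hk : k < n) :
    Nm T 1 (TS (-(k : ℚ)) ((Qv n D c).comp (yp n))) ≤ D * (H * 216 ^ (D + n)) := by
  have e : TS (-(k : ℚ)) ((Qv n D c).comp (yp n)) = ∑ i ∈ Finset.range D,
      PowerSeries.C ((c i : ℤ) : ℚ) * TS (-(k : ℚ)) ((Gb n i).comp (yp n)) := by
    unfold Qv
    rw [Polynomial.sum_comp, map_sum]
    refine Finset.sum_congr rfl fun i _ => ?_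
    rw [Polynomial.mul_comp, Polynomial.C_comp, map_mul, TS_C]
  rw [e]
  refine (Nm_sum_le zero_le_one (Finset.range D) (fun _ => (H : ℚ) * 216 ^ (D + n)) _ ?_).trans
    (le_of_eq ?_)
  · intro i hi
    rw [Finset.mem_range] at hi
    refine Nm_mul_le zero_le_one ?_ ((Gb_bd hk).trans (pow_le_pow_right₀ (by norm_num) (by omega)))
    rw [Nm_C]
    have h1 := hc i
    exact_mod_cast h1
  · rw [Finset.sum_const, Finset.card_range, nsmul_eq_mul]

end RHOx

open RHOx in
/-- RHO: the coefficients are not too large -/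
theorem t_rho : S_RHO := by
  intro n h D i j H c hn hj hc
  have hn' : (1 : ℚ) ≤ n := by exact_mod_cast hn
  have key : |rhoP n h (KP n h (Gb n i * Qv n D c)) j| ≤ (n : ℚ) * (4 ^ h * (8 * (n : ℚ)) *
      (D * H * 216 ^ (i + D + 2 * n)) * ((n : ℚ) * 4 ^ n) ^ (2 * h)) := by
    apply abs_rhoP_le
    intro k hk
    have h1 := Nm_mul_le (T := 2 * h) zero_le_one (Gb_bd (T := 2 * h) (m := i) hk)
      (Qv_bd (T := 2 * h) (D := D) hc hk)
    rw [← map_mul, ← Polynomial.mul_comp] at h1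
    have e1 : (216 : ℚ) ^ (i + n) * ((D : ℚ) * (H * 216 ^ (D + n))) =
        D * H * 216 ^ (i + D + 2 * n) := by
      have : i + D + 2 * n = (i + n) + (D + n) := by ring
      rw [this, pow_add]
      ring
    rw [e1] at h1
    have h2 := pa_le (h := h) (i := j) hk hj (c' := 2 * (n : ℚ)) le_rfl h1
    refine h2.trans ?_
    have h3 := fact_prod hk
    have h4 : 0 ≤ (n.factorial : ℚ) * ∏ k' ∈ (Finset.range n).erase k, (2 / |-(k : ℚ) + k'|) := by
      apply mul_nonneg (by positivity)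
      exact Finset.prod_nonneg fun _ _ => by positivity
    calc 4 ^ h * ((n.factorial : ℚ) ^ (2 * h) *
          (4 * (2 * (n : ℚ)) * (D * H * 216 ^ (i + D + 2 * n))) *
          (∏ k' ∈ (Finset.range n).erase k, (2 / |-(k : ℚ) + k'|)) ^ (2 * h))
        = 4 ^ h * (8 * (n : ℚ)) * (D * H * 216 ^ (i + D + 2 * n)) *
          ((n.factorial : ℚ) * ∏ k' ∈ (Finset.range n).erase k, (2 / |-(k : ℚ) + k'|)) ^ (2 * h) := by
          rw [mul_pow (n.factorial : ℚ)]
          ring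
      _ ≤ _ := by gcongr
  refine key.trans (le_of_eq ?_)
  ring

end

end Pool.Agent.Y926.TW
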