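import Pool.Agent.Y926.TW.Stm

/-!
# The zero estimate (job TW-ZE, helper407)

Proof of `S_ZE` from `S_CAS`: the determinant of the Casoratian type matrix vanishes by counting zeros.
-/

open Polynomial Pool.Agent.H337R2 Pool.Agent.W165.OZ Pool.Agent.Y926.LZ

namespace Pool.Agent.Y926.TW

noncomputable section

namespace ZE

/-- the shift as a ring homomorphism -/
def shh (j : ℕ) : ℚ[X] →+* ℚ[X] := Polynomial.compRingHom (X - C (j : ℚ))

theorem sh_eq (j : ℕ) (p : ℚ[X]) : sh j p = shh j p := rfl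

theorem sh_mul (j : ℕ) (p q : ℚ[X]) : sh j (p * q) = sh j p * sh j q := map_mul (shh j) p q

theorem sh_zero (p : ℚ[X]) : sh 0 p = p := by simp [sh]

theorem sh_sh (i j : ℕ) (p : ℚ[X]) : sh i (sh j p) = sh (i + j) p := by
  unfold sh
  rw [comp_assoc]
  congr 1
  simp only [sub_comp, X_comp, C_comp]
  push_cast
  rw [C_add]
  ring

theorem sh_inj {j : ℕ} {p : ℚ[X]} (h : sh j p = 0) : p = 0 := by
  have h1 : (sh j p).comp (X + C (j : ℚ)) = 0 := by rw [h, zero_comp]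
  unfold sh at h1
  rw [comp_assoc] at h1
  simpa using h1

theorem sh_prod {ι : Type} (j : ℕ) (s : Finset ι) (f : ι → ℚ[X]) :
    sh j (∏ i ∈ s, f i) = ∏ i ∈ s, sh j (f i) := map_prod (shh j) f s

theorem sh_sum {ι : Type} (j : ℕ) (s : Finset ι) (f : ι → ℚ[X]) :
    sh j (∑ i ∈ s, f i) = ∑ i ∈ s, sh j (f i) := map_sum (shh j) f s

theorem sh_ne {j : ℕ} {p : ℚ[X]} (h : p ≠ 0) : sh j p ≠ 0 := fun h' => h (sh_inj h')

theorem natDegree_sh (j : ℕ) (p : ℚ[X]) : (sh j p).natDegree = p.natDegree := by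
  unfold sh
  rw [natDegree_comp, natDegree_X_sub_C, mul_one]

theorem TS_sh (c : ℚ) (j : ℕ) (p : ℚ[X]) : TS c (sh j p) = TS (c - j) p := by
  have h : (TS c).comp (shh j) = TS (c - j) := by
    refine Polynomial.ringHom_ext ?_ ?_
    · intro a
      show TS c ((C a).comp _) = _
      rw [C_comp, TS_C, TS_C]
    · show TS c (X.comp _) = _
      rw [X_comp, map_sub, TS_X, TS_C, TS_X, map_sub]
      ring
  exact congrArg (fun f : ℚ[X] →+* PowerSeries ℚ => f p) h

theorem dvd_det {R : Type} [CommRing R] {N : ℕ} (M : Matrix (Fin N) (Fin N) R) (v : Fin N → R)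
    (d : R) (h : ∀ i, d ∣ (M.mulVec v) i) (j : Fin N) : d ∣ M.det * v j := by
  have h1 : (M.adjugate.mulVec (M.mulVec v)) j = M.det * v j := by
    rw [Matrix.mulVec_mulVec, Matrix.adjugate_mul, Matrix.smul_mulVec, Matrix.one_mulVec]
    rfl
  rw [← h1]
  show d ∣ ∑ i, M.adjugate j i * (M.mulVec v) i
  exact Finset.dvd_sum (fun i _ => Dvd.dvd.mul_left (h i) _)

theorem dvd_of_TS {T k : ℕ} {q : ℚ[X]} (h : (PowerSeries.X : PowerSeries ℚ) ^ T ∣ TS (-(k : ℚ)) q) :
    (X - C (-(k : ℚ))) ^ T ∣ q := by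
  have h1 : TS (-(k : ℚ)) q = ((taylor (-(k : ℚ)) q : ℚ[X]) : PowerSeries ℚ) := rfl
  rw [h1, PowerSeries.X_pow_dvd_iff] at h
  have h2 : (X : ℚ[X]) ^ T ∣ taylor (-(k : ℚ)) q := by
    rw [Polynomial.X_pow_dvd_iff]
    intro d hd
    have := h d hd
    rwa [Polynomial.coeff_coe] at this
  have h3 := _root_.map_dvd (taylorAlgHom (k : ℚ)) h2
  rw [map_pow] at h3
  have h4 : taylorAlgHom (k : ℚ) (taylor (-(k : ℚ)) q) = q := by
    show taylor (k : ℚ) (taylor (-(k : ℚ)) q) = q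
    rw [taylor_taylor, add_neg_cancel, taylor_zero]
  have h5 : taylorAlgHom (k : ℚ) (X : ℚ[X]) = X - C (-(k : ℚ)) := by
    show taylor (k : ℚ) X = _
    rw [taylor_X, C_neg, sub_neg_eq_add]
  rwa [h4, h5] at h3

section main

variable (m n T b c D DA : ℕ) (Q : Fin m → ℚ[X]) (A Pj : ℚ[X]) (η : Fin m → ℚ[X])

/-- product of the shifts -/
def Pm : ℚ[X] := ∏ i ∈ Finset.range m, sh i Pj

/-- the product with one factor left out -/
def Er (i : ℕ) : ℚ[X] := ∏ i' ∈ (Finset.range m).erase i, sh i' Pj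

/-- the numerators -/
def Hj (j : ℕ) (l : Fin m) : ℚ[X] := ∑ i ∈ Finset.range j, sh i (η l) * Er m Pj i

/-- the last column -/
def Lc (j : ℕ) : ℚ[X] := Pm m Pj * sh j A - ∑ l, sh j (Q l) * Hj m Pj η j l

/-- the matrix -/
def MM : Matrix (Fin (m + 1)) (Fin (m + 1)) ℚ[X] :=
  fun j => Fin.snoc (α := fun _ => ℚ[X]) (fun l : Fin m => sh j (Q l)) (Lc m Q A Pj η j)

theorem MM_cast (j : Fin (m + 1)) (l : Fin m) : MM m Q A Pj η j l.castSucc = sh j (Q l) := by
  unfold MM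
  rw [Fin.snoc_castSucc]

theorem MM_last (j : Fin (m + 1)) : MM m Q A Pj η j (Fin.last m) = Lc m Q A Pj η j := by
  unfold MM
  rw [Fin.snoc_last]

theorem Pm_eq {i : ℕ} (hi : i < m) : sh i Pj * Er m Pj i = Pm m Pj := by
  unfold Er Pm
  exact Finset.mul_prod_erase (Finset.range m) (fun i => sh i Pj) (Finset.mem_range.2 hi)

theorem Pm_ne (hPj : Pj ≠ 0) : Pm m Pj ≠ 0 :=
  Finset.prod_ne_zero_iff.2 fun _ _ => sh_ne hPj

/-- the telescoping congruence -/
theorem tele {β : ℕ → Fin m → PowerSeries ℚ}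
    (h2 : ∀ k, k + 1 < n → ∀ l, (PowerSeries.X : PowerSeries ℚ) ^ T ∣
      TS (-(k : ℚ)) Pj * (β (k + 1) l - β k l) - TS (-(k : ℚ)) (η l))
    (k : ℕ) (hk : k + m < n) (l : Fin m) (j : ℕ) (hj : j ≤ m) :
    (PowerSeries.X : PowerSeries ℚ) ^ T ∣
      TS (-(k : ℚ)) (Pm m Pj) * β (k + j) l - TS (-(k : ℚ)) (Pm m Pj) * β k l -
        TS (-(k : ℚ)) (Hj m Pj η j l) := by
  induction j with
  | zero => simp [Hj]
  | succ j ih =>
    have ih' := ih (by omega)
    have h3 := h2 (k + j) (by omega) l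
    have h4 : Hj m Pj η (j + 1) l = Hj m Pj η j l + sh j (η l) * Er m Pj j := by
      unfold Hj
      rw [Finset.sum_range_succ]
    have h5 : TS (-(k : ℚ)) (Pm m Pj) = TS (-((k + j : ℕ) : ℚ)) Pj * TS (-(k : ℚ)) (Er m Pj j) := by
      rw [← Pm_eq m Pj (i := j) (by omega), map_mul, TS_sh, ← neg_add', ← Nat.cast_add]
    have h6 : TS (-(k : ℚ)) (sh j (η l)) = TS (-((k + j : ℕ) : ℚ)) (η l) := by
      rw [TS_sh, ← neg_add', ← Nat.cast_add]
    have h7 : TS (-(k : ℚ)) (Pm m Pj) * β (k + (j + 1)) l - TS (-(k : ℚ)) (Pm m Pj) * β k l -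
        TS (-(k : ℚ)) (Hj m Pj η (j + 1) l) =
        (TS (-(k : ℚ)) (Pm m Pj) * β (k + j) l - TS (-(k : ℚ)) (Pm m Pj) * β k l -
        TS (-(k : ℚ)) (Hj m Pj η j l)) + TS (-(k : ℚ)) (Er m Pj j) *
          (TS (-((k + j : ℕ) : ℚ)) Pj * (β (k + j + 1) l - β (k + j) l) -
            TS (-((k + j : ℕ) : ℚ)) (η l)) := by
      rw [h4, map_add, map_mul, h6, h5, ← add_assoc]
      ring
    rw [h7]
    exact dvd_add ih' (Dvd.dvd.mul_left h3 _)

theorem fact1 {β : ℕ → Fin m → PowerSeries ℚ}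
    (h1 : ∀ k < n, (PowerSeries.X : PowerSeries ℚ) ^ T ∣
      ∑ l, TS (-(k : ℚ)) (Q l) * β k l - TS (-(k : ℚ)) A)
    (h2 : ∀ k, k + 1 < n → ∀ l, (PowerSeries.X : PowerSeries ℚ) ^ T ∣
      TS (-(k : ℚ)) Pj * (β (k + 1) l - β k l) - TS (-(k : ℚ)) (η l))
    (k : ℕ) (hk : k + m < n) : (X - C (-(k : ℚ))) ^ T ∣ (MM m Q A Pj η).det := by
  apply dvd_of_TS
  rw [RingHom.map_det]
  have h3 := dvd_det ((TS (-(k : ℚ))).mapMatrix (MM m Q A Pj η))
    (Fin.snoc (α := fun _ => PowerSeries ℚ) (fun l : Fin m => TS (-(k : ℚ)) (Pm m Pj) * β k l) (-1))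
    ((PowerSeries.X : PowerSeries ℚ) ^ T) (by
      intro j
      have hj : (j : ℕ) ≤ m := by omega
      have e1 : ((TS (-(k : ℚ))).mapMatrix (MM m Q A Pj η)).mulVec
          (Fin.snoc (α := fun _ => PowerSeries ℚ)
            (fun l : Fin m => TS (-(k : ℚ)) (Pm m Pj) * β k l) (-1)) j =
          TS (-(k : ℚ)) (Pm m Pj) * (∑ l, TS (-((k + (j : ℕ) : ℕ) : ℚ)) (Q l) * β (k + j) l -
            TS (-((k + (j : ℕ) : ℕ) : ℚ)) A) -
          ∑ l, TS (-((k + (j : ℕ) : ℕ) : ℚ)) (Q l) *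
            (TS (-(k : ℚ)) (Pm m Pj) * β (k + j) l - TS (-(k : ℚ)) (Pm m Pj) * β k l -
            TS (-(k : ℚ)) (Hj m Pj η j l)) := by
        have hsh : ∀ p : ℚ[X], TS (-(k : ℚ)) (sh j p) = TS (-((k + (j : ℕ) : ℕ) : ℚ)) p := by
          intro p
          rw [TS_sh, ← neg_add', ← Nat.cast_add]
        rw [Matrix.mulVec, dotProduct, Fin.sum_univ_castSucc]
        simp only [RingHom.mapMatrix_apply, Matrix.map_apply, MM_cast, MM_last, Fin.snoc_castSucc,
          Fin.snoc_last, hsh, Lc, map_sub, map_mul, map_sum]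
        rw [mul_sub, Finset.mul_sum]
        simp only [mul_sub, Finset.sum_sub_distrib]
        have e2 : ∑ x, TS (-((k + (j : ℕ) : ℕ) : ℚ)) (Q x) *
            (TS (-(k : ℚ)) (Pm m Pj) * β (k + j) x) =
            ∑ x, TS (-(k : ℚ)) (Pm m Pj) * (TS (-((k + (j : ℕ) : ℕ) : ℚ)) (Q x) * β (k + j) x) :=
          Finset.sum_congr rfl fun x _ => by ring
        rw [e2]
        ring
      rw [e1]
      refine dvd_sub (Dvd.dvd.mul_left (h1 (k + j) (by omega)) _) ?_
      exact Finset.dvd_sum fun l _ => Dvd.dvd.mul_left (tele m n T Pj η h2 k hk l j hj) _)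
    (Fin.last m)
  rw [Fin.snoc_last] at h3
  simpa using h3

theorem fact2 (x : ℚ) (a : Fin m → ℚ) (ha : a ≠ 0)
    (h : ∀ j ≤ m, (X - C x) ^ (b + 1) ∣ ∑ l, C (a l) * sh j (Q l)) :
    (X - C x) ^ (b + 1) ∣ (MM m Q A Pj η).det := by
  obtain ⟨l0, hl0⟩ := Function.ne_iff.1 ha
  have h3 := dvd_det (MM m Q A Pj η)
    (Fin.snoc (α := fun _ => ℚ[X]) (fun l : Fin m => C (a l)) 0) ((X - C x) ^ (b + 1)) (by
      intro j
      have e1 : (MM m Q A Pj η).mulVec (Fin.snoc (α := fun _ => ℚ[X])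
          (fun l : Fin m => C (a l)) 0) j = ∑ l, C (a l) * sh j (Q l) := by
        rw [Matrix.mulVec, dotProduct, Fin.sum_univ_castSucc]
        simp only [MM_cast, MM_last, Fin.snoc_castSucc, Fin.snoc_last, mul_zero, add_zero]
        exact Finset.sum_congr rfl fun l _ => mul_comm _ _
      rw [e1]
      exact h j (by omega)) l0.castSucc
  rw [Fin.snoc_castSucc] at h3
  have hu : IsUnit (C (a l0)) := Polynomial.isUnit_C.2 (isUnit_iff_ne_zero.2 hl0)
  exact (hu.dvd_mul_right).1 h3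

theorem natDegree_Hj (hPjc : Pj.natDegree ≤ c) (hη : ∀ l, (η l).natDegree ≤ c) (j : ℕ) (hj : j ≤ m)
    (l : Fin m) : (Hj m Pj η j l).natDegree ≤ m * c := by
  unfold Hj
  refine natDegree_sum_le_of_forall_le _ _ fun i hi => ?_
  have him : i < m := lt_of_lt_of_le (Finset.mem_range.1 hi) hj
  refine natDegree_mul_le.trans ?_
  have e1 : (Er m Pj i).natDegree ≤ (m - 1) * c := by
    unfold Er
    refine (natDegree_prod_le _ _).trans ?_
    refine (Finset.sum_le_card_nsmul _ _ c fun i' _ => ?_).trans ?_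
    · rw [natDegree_sh]; exact hPjc
    · rw [Finset.card_erase_of_mem (Finset.mem_range.2 him), Finset.card_range, smul_eq_mul]
  have e2 := hη l
  rw [natDegree_sh]
  obtain ⟨m', rfl⟩ : ∃ m', m = m' + 1 := ⟨m - 1, by omega⟩
  have e3 : (m' + 1 - 1) * c = m' * c := by congr 1
  rw [e3] at e1
  nlinarith

theorem natDegree_det (hQ : ∀ l, (Q l).natDegree ≤ D) (hD : D ≤ DA) (hA : A.natDegree ≤ DA)
    (hPjc : Pj.natDegree ≤ c) (hη : ∀ l, (η l).natDegree ≤ c) :
    (MM m Q A Pj η).det.natDegree ≤ m * D + DA + m * c := by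
  rw [Matrix.det_apply]
  refine natDegree_sum_le_of_forall_le _ _ fun σ _ => ?_
  refine (natDegree_smul_le _ _).trans ?_
  refine (natDegree_prod_le _ _).trans ?_
  rw [Fin.sum_univ_castSucc]
  have hPm : (Pm m Pj).natDegree ≤ m * c := by
    unfold Pm
    refine (natDegree_prod_le _ _).trans ?_
    refine (Finset.sum_le_card_nsmul _ _ c fun i' _ => ?_).trans ?_
    · rw [natDegree_sh]; exact hPjc
    · rw [Finset.card_range, smul_eq_mul]
  have e1 : ∑ i : Fin m, (MM m Q A Pj η (σ i.castSucc) i.castSucc).natDegree ≤ m * D := by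
    refine (Finset.sum_le_card_nsmul _ _ D fun i _ => ?_).trans ?_
    · show (MM m Q A Pj η (σ i.castSucc) i.castSucc).natDegree ≤ D
      rw [MM_cast, natDegree_sh]
      exact hQ i
    · rw [Finset.card_univ, Fintype.card_fin, smul_eq_mul]
  have e2 : (MM m Q A Pj η (σ (Fin.last m)) (Fin.last m)).natDegree ≤ DA + m * c := by
    show (MM m Q A Pj η (σ (Fin.last m)) (Fin.last m)).natDegree ≤ DA + m * c
    rw [MM_last]
    unfold Lc
    refine (natDegree_sub_le _ _).trans (max_le ?_ ?_)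
    · refine natDegree_mul_le.trans ?_
      rw [natDegree_sh]
      omega
    · refine natDegree_sum_le_of_forall_le _ _ fun l _ => ?_
      refine natDegree_mul_le.trans ?_
      rw [natDegree_sh]
      have h1 := natDegree_Hj m c Pj η hPjc hη (σ (Fin.last m)) (by omega) l
      have h2 := hQ l
      omega
  omega

theorem det_zero {β : ℕ → Fin m → PowerSeries ℚ} {Nd : Finset ℚ}
    (hQ : ∀ l, (Q l).natDegree ≤ D) (hD : D ≤ DA) (hA : A.natDegree ≤ DA)
    (hPjc : Pj.natDegree ≤ c) (hη : ∀ l, (η l).natDegree ≤ c)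
    (h1 : ∀ k < n, (PowerSeries.X : PowerSeries ℚ) ^ T ∣
      ∑ l, TS (-(k : ℚ)) (Q l) * β k l - TS (-(k : ℚ)) A)
    (h2 : ∀ k, k + 1 < n → ∀ l, (PowerSeries.X : PowerSeries ℚ) ^ T ∣
      TS (-(k : ℚ)) Pj * (β (k + 1) l - β k l) - TS (-(k : ℚ)) (η l))
    (h3 : ∀ x ∈ Nd, (∀ k : ℕ, x ≠ -(k : ℚ)) ∧ ∃ a : Fin m → ℚ, a ≠ 0 ∧
      ∀ j ≤ m, (X - C x) ^ (b + 1) ∣ ∑ l, C (a l) * sh j (Q l))
    (h4 : m * D + DA + m * c < T * (n - m) + (b + 1) * Nd.card) :
    (MM m Q A Pj η).det = 0 := by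
  classical
  by_contra hne
  have hcop : ∀ (x y : ℚ) (i j : ℕ), x ≠ y → IsCoprime ((X - C x) ^ i) ((X - C y) ^ j) := by
    intro x y i j hxy
    exact IsCoprime.pow (Polynomial.isCoprime_X_sub_C_of_isUnit_sub
      (isUnit_iff_ne_zero.2 (sub_ne_zero.2 hxy)))
  have d1 : ∏ k ∈ Finset.range (n - m), (X - C (-(k : ℚ))) ^ T ∣ (MM m Q A Pj η).det := by
    refine Finset.prod_dvd_of_coprime ?_ ?_
    · intro i _ j _ hij
      refine hcop _ _ _ _ ?_
      intro h
      exact hij (by exact_mod_cast neg_injective h)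
    · intro k hk
      exact fact1 m n T Q A Pj η h1 h2 k (by have := Finset.mem_range.1 hk; omega)
  have d2 : ∏ x ∈ Nd, (X - C x) ^ (b + 1) ∣ (MM m Q A Pj η).det := by
    refine Finset.prod_dvd_of_coprime ?_ ?_
    · intro i _ j _ hij
      exact hcop _ _ _ _ hij
    · intro x hx
      obtain ⟨_, a, ha, h5⟩ := h3 x hx
      exact fact2 m b Q A Pj η x a ha h5
  have d3 : IsCoprime (∏ k ∈ Finset.range (n - m), (X - C (-(k : ℚ))) ^ T)
      (∏ x ∈ Nd, (X - C x) ^ (b + 1)) := by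
    refine IsCoprime.prod_left fun k _ => IsCoprime.prod_right fun x hx => ?_
    exact hcop _ _ _ _ (fun h => (h3 x hx).1 k h.symm)
  have d4 := d3.mul_dvd d1 d2
  have hm1 : (∏ k ∈ Finset.range (n - m), ((X : ℚ[X]) - C (-(k : ℚ))) ^ T).Monic :=
    monic_prod_of_monic _ _ fun k _ => (monic_X_sub_C _).pow T
  have hm2 : (∏ x ∈ Nd, ((X : ℚ[X]) - C x) ^ (b + 1)).Monic :=
    monic_prod_of_monic _ _ fun k _ => (monic_X_sub_C _).pow (b + 1)
  have d5 := natDegree_le_of_dvd d4 hne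
  rw [hm1.natDegree_mul hm2, natDegree_prod_of_monic _ _ (fun k _ => (monic_X_sub_C _).pow T),
    natDegree_prod_of_monic _ _ (fun k _ => (monic_X_sub_C _).pow (b + 1))] at d5
  simp only [natDegree_pow, natDegree_X_sub_C, mul_one, Finset.sum_const, Finset.card_range,
    smul_eq_mul] at d5
  have d6 := natDegree_det m c D DA Q A Pj η hQ hD hA hPjc hη
  have d7 : (n - m) * T = T * (n - m) := mul_comm _ _
  have d8 : Nd.card * (b + 1) = (b + 1) * Nd.card := mul_comm _ _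
  omega

/-- the key identity -/
theorem key (hPj : Pj ≠ 0) (j : ℕ) (hj : j < m) (l : Fin m) :
    Pj * (Hj m Pj η (j + 1) l * sh 1 (Pm m Pj) - Pm m Pj * sh 1 (Hj m Pj η j l)) =
      η l * Pm m Pj * sh 1 (Pm m Pj) := by
  have h1 : Pm m Pj * sh 1 (Hj m Pj η j l) =
      ∑ i ∈ Finset.range j, sh (i + 1) (η l) * Er m Pj (i + 1) * sh 1 (Pm m Pj) := by
    unfold Hj
    rw [sh_sum, Finset.mul_sum]
    refine Finset.sum_congr rfl fun i hi => ?_
    have him : i + 1 < m := by have := Finset.mem_range.1 hi; omega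
    rw [sh_mul, sh_sh, Nat.add_comm 1 i]
    have e1 : sh (i + 1) Pj * Er m Pj (i + 1) = Pm m Pj := Pm_eq m Pj him
    have e2 : sh (i + 1) Pj * sh 1 (Er m Pj i) = sh 1 (Pm m Pj) := by
      rw [← Pm_eq m Pj (i := i) (by omega), sh_mul, sh_sh, Nat.add_comm 1 i]
    have e3 : sh (i + 1) Pj * (Pm m Pj * sh 1 (Er m Pj i)) =
        sh (i + 1) Pj * (Er m Pj (i + 1) * sh 1 (Pm m Pj)) := by
      calc sh (i + 1) Pj * (Pm m Pj * sh 1 (Er m Pj i))
          = Pm m Pj * (sh (i + 1) Pj * sh 1 (Er m Pj i)) := by ring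
        _ = (sh (i + 1) Pj * Er m Pj (i + 1)) * sh 1 (Pm m Pj) := by rw [e2, e1]
        _ = _ := by ring
    have e4 := mul_left_cancel₀ (sh_ne hPj) e3
    calc Pm m Pj * (sh (i + 1) (η l) * sh 1 (Er m Pj i))
        = sh (i + 1) (η l) * (Pm m Pj * sh 1 (Er m Pj i)) := by ring
      _ = _ := by rw [e4]; ring
  have h2 : Hj m Pj η (j + 1) l * sh 1 (Pm m Pj) =
      ∑ i ∈ Finset.range j, sh (i + 1) (η l) * Er m Pj (i + 1) * sh 1 (Pm m Pj) +
        η l * Er m Pj 0 * sh 1 (Pm m Pj) := by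
    unfold Hj
    rw [Finset.sum_mul, Finset.sum_range_succ', sh_zero]
  have h3 : Pj * Er m Pj 0 = Pm m Pj := by
    have := Pm_eq m Pj (i := 0) (by omega)
    rwa [sh_zero] at this
  rw [h1, h2, add_sub_cancel_left]
  calc Pj * (η l * Er m Pj 0 * sh 1 (Pm m Pj)) = η l * (Pj * Er m Pj 0) * sh 1 (Pm m Pj) := by ring
    _ = _ := by rw [h3]

end main

end ZE

open ZE in
/-- the zero estimate -/
theorem t_ze (hC : S_CAS) : S_ZE := by
  intro m n T b c D DA Q A Pj η β Nd hind hPj hQ hD hA hPjc hη _ h1 h2 h3 h4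
  have hdet := det_zero m n T b c D DA Q A Pj η hQ hD hA hPjc hη h1 h2 h3 h4
  obtain ⟨w, hw0, hw⟩ := Matrix.exists_mulVec_eq_zero_iff.2 hdet
  set s := w (Fin.last m) with hs
  have hE : ∀ j : ℕ, j ≤ m → ∑ l : Fin m, sh j (Q l) * w l.castSucc + Lc m Q A Pj η j * s = 0 := by
    intro j hj
    have h5 := congrFun hw (⟨j, by omega⟩ : Fin (m + 1))
    rw [Matrix.mulVec, dotProduct, Fin.sum_univ_castSucc] at h5
    simp only [MM_cast, MM_last] at h5
    exact h5
  have hs0 : s ≠ 0 := by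
    intro h0
    have h6 := hC m Q hind (fun l => w l.castSucc) (by
      intro j hj
      have := hE j hj.le
      rwa [h0, mul_zero, add_zero] at this)
    apply hw0
    funext i
    refine Fin.lastCases ?_ (fun l => ?_) i
    · exact h0
    · exact congrFun h6 l
  set P := Pm m Pj with hP
  have hP0 : P ≠ 0 := Pm_ne m Pj hPj
  set v := s * P with hv
  have hv0 : v ≠ 0 := mul_ne_zero hs0 hP0
  refine ⟨fun l => - w l.castSucc, v, hv0, ?_⟩
  set u : Fin m → ℚ[X] := fun l => - w l.castSucc with hu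
  have hE2 : ∀ j : ℕ, j ≤ m → ∑ l : Fin m, sh j (Q l) * (u l + s * Hj m Pj η j l) = v * sh j A := by
    intro j hj
    have h5 := hE j hj
    unfold Lc at h5
    have e1 : ∑ l : Fin m, sh j (Q l) * (u l + s * Hj m Pj η j l) =
        - ∑ l : Fin m, sh j (Q l) * w l.castSucc + (∑ l, sh j (Q l) * Hj m Pj η j l) * s := by
      rw [Finset.sum_mul, ← Finset.sum_neg_distrib, ← Finset.sum_add_distrib]
      refine Finset.sum_congr rfl fun l _ => ?_
      simp only [hu]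
      ring
    rw [e1, hv]
    linear_combination -h5
  have hE3 : ∀ j : ℕ, j < m → ∑ l : Fin m, sh (j + 1) (Q l) *
      (sh 1 (u l) + sh 1 s * sh 1 (Hj m Pj η j l)) = sh 1 v * sh (j + 1) A := by
    intro j hj
    have h5 := congrArg (sh 1) (hE2 j hj.le)
    rw [sh_sum, sh_mul, sh_sh, Nat.add_comm 1 j] at h5
    rw [← h5]
    refine Finset.sum_congr rfl fun l _ => ?_
    rw [sh_mul, sh_sh, Nat.add_comm 1 j, ← sh_mul]
    congr 1
    exact (map_add (shh 1) (u l) (s * Hj m Pj η j l)).symm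
  set y : Fin m → ℚ[X] := fun l => Pj * (u l * sh 1 v - sh 1 (u l) * v) + η l * v * sh 1 v with hy
  have hy1 : ∀ j : ℕ, j < m → ∑ l : Fin m, sh (j + 1) (Q l) * y l = 0 := by
    intro j hj
    have h5 := hE2 (j + 1) hj
    have h6 := hE3 j hj
    have e1 : ∀ l, y l = Pj * ((u l + s * Hj m Pj η (j + 1) l) * sh 1 v -
        (sh 1 (u l) + sh 1 s * sh 1 (Hj m Pj η j l)) * v) := by
      intro l
      have hk := key m Pj η hPj j hj l
      rw [← hP] at hk
      simp only [hy]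
      have hv1 : sh 1 v = sh 1 s * sh 1 P := by rw [hv, sh_mul]
      rw [hv1, hv]
      linear_combination (-(s * sh 1 s)) * hk
    have e2 : ∑ l : Fin m, sh (j + 1) (Q l) * y l =
        Pj * (sh 1 v * ∑ l : Fin m, sh (j + 1) (Q l) * (u l + s * Hj m Pj η (j + 1) l) -
          v * ∑ l : Fin m, sh (j + 1) (Q l) * (sh 1 (u l) + sh 1 s * sh 1 (Hj m Pj η j l))) := by
      rw [Finset.mul_sum, Finset.mul_sum, ← Finset.sum_sub_distrib, Finset.mul_sum]
      refine Finset.sum_congr rfl fun l _ => ?_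
      rw [e1 l]
      ring
    rw [e2, h5, h6]
    ring
  have hy2 := hC m Q hind (fun l => (y l).comp (X + C 1)) (by
    intro j hj
    have h5 := congrArg (fun q : ℚ[X] => q.comp (X + C 1)) (hy1 j hj)
    simp only [zero_comp] at h5
    rw [← h5, ← Polynomial.coe_compRingHom_apply, map_sum]
    refine Finset.sum_congr rfl fun l _ => ?_
    rw [map_mul, Polynomial.coe_compRingHom_apply, Polynomial.coe_compRingHom_apply]
    congr 1
    unfold sh
    rw [comp_assoc]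
    congr 1
    simp only [sub_comp, X_comp, C_comp]
    push_cast
    rw [C_add]
    ring)
  intro l
  have h7 : (y l).comp (X + C 1) = 0 := congrFun hy2 l
  have h8 : y l = 0 := by
    have h9 : ((y l).comp (X + C 1)).comp (X - C 1) = 0 := by rw [h7, zero_comp]
    rw [comp_assoc] at h9
    simpa using h9
  exact h8

end

end Pool.Agent.Y926.TW
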