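import Mathlib

/-!
# Simultaneous approximation of the elements of a finite-dimensional rational vector space

The two theorems of this file are copied from `Pool/Agent/TH818/SA/Sub.lean` (helper818, starting files), in order to
avoid the import of the rest of that library.
-/

open Filter Topology

namespace Pool.Agent.Y926.TW

noncomputable section

/-- Dirichlet's theorem on simultaneous approximation -/
theorem dirichlet_sim (d : ℕ) (v : Fin d → ℝ) (Q : ℕ) (hQ : 1 ≤ Q) :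
    ∃ q : ℕ, 1 ≤ q ∧ q ≤ Q ^ d ∧ ∀ a, ∃ p : ℤ, |(q : ℝ) * v a - p| < 1 / Q := by
  have hQr : (0 : ℝ) < Q := by exact_mod_cast hQ
  have hfl : ∀ x : ℝ, ⌊(Q : ℝ) * Int.fract x⌋₊ < Q := by
    intro x
    rw [Nat.floor_lt (mul_nonneg hQr.le (Int.fract_nonneg x))]
    calc (Q : ℝ) * Int.fract x < Q * 1 := mul_lt_mul_of_pos_left (Int.fract_lt_one x) hQr
      _ = Q := mul_one _
  let f : Fin (Q ^ d + 1) → (Fin d → Fin Q) := fun t a => ⟨⌊(Q : ℝ) * Int.fract ((t.1 : ℝ) * v a)⌋₊, hfl _⟩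
  have hcard : Fintype.card (Fin d → Fin Q) < Fintype.card (Fin (Q ^ d + 1)) := by
    simp
  obtain ⟨t1, t2, hne, hf⟩ := Fintype.exists_ne_map_eq_of_card_lt f hcard
  have key : ∀ s t : Fin (Q ^ d + 1), s.1 < t.1 → f s = f t →
      ∃ q : ℕ, 1 ≤ q ∧ q ≤ Q ^ d ∧ ∀ a, ∃ p : ℤ, |(q : ℝ) * v a - p| < 1 / Q := by
    intro s t hst hfst
    refine ⟨t.1 - s.1, by omega, by have := t.2; omega, fun a => ?_⟩
    refine ⟨⌊(t.1 : ℝ) * v a⌋ - ⌊(s.1 : ℝ) * v a⌋, ?_⟩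
    have h1 := congrFun hfst a
    have h2 : ⌊(Q : ℝ) * Int.fract ((s.1 : ℝ) * v a)⌋₊ = ⌊(Q : ℝ) * Int.fract ((t.1 : ℝ) * v a)⌋₊ :=
      congrArg Fin.val h1
    have h3 : ((t.1 - s.1 : ℕ) : ℝ) = (t.1 : ℝ) - s.1 := by
      rw [Nat.cast_sub hst.le]
    have h4 : ((t.1 - s.1 : ℕ) : ℝ) * v a - ((⌊(t.1 : ℝ) * v a⌋ - ⌊(s.1 : ℝ) * v a⌋ : ℤ) : ℝ) =
        Int.fract ((t.1 : ℝ) * v a) - Int.fract ((s.1 : ℝ) * v a) := by
      rw [h3]
      unfold Int.fract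
      push_cast
      ring
    rw [h4]
    have h5 := Nat.floor_le (mul_nonneg hQr.le (Int.fract_nonneg ((s.1 : ℝ) * v a)))
    have h6 := Nat.lt_floor_add_one ((Q : ℝ) * Int.fract ((s.1 : ℝ) * v a))
    have h7 := Nat.floor_le (mul_nonneg hQr.le (Int.fract_nonneg ((t.1 : ℝ) * v a)))
    have h8 := Nat.lt_floor_add_one ((Q : ℝ) * Int.fract ((t.1 : ℝ) * v a))
    rw [← h2] at h7 h8
    have h9 : |(Int.fract ((t.1 : ℝ) * v a) - Int.fract ((s.1 : ℝ) * v a)) * Q| < 1 := by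
      rw [abs_lt]
      constructor
      · linarith
      · linarith
    rw [lt_div_iff₀ hQr]
    rwa [abs_mul, abs_of_pos hQr] at h9
  rcases lt_trichotomy t1.1 t2.1 with h | h | h
  · exact key t1 t2 h hf
  · exact absurd (Fin.ext h) hne
  · exact key t2 t1 h hf.symm

/-- finitely many elements of a subspace of dimension `≤ D` are simultaneously approximable -/
theorem sim_sub (V : Submodule ℚ ℝ) [FiniteDimensional ℚ V] (D : ℕ) (hD : Module.finrank ℚ V ≤ D)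
    (J : Finset ℕ) (x : ℕ → ℝ) (hx : ∀ i ∈ J, x i ∈ V) (q0 : ℕ) :
    ∃ q : ℕ, q0 ≤ q ∧ ∀ i ∈ J, ∃ p : ℤ, |(q : ℝ) * x i - p| < (q : ℝ) ^ (-(1 / ((D : ℝ) + 1))) := by
  classical
  obtain ⟨d, hd⟩ : ∃ d, d = Module.finrank ℚ V := ⟨_, rfl⟩
  let b := Module.finBasis ℚ V
  -- the coefficients
  have h1 : ∀ i, ∃ c : Fin (Module.finrank ℚ V) → ℚ, i ∈ J → x i = ∑ a, (c a : ℝ) * ((b a : V) : ℝ) := by
    intro i
    by_cases hi : i ∈ J
    · refine ⟨fun a => b.repr ⟨x i, hx i hi⟩ a, fun _ => ?_⟩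
      have h2 := b.sum_repr ⟨x i, hx i hi⟩
      have h3 := congrArg (Submodule.subtype V) h2
      rw [map_sum] at h3
      simp only [Submodule.subtype_apply, map_smul] at h3
      refine h3.symm.trans ?_
      refine Finset.sum_congr rfl fun a _ => ?_
      rw [Rat.smul_def]
    · exact ⟨0, fun h => absurd h hi⟩
  choose c hc using h1
  -- the common denominator
  obtain ⟨M0, hM0⟩ : ∃ M0 : ℕ, M0 = ∏ i ∈ J, ∏ a, (c i a).den := ⟨_, rfl⟩
  have hM0pos : 1 ≤ M0 := by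
    rw [hM0]
    refine Nat.one_le_iff_ne_zero.2 (Finset.prod_ne_zero_iff.2 fun i _ =>
      Finset.prod_ne_zero_iff.2 fun a _ => (c i a).den_nz)
  obtain ⟨M, hM⟩ : ∃ M : ℕ, M = M0 * (q0 + 1) := ⟨_, rfl⟩
  have hMq0 : q0 ≤ M := by
    rw [hM]
    have : 1 * (q0 + 1) ≤ M0 * (q0 + 1) := Nat.mul_le_mul_right _ hM0pos
    omega
  have hMpos : 1 ≤ M := by
    rw [hM]
    exact Nat.mul_pos (by omega) (by omega)
  have hint : ∀ i ∈ J, ∀ a, ∃ k : ℤ, (M : ℝ) * (c i a : ℝ) = k := by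
    intro i hi a
    have hdvd : (c i a).den ∣ M := by
      rw [hM, hM0]
      refine Dvd.dvd.mul_right ?_ _
      exact (Finset.dvd_prod_of_mem _ (Finset.mem_univ a)).trans
        (Finset.dvd_prod_of_mem (fun i => ∏ a, (c i a).den) hi)
    obtain ⟨e, he⟩ := hdvd
    refine ⟨e * (c i a).num, ?_⟩
    have h8 : (((c i a).den : ℕ) : ℚ) * c i a = (c i a).num := Rat.den_mul_eq_num (c i a)
    have h9 : (((c i a).den : ℕ) : ℝ) * (c i a : ℝ) = ((c i a).num : ℝ) := by exact_mod_cast h8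
    rw [he]
    push_cast
    rw [← h9]
    ring
  -- the size of the coefficients
  obtain ⟨S, hS⟩ : ∃ S : ℕ, ∀ i ∈ J, ∑ a, |(M : ℝ) * (c i a : ℝ)| ≤ S := by
    obtain ⟨S, hS⟩ := exists_nat_ge (∑ i ∈ J, ∑ a, |(M : ℝ) * (c i a : ℝ)|)
    refine ⟨S, fun i hi => le_trans ?_ hS⟩
    exact Finset.single_le_sum (f := fun i => ∑ a, |(M : ℝ) * (c i a : ℝ)|)
      (fun i _ => Finset.sum_nonneg fun _ _ => abs_nonneg _) hi
  obtain ⟨Q, hQ⟩ : ∃ Q : ℕ, Q = (S + 1) ^ (D + 1) * M + 1 := ⟨_, rfl⟩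
  have hQ1 : 1 ≤ Q := by omega
  obtain ⟨q, hq1, hq2, hq3⟩ := dirichlet_sim (Module.finrank ℚ V) (fun a => ((b a : V) : ℝ)) Q hQ1
  choose p hp using hq3
  refine ⟨M * q, ?_, fun i hi => ?_⟩
  · calc q0 ≤ M * 1 := by omega
      _ ≤ M * q := Nat.mul_le_mul_left M hq1
  choose k hk using hint i hi
  refine ⟨∑ a, k a * p a, ?_⟩
  have e1 : ((M * q : ℕ) : ℝ) * x i - ((∑ a, k a * p a : ℤ) : ℝ) =
      ∑ a, ((M : ℝ) * (c i a : ℝ)) * ((q : ℝ) * ((b a : V) : ℝ) - p a) := by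
    rw [hc i hi]
    push_cast
    rw [Finset.mul_sum, ← Finset.sum_sub_distrib]
    refine Finset.sum_congr rfl fun a _ => ?_
    rw [← hk a]
    ring
  have hQr : (0 : ℝ) < Q := by exact_mod_cast hQ1
  have e2 : |((M * q : ℕ) : ℝ) * x i - ((∑ a, k a * p a : ℤ) : ℝ)| ≤ ((S : ℝ) + 1) / Q := by
    rw [e1]
    calc |∑ a, ((M : ℝ) * (c i a : ℝ)) * ((q : ℝ) * ((b a : V) : ℝ) - p a)|
        ≤ ∑ a, |(M : ℝ) * (c i a : ℝ)| * (1 / Q) := by
          refine (Finset.abs_sum_le_sum_abs _ _).trans (Finset.sum_le_sum fun a _ => ?_)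
          rw [abs_mul]
          exact mul_le_mul_of_nonneg_left (hp a).le (abs_nonneg _)
      _ = (∑ a, |(M : ℝ) * (c i a : ℝ)|) * (1 / Q) := by rw [Finset.sum_mul]
      _ ≤ ((S : ℝ) + 1) * (1 / Q) := by
          have := hS i hi
          apply mul_le_mul_of_nonneg_right _ (by positivity)
          linarith
      _ = _ := by ring
  refine lt_of_le_of_lt e2 ?_
  -- comparison
  have hMqpos : (0 : ℝ) < ((M * q : ℕ) : ℝ) := by
    have : 0 < M * q := Nat.mul_pos (by omega) (by omega)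
    exact_mod_cast this
  have e3 : (((S : ℝ) + 1) / Q) ^ (D + 1) < (((M * q : ℕ) : ℝ))⁻¹ := by
    have f1 : ((M * q : ℕ) : ℝ) ≤ M * (Q : ℝ) ^ D := by
      have g1 : M * q ≤ M * Q ^ D :=
        Nat.mul_le_mul_left M (hq2.trans (Nat.pow_le_pow_right hQ1 hD))
      exact_mod_cast g1
    have f2 : ((S : ℝ) + 1) ^ (D + 1) * M < Q := by
      have g1 : (S + 1) ^ (D + 1) * M < Q := by omega
      exact_mod_cast g1
    rw [div_pow, div_lt_iff₀ (by positivity), ← div_eq_inv_mul, lt_div_iff₀ hMqpos]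
    calc ((S : ℝ) + 1) ^ (D + 1) * ((M * q : ℕ) : ℝ) ≤ ((S : ℝ) + 1) ^ (D + 1) * (M * (Q : ℝ) ^ D) :=
          mul_le_mul_of_nonneg_left f1 (by positivity)
      _ = (((S : ℝ) + 1) ^ (D + 1) * M) * (Q : ℝ) ^ D := by ring
      _ < Q * (Q : ℝ) ^ D := mul_lt_mul_of_pos_right f2 (by positivity)
      _ = (Q : ℝ) ^ (D + 1) := by ring
  have e4 : ((S : ℝ) + 1) / Q = ((((S : ℝ) + 1) / Q) ^ (D + 1)) ^ (1 / ((D : ℝ) + 1)) := by
    rw [← Real.rpow_natCast, ← Real.rpow_mul (by positivity)]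
    push_cast
    rw [mul_one_div_cancel (by positivity), Real.rpow_one]
  rw [e4]
  have e5 : ((M * q : ℕ) : ℝ) ^ (-(1 / ((D : ℝ) + 1))) = (((M * q : ℕ) : ℝ)⁻¹) ^ (1 / ((D : ℝ) + 1)) := by
    rw [Real.rpow_neg hMqpos.le, Real.inv_rpow hMqpos.le]
  rw [e5]
  exact Real.rpow_lt_rpow (by positivity) e3 (by positivity)

end

end Pool.Agent.Y926.TW
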