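import Pool.Agent.Y926.TW.Main
import Pool.Agent.Y926.TW.Sim

/-!
# Distances of odd zeta values to finitely generated groups of real numbers
-/

open Pool.Agent.H337R2 Pool.Agent.W165.OZ Pool.Agent.Y926.LZ

namespace Pool.Agent.Y926.TW

/-- **Distances.** Let `v_1, …, v_D` be real numbers and `A ≥ 0`. For all large `q` at least `K` of the odd `j` in the
window have `|q ζ(j) - p₀ - ∑ p_i v_i| ≥ q^(-(D (D + 2) A + 2 D + 2))` for all integers `p₀, p_i` with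
`|p_i| ≤ q^A`, `i ≥ 1`. -/
theorem window_dist {b K D s : ℕ} (hK : 1 ≤ K)
    (hs : (2 : ℝ) ^ (132 * (D + 1)) * ((b : ℝ) + 1) ^ 2 * (K : ℝ) ^ 3 * Real.log (K + 1) ≤ (s : ℝ) ^ 2)
    (v : Fin D → ℝ) (A : ℕ) :
    ∃ q0 : ℕ, ∀ q ≥ q0, K ≤ Set.ncard {j : ℕ | b < j ∧ j ≤ s ∧ Odd j ∧
      ∀ (r : ℤ) (p : Fin D → ℤ), (∀ i, |(p i : ℝ)| ≤ (q : ℝ) ^ A) →
        1 / (q : ℝ) ^ (D * (D + 2) * A + 2 * D + 2) ≤
          |(q : ℝ) * (∑' n : ℕ, 1 / ((n : ℝ) + 1) ^ j) - r - ∑ i, (p i : ℝ) * v i|} := by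
  classical
  obtain ⟨q1, hq1⟩ := window_core (b := b) (K := K) (S := D + 1) (s := s) hK (by omega) hs
  refine ⟨max q1 ((D + 1) ^ (D + 1) + 1), fun q hq => ?_⟩
  have hqq1 : q1 ≤ q := (le_max_left _ _).trans hq
  have hqD : (D + 1) ^ (D + 1) < q := by
    have := (le_max_right _ _).trans hq
    omega
  have hq0 : 1 ≤ q := by omega
  obtain ⟨I, hI, hset⟩ := mem_win b s (fun j =>
    ∀ (r : ℤ) (p : Fin D → ℤ), (∀ i, |(p i : ℝ)| ≤ (q : ℝ) ^ A) →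
        1 / (q : ℝ) ^ (D * (D + 2) * A + 2 * D + 2) ≤
          |(q : ℝ) * (∑' n : ℕ, 1 / ((n : ℝ) + 1) ^ j) - r - ∑ i, (p i : ℝ) * v i|)
  rw [hset, Set.ncard_coe_finset]
  have hqr : (1 : ℝ) ≤ q := by exact_mod_cast hq0
  have hqp : (0 : ℝ) < q := by linarith
  obtain ⟨E, hE⟩ : ∃ E, E = (D + 1) * A + 2 := ⟨_, rfl⟩
  obtain ⟨n, hn1, hn2, hn3⟩ := dirichlet_sim D v (q ^ E) (Nat.one_le_pow _ _ (by omega))
  choose P hP using hn3
  refine hq1 (n * q) ?_ I fun j h1 h2 h3 h4 => ?_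
  · calc q1 ≤ 1 * q := by omega
      _ ≤ n * q := Nat.mul_le_mul_right q hn1
  have h5 : ∃ (r : ℤ) (p : Fin D → ℤ), (∀ i, |(p i : ℝ)| ≤ (q : ℝ) ^ A) ∧
      |(q : ℝ) * (∑' n : ℕ, 1 / ((n : ℝ) + 1) ^ j) - r - ∑ i, (p i : ℝ) * v i| <
        1 / (q : ℝ) ^ (D * (D + 2) * A + 2 * D + 2) := by
    by_contra hc
    refine h4 ((hI j).2 ⟨h2, h3, h1, fun r p hp => ?_⟩)
    by_contra hc2
    exact hc ⟨r, p, hp, not_le.1 hc2⟩
  obtain ⟨r, p, hp, hlt⟩ := h5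
  refine ⟨n * r + ∑ i, p i * P i, ?_⟩
  have hz : zr j = ∑' n : ℕ, 1 / ((n : ℝ) + 1) ^ j := rfl
  rw [← hz] at hlt
  have e1 : ((n * q : ℕ) : ℝ) * zr j - ((n * r + ∑ i, p i * P i : ℤ) : ℝ) =
      (n : ℝ) * ((q : ℝ) * zr j - r - ∑ i, (p i : ℝ) * v i) + ∑ i, (p i : ℝ) * ((n : ℝ) * v i - P i) := by
    push_cast
    have : ∑ i, (p i : ℝ) * ((n : ℝ) * v i - P i) =
        (n : ℝ) * (∑ i, (p i : ℝ) * v i) - ∑ i, (p i : ℝ) * P i := by
      rw [Finset.mul_sum, ← Finset.sum_sub_distrib]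
      exact Finset.sum_congr rfl fun i _ => by ring
    rw [this]
    ring
  have hnr : (n : ℝ) ≤ (q : ℝ) ^ (E * D) := by
    have : n ≤ q ^ (E * D) := by
      rw [pow_mul]
      exact hn2
    exact_mod_cast this
  have hn0 : (0 : ℝ) < n := by exact_mod_cast (by omega : 0 < n)
  have b1 : |(n : ℝ) * ((q : ℝ) * zr j - r - ∑ i, (p i : ℝ) * v i)| ≤ 1 / (q : ℝ) ^ (D * A + 2) := by
    rw [abs_mul, abs_of_pos hn0]
    calc (n : ℝ) * |(q : ℝ) * zr j - r - ∑ i, (p i : ℝ) * v i|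
        ≤ (q : ℝ) ^ (E * D) * (1 / (q : ℝ) ^ (D * (D + 2) * A + 2 * D + 2)) :=
          mul_le_mul hnr hlt.le (abs_nonneg _) (by positivity)
      _ = 1 / (q : ℝ) ^ (D * A + 2) := by
          rw [mul_one_div, div_eq_div_iff (by positivity) (by positivity), one_mul, ← pow_add]
          congr 1
          rw [hE]
          ring
  have b2 : |∑ i, (p i : ℝ) * ((n : ℝ) * v i - P i)| ≤ D * (1 / (q : ℝ) ^ (D * A + 2)) := by
    calc |∑ i, (p i : ℝ) * ((n : ℝ) * v i - P i)|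
        ≤ ∑ i : Fin D, 1 / (q : ℝ) ^ (D * A + 2) := by
          refine (Finset.abs_sum_le_sum_abs _ _).trans (Finset.sum_le_sum fun i _ => ?_)
          rw [abs_mul]
          have h6 := (hP i).le
          push_cast at h6
          calc |(p i : ℝ)| * |(n : ℝ) * v i - P i| ≤ (q : ℝ) ^ A * (1 / (q : ℝ) ^ E) :=
                mul_le_mul (hp i) h6 (abs_nonneg _) (by positivity)
            _ = 1 / (q : ℝ) ^ (D * A + 2) := by
                rw [mul_one_div, div_eq_div_iff (by positivity) (by positivity), one_mul, ← pow_add]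
                congr 1
                rw [hE]
                ring
      _ = _ := by
          rw [Finset.sum_const, Finset.card_univ, Fintype.card_fin, nsmul_eq_mul]
  have e2 : |((n * q : ℕ) : ℝ) * zr j - ((n * r + ∑ i, p i * P i : ℤ) : ℝ)| ≤
      ((D : ℝ) + 1) / (q : ℝ) ^ (D * A + 2) := by
    rw [e1]
    refine (abs_add_le _ _).trans ?_
    have : ((D : ℝ) + 1) / (q : ℝ) ^ (D * A + 2) = 1 / (q : ℝ) ^ (D * A + 2) + D * (1 / (q : ℝ) ^ (D * A + 2)) := by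
      ring
    rw [this]
    exact add_le_add b1 b2
  refine lt_of_le_of_lt e2 ?_
  have hNpos : (0 : ℝ) < ((n * q : ℕ) : ℝ) := by
    push_cast
    positivity
  have e3 : (((D : ℝ) + 1) / (q : ℝ) ^ (D * A + 2)) ^ (D + 1) < (((n * q : ℕ) : ℝ))⁻¹ := by
    have f1 : ((n * q : ℕ) : ℝ) ≤ (q : ℝ) ^ (E * D + 1) := by
      push_cast
      rw [pow_succ]
      exact mul_le_mul_of_nonneg_right hnr hqp.le
    have f2 : ((D : ℝ) + 1) ^ (D + 1) < q := by exact_mod_cast hqD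
    rw [div_pow, div_lt_iff₀ (by positivity), ← div_eq_inv_mul, lt_div_iff₀ hNpos]
    calc ((D : ℝ) + 1) ^ (D + 1) * ((n * q : ℕ) : ℝ) ≤ ((D : ℝ) + 1) ^ (D + 1) * (q : ℝ) ^ (E * D + 1) :=
          mul_le_mul_of_nonneg_left f1 (by positivity)
      _ < q * (q : ℝ) ^ (E * D + 1) := mul_lt_mul_of_pos_right f2 (by positivity)
      _ = ((q : ℝ) ^ (D * A + 2)) ^ (D + 1) := by
          rw [← pow_succ', ← pow_mul]
          congr 1
          rw [hE]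
          ring
  have e4' : ∀ y : ℝ, 0 ≤ y → y = (y ^ (D + 1)) ^ (1 / ((D : ℝ) + 1)) := by
    intro y hy
    rw [← Real.rpow_natCast, ← Real.rpow_mul hy]
    push_cast
    rw [mul_one_div_cancel (by positivity), Real.rpow_one]
  have e4 := e4' (((D : ℝ) + 1) / (q : ℝ) ^ (D * A + 2)) (by positivity)
  have e5 : ((n * q : ℕ) : ℝ) ^ (-(1 / (((D + 1 : ℕ) : ℝ)))) = (((n * q : ℕ) : ℝ)⁻¹) ^ (1 / ((D : ℝ) + 1)) := by
    rw [Real.rpow_neg hNpos.le, Real.inv_rpow hNpos.le]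
    push_cast
    rfl
  rw [e4, e5]
  exact Real.rpow_lt_rpow (by positivity) e3 (by positivity)

/-- **Outside subspaces.** For every rational vector space `V ⊆ ℝ` of dimension at most `D` at least `K` of the odd `j` in
the window have `ζ(j) ∉ ℚ + V`. -/
theorem window_space {b K D s : ℕ} (hK : 1 ≤ K)
    (hs : (2 : ℝ) ^ (132 * (D + 1)) * ((b : ℝ) + 1) ^ 2 * (K : ℝ) ^ 3 * Real.log (K + 1) ≤ (s : ℝ) ^ 2)
    (V : Submodule ℚ ℝ) (hV : FiniteDimensional ℚ V) (hVD : Module.finrank ℚ V ≤ D) :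
    K ≤ Set.ncard {j : ℕ | b < j ∧ j ≤ s ∧ Odd j ∧ ∀ r : ℚ, (∑' n : ℕ, 1 / ((n : ℝ) + 1) ^ j) - r ∉ V} := by
  classical
  -- a spanning family indexed by `Fin D`
  obtain ⟨v, hv⟩ : ∃ v : Fin D → ℝ, ∀ x ∈ V, ∃ c : Fin D → ℚ, x = ∑ i, (c i : ℝ) * v i := by
    let B := Module.finBasis ℚ V
    refine ⟨fun i => if h : (i : ℕ) < Module.finrank ℚ V then ((B ⟨i, h⟩ : V) : ℝ) else 0, fun x hx => ?_⟩
    refine ⟨fun i => if h : (i : ℕ) < Module.finrank ℚ V then B.repr ⟨x, hx⟩ ⟨i, h⟩ else 0, ?_⟩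
    have h2 := B.sum_repr ⟨x, hx⟩
    have h3 := congrArg (Submodule.subtype V) h2
    rw [map_sum] at h3
    simp only [Submodule.subtype_apply, map_smul] at h3
    refine h3.symm.trans ?_
    have h4 : ∀ a : Fin (Module.finrank ℚ V), (B.repr ⟨x, hx⟩ a) • ((B a : V) : ℝ) =
        (fun i : Fin D => (((if h : (i : ℕ) < Module.finrank ℚ V then B.repr ⟨x, hx⟩ ⟨i, h⟩ else 0 : ℚ)) : ℝ) *
          (if h : (i : ℕ) < Module.finrank ℚ V then ((B ⟨i, h⟩ : V) : ℝ) else 0)) (Fin.castLE hVD a) := by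
      intro a
      simp only [Fin.val_castLE, a.2, dif_pos, Fin.eta]
      rw [Rat.smul_def]
    rw [Finset.sum_congr rfl fun a _ => h4 a]
    have h5 := Finset.sum_map Finset.univ (Fin.castLEEmb hVD)
      (fun i : Fin D => (((if h : (i : ℕ) < Module.finrank ℚ V then B.repr ⟨x, hx⟩ ⟨i, h⟩ else 0 : ℚ)) : ℝ) *
          (if h : (i : ℕ) < Module.finrank ℚ V then ((B ⟨i, h⟩ : V) : ℝ) else 0))
    simp only [Fin.castLEEmb_apply] at h5
    rw [← h5]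
    refine Finset.sum_subset (Finset.subset_univ _) fun i _ hi => ?_
    by_cases h : (i : ℕ) < Module.finrank ℚ V
    · exfalso
      apply hi
      rw [Finset.mem_map]
      exact ⟨⟨i, h⟩, Finset.mem_univ _, by ext; simp⟩
    · rw [dif_neg h, dif_neg h]
      simp
  obtain ⟨q0, hq0⟩ := window_dist (b := b) hK hs v 2
  -- the good indices
  obtain ⟨I, hI, hset⟩ := mem_win b s (fun j => ∀ r : ℚ, (∑' n : ℕ, 1 / ((n : ℝ) + 1) ^ j) - r ∉ V)
  rw [hset, Set.ncard_coe_finset]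
  have hr : ∀ j, ∃ (x : ℚ) (c : Fin D → ℚ), (b < j → j ≤ s → Odd j → j ∉ I →
      (∑' n : ℕ, 1 / ((n : ℝ) + 1) ^ j) = x + ∑ i, (c i : ℝ) * v i) := by
    intro j
    by_cases hc : b < j ∧ j ≤ s ∧ Odd j ∧ j ∉ I
    · have h1 : ∃ r : ℚ, (∑' n : ℕ, 1 / ((n : ℝ) + 1) ^ j) - r ∈ V := by
        by_contra h
        exact hc.2.2.2 ((hI j).2 ⟨hc.1, hc.2.1, hc.2.2.1, fun r hr => h ⟨r, hr⟩⟩)
      obtain ⟨x, hx⟩ := h1
      obtain ⟨c, hc⟩ := hv _ hx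
      exact ⟨x, c, fun _ _ _ _ => by linarith⟩
    · exact ⟨0, 0, fun h1 h2 h3 h4 => absurd ⟨h1, h2, h3, h4⟩ hc⟩
  choose x c hxc using hr
  -- common denominator and size
  obtain ⟨M, hM⟩ : ∃ M, M = ∏ j ∈ Finset.range (s + 1), ((x j).den * ∏ i, (c j i).den) := ⟨_, rfl⟩
  have hM1 : 1 ≤ M := by
    rw [hM]
    exact Nat.one_le_iff_ne_zero.2 (Finset.prod_ne_zero_iff.2 fun j _ =>
      mul_ne_zero (x j).den_nz (Finset.prod_ne_zero_iff.2 fun i _ => (c j i).den_nz))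
  obtain ⟨C, hC⟩ : ∃ C : ℕ, ∀ j ∈ Finset.range (s + 1), ∀ i, |((c j i : ℚ) : ℝ)| ≤ C := by
    obtain ⟨C, hC⟩ := exists_nat_ge (∑ j ∈ Finset.range (s + 1), ∑ i, |((c j i : ℚ) : ℝ)|)
    refine ⟨C, fun j hj i => le_trans ?_ hC⟩
    refine le_trans ?_ (Finset.single_le_sum (f := fun j => ∑ i, |((c j i : ℚ) : ℝ)|)
      (fun j _ => Finset.sum_nonneg fun _ _ => abs_nonneg _) hj)
    exact Finset.single_le_sum (f := fun i => |((c j i : ℚ) : ℝ)|) (fun i _ => abs_nonneg _) (Finset.mem_univ i)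
  obtain ⟨q, hq⟩ : ∃ q, q = M * (q0 + C + 1) := ⟨_, rfl⟩
  have hqb : q0 + C + 1 ≤ q := by
    rw [hq]
    have : 1 * (q0 + C + 1) ≤ M * (q0 + C + 1) := Nat.mul_le_mul_right _ hM1
    omega
  have h6 := hq0 q (by omega)
  obtain ⟨J, hJ, hsetJ⟩ := mem_win b s (fun j => ∀ (r : ℤ) (p : Fin D → ℤ), (∀ i, |(p i : ℝ)| ≤ (q : ℝ) ^ 2) →
        1 / (q : ℝ) ^ (D * (D + 2) * 2 + 2 * D + 2) ≤
          |(q : ℝ) * (∑' n : ℕ, 1 / ((n : ℝ) + 1) ^ j) - r - ∑ i, (p i : ℝ) * v i|)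
  rw [hsetJ, Set.ncard_coe_finset] at h6
  refine h6.trans (Finset.card_le_card fun j hj => ?_)
  by_contra hjI
  obtain ⟨j1, j2, j3, j4⟩ := (hJ j).1 hj
  have hjs : j ∈ Finset.range (s + 1) := Finset.mem_range.2 (by omega)
  have hdM : (x j).den * ∏ i, (c j i).den ∣ M := by
    rw [hM]
    exact Finset.dvd_prod_of_mem (fun j => (x j).den * ∏ i, (c j i).den) hjs
  have hden : ∀ y : ℚ, y.den ∣ M → ∃ k : ℤ, (q : ℝ) * (y : ℝ) = k := by
    intro y hy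
    obtain ⟨e, he⟩ : y.den ∣ q := by
      rw [hq]
      exact Dvd.dvd.mul_right hy _
    refine ⟨e * y.num, ?_⟩
    have h9 : ((y.den : ℕ) : ℝ) * (y : ℝ) = (y.num : ℝ) := by exact_mod_cast Rat.den_mul_eq_num y
    rw [he]
    push_cast
    rw [← h9]
    ring
  obtain ⟨r, hr⟩ := hden (x j) ((Dvd.intro _ rfl).trans hdM)
  have h7 : ∀ i, ∃ k : ℤ, (q : ℝ) * ((c j i : ℚ) : ℝ) = k := fun i =>
    hden (c j i) (((Finset.dvd_prod_of_mem (fun i => (c j i).den) (Finset.mem_univ i)).trans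
      (Dvd.intro_left _ rfl)).trans hdM)
  choose k hk using h7
  have h8 := j4 r k fun i => by
    rw [← hk i, abs_mul, abs_of_nonneg (by positivity : (0 : ℝ) ≤ q), pow_two]
    refine mul_le_mul_of_nonneg_left ((hC j hjs i).trans ?_) (by positivity)
    exact_mod_cast (by omega : C ≤ q)
  have h9 : (q : ℝ) * (∑' n : ℕ, 1 / ((n : ℝ) + 1) ^ j) - r - ∑ i, (k i : ℝ) * v i = 0 := by
    rw [hxc j j1 j2 j3 hjI, ← hr]
    have : ∑ i, (k i : ℝ) * v i = (q : ℝ) * ∑ i, ((c j i : ℚ) : ℝ) * v i := by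
      rw [Finset.mul_sum]
      exact Finset.sum_congr rfl fun i _ => by rw [← hk i]; ring
    rw [this]
    ring
  rw [h9, abs_zero] at h8
  have hq1 : (0 : ℝ) < q := by exact_mod_cast (by omega : 0 < q)
  have : (0 : ℝ) < 1 / (q : ℝ) ^ (D * (D + 2) * 2 + 2 * D + 2) := by positivity
  linarith

end Pool.Agent.Y926.TW
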