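import Pool.Agent.Y926.TW.Stm

/-!
# The evaluation coefficients are integral
-/

open Polynomial Pool.Agent.H337R2 Pool.Agent.W165.OZ Pool.Agent.W165.OZ.PAx Pool.Agent.Y926.LZ

namespace Pool.Agent.Y926.TW

noncomputable section

lemma TS_YB_gen (n : ℕ) (x x0 : ℚ) (m : ℕ) :
    TS x ((YB n x0 m).comp (yp n)) =
      Poch m (x - x0 - (m - 1)) * Poch m (x + x0 + (n - 1)) := by
  rw [YB_comp, map_prod, Finset.prod_congr rfl fun j _ => by rw [map_mul, TS_lin, TS_lin],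
    Finset.prod_mul_distrib]
  congr 1
  · unfold Poch
    rw [← Finset.prod_range_reflect]
    apply Finset.prod_congr rfl
    intro j hj
    rw [Finset.mem_range] at hj
    congr 2
    rw [Nat.cast_sub (by omega), Nat.cast_sub (by omega)]
    push_cast
    ring
  · unfold Poch
    apply Finset.prod_congr rfl
    intro j _
    congr 2
    ring

section
variable {p : ℕ} [hp : Fact p.Prime]

lemma PB_NB_gen {n e m : ℕ} (hm : m ≤ n) (he : 1 ≤ e) {x : ℚ} (hx : ∃ a : ℤ, x = a / e) :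
    PB p ((p : ℚ) ^ Nat.log p n) 1
      (PowerSeries.C ((e : ℚ) ^ (4 * m)) * TS x ((NB n 1 0 m).comp (yp n))) := by
  have hρ : (1 : ℚ) ≤ (p : ℚ) ^ Nat.log p n := rho_ge n
  have hρ0 : (0 : ℚ) ≤ (p : ℚ) ^ Nat.log p n := by linarith
  have he0 : (e : ℚ) ≠ 0 := by exact_mod_cast (by omega : e ≠ 0)
  obtain ⟨a, ha⟩ := hx
  unfold NB
  rw [Polynomial.mul_comp, Polynomial.C_comp, map_mul, TS_YB_gen, TS_C]
  have h1 := PB_Poch_gen (p := p) hρ (rho_N (n := n)) hm he (ξ := x - 0 - (m - 1))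
    ⟨a - (m - 1) * e, by rw [ha]; push_cast; field_simp; ring⟩
  have h2 := PB_Poch_gen (p := p) hρ (rho_N (n := n)) hm he (ξ := x + 0 + (n - 1))
    ⟨a + (n - 1) * e, by rw [ha]; push_cast; field_simp; ring⟩
  have h3 := PB.mul hρ0 zero_le_one zero_le_one h1 h2
  rw [one_mul] at h3
  have h4 : PowerSeries.C ((e : ℚ) ^ (4 * m)) *
      (PowerSeries.C ((((1 : ℕ) : ℚ) ^ (2 * m) / m.factorial) ^ 2) *
      (Poch m (x - 0 - (m - 1)) * Poch m (x + 0 + (n - 1)))) =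
      PowerSeries.C ((e : ℚ) ^ (2 * m) / m.factorial) * Poch m (x - 0 - (m - 1)) *
      (PowerSeries.C ((e : ℚ) ^ (2 * m) / m.factorial) * Poch m (x + 0 + (n - 1))) := by
    have h5 : PowerSeries.C ((e : ℚ) ^ (4 * m)) *
        PowerSeries.C ((((1 : ℕ) : ℚ) ^ (2 * m) / m.factorial) ^ 2) =
        PowerSeries.C ((e : ℚ) ^ (2 * m) / m.factorial) *
          PowerSeries.C ((e : ℚ) ^ (2 * m) / m.factorial) := by
      rw [← map_mul, ← map_mul]
      congr 1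
      rw [Nat.cast_one, one_pow, show 4 * m = 2 * m + 2 * m by ring, pow_add]
      ring
    rw [← mul_assoc, h5]
    ring
  rw [h4]
  exact h3

lemma PB_Gb_gen {n e i : ℕ} (hn : 1 ≤ n) (he : 1 ≤ e) {x : ℚ} (hx : ∃ a : ℤ, x = a / e) :
    PB p ((p : ℚ) ^ Nat.log p n) 1
      (PowerSeries.C ((e : ℚ) ^ (4 * i)) * TS x ((Gb n i).comp (yp n))) := by
  have hρ : (1 : ℚ) ≤ (p : ℚ) ^ Nat.log p n := rho_ge n
  have hρ0 : (0 : ℚ) ≤ (p : ℚ) ^ Nat.log p n := by linarith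
  unfold Gb
  rw [Polynomial.mul_comp, map_mul, Polynomial.pow_comp, map_pow (TS x)]
  have h3 := PB_NB_gen (p := p) (n := n) (m := n) le_rfl he hx
  have h4 := PB_NB_gen (p := p) (n := n) (m := i % n) (Nat.mod_lt i hn).le he hx
  have h5 := PB.pow hρ0 zero_le_one h3 (i / n)
  rw [one_pow] at h5
  have h6 := PB.mul hρ0 zero_le_one zero_le_one h5 h4
  rw [one_mul] at h6
  have h7 : PowerSeries.C ((e : ℚ) ^ (4 * i)) = PowerSeries.C ((e : ℚ) ^ (4 * n)) ^ (i / n) *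
      PowerSeries.C ((e : ℚ) ^ (4 * (i % n))) := by
    rw [← map_pow, ← map_mul, ← pow_mul, ← pow_add]
    congr 2
    have := Nat.div_add_mod i n
    calc 4 * i = 4 * (n * (i / n) + i % n) := by rw [this]
      _ = _ := by ring
  rw [h7]
  have h8 : PowerSeries.C ((e : ℚ) ^ (4 * n)) ^ (i / n) *
      PowerSeries.C ((e : ℚ) ^ (4 * (i % n))) *
      (TS x ((NB n 1 0 n).comp (yp n)) ^ (i / n) * TS x ((NB n 1 0 (i % n)).comp (yp n))) =
      (PowerSeries.C ((e : ℚ) ^ (4 * n)) * TS x ((NB n 1 0 n).comp (yp n))) ^ (i / n) *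
      (PowerSeries.C ((e : ℚ) ^ (4 * (i % n))) * TS x ((NB n 1 0 (i % n)).comp (yp n))) := by
    rw [mul_pow]
    ring
  rw [h8]
  exact h6

end

theorem t_coe : S_COE := by
  intro n b e D i j x hn he hx hi hj
  obtain ⟨y, hy⟩ : ∃ y : ℚ, y = (e : ℚ) ^ (4 * D) * (Dl n 1 : ℚ) ^ b *
    PowerSeries.coeff j (TS x ((Gb n i).comp (yp n))) := ⟨_, rfl⟩
  rw [← hy]
  have h5 : y.den = 1 := by
    apply PRaux.int_of_padicNorm
    intro p hp
    have hρ : (1 : ℚ) ≤ (p : ℚ) ^ Nat.log p n := rho_ge n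
    have hρ0 : (0 : ℚ) < (p : ℚ) ^ Nat.log p n := by linarith
    have hD : padicNorm p (Dl n 1 : ℚ) ≤ ((p : ℚ) ^ Nat.log p n)⁻¹ := by
      by_cases hpn : p ≤ n
      · rw [pn_Dl hpn, one_mul]
      · rw [Nat.log_of_lt (by omega), pow_zero, inv_one]
        exact padicNorm.of_nat _
    have h1 := PB_Gb_gen (p := p) (n := n) (e := e) (i := i) hn he hx j
    rw [PowerSeries.coeff_C_mul, one_mul] at h1
    have h2 : y = (e : ℚ) ^ (4 * (D - i)) * (Dl n 1 : ℚ) ^ b *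
        ((e : ℚ) ^ (4 * i) * PowerSeries.coeff j (TS x ((Gb n i).comp (yp n)))) := by
      rw [hy, show 4 * D = 4 * (D - i) + 4 * i by omega, pow_add]
      ring
    have h3 : padicNorm p ((e : ℚ) ^ (4 * (D - i))) ≤ 1 := by
      have := padicNorm.of_nat (p := p) (e ^ (4 * (D - i)))
      exact_mod_cast this
    have h4 : (padicNorm p (Dl n 1 : ℚ)) ^ b ≤ (((p : ℚ) ^ Nat.log p n)⁻¹) ^ b :=
      pow_le_pow_left₀ (padicNorm.nonneg _) hD _
    rw [h2, padicNorm.mul, padicNorm.mul, pn_pow (Dl n 1 : ℚ)]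
    have h6 : ((p : ℚ) ^ Nat.log p n) ^ j ≤ ((p : ℚ) ^ Nat.log p n) ^ b :=
      pow_le_pow_right₀ hρ hj
    calc _ ≤ 1 * (((p : ℚ) ^ Nat.log p n)⁻¹) ^ b * ((p : ℚ) ^ Nat.log p n) ^ b :=
          mul_le_mul (mul_le_mul h3 h4 (pow_nonneg (padicNorm.nonneg _) _) zero_le_one)
            (h1.trans h6) (padicNorm.nonneg _) (by positivity)
      _ = 1 := by rw [one_mul, ← mul_pow, inv_mul_cancel₀ hρ0.ne', one_pow]
  refine ⟨y.num, ?_⟩
  have h8 := Rat.mul_den_eq_num y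
  rw [h5] at h8
  simpa using h8

end

end Pool.Agent.Y926.TW
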