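import Pool.Agent.Y926.TW.Stm

/-!
# The recursion of the germs
-/

open Polynomial Pool.Agent.H337R2 Pool.Agent.W165.OZ Pool.Agent.Y926.LZ

namespace Pool.Agent.Y926.TW

noncomputable section

namespace REC

/-- the truncated expansion of `1 / (a - X)^(b+1)` -/
def Sg (h b : ℕ) (a : ℚ) : PowerSeries ℚ :=
  ∑ i ∈ Finset.Icc 1 (2 * h), PowerSeries.C (Cb b i / a ^ (i + b)) * PowerSeries.X ^ (i - 1)

lemma coeff_Sg (h b : ℕ) (a : ℚ) {m : ℕ} (hm : m < 2 * h) :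
    PowerSeries.coeff m (Sg h b a) = Cb b (m + 1) / a ^ (m + 1 + b) := by
  unfold Sg
  rw [map_sum, Finset.sum_eq_single (m + 1)]
  · rw [PowerSeries.coeff_C_mul, PowerSeries.coeff_X_pow, if_pos (by omega), mul_one]
  · intro i hi hne
    rw [Finset.mem_Icc] at hi
    rw [PowerSeries.coeff_C_mul, PowerSeries.coeff_X_pow, if_neg (by omega), mul_zero]
  · intro hn
    exact absurd (Finset.mem_Icc.2 ⟨by omega, by omega⟩) hn

lemma Sg_add (h b : ℕ) (hb : Even b) {a : ℚ} (ha : a ≠ 0) :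
    (PowerSeries.X : PowerSeries ℚ) ^ (2 * h) ∣ Sg h b a + iv (-a) ^ (b + 1) := by
  rw [PowerSeries.X_pow_dvd_iff]
  intro m hm
  rw [map_add, coeff_Sg h b a hm, coeff_iv_pow (neg_ne_zero.2 ha)]
  have h1 : (-1 : ℚ) ^ m * (Nat.choose (b + m) b : ℚ) / (-a) ^ (b + 1 + m) =
      -((Nat.choose (b + m) b : ℚ) / a ^ (b + 1 + m)) := by
    rw [neg_pow a (b + 1 + m), pow_add (-1 : ℚ) (b + 1) m, hb.add_one.neg_one_pow]
    rcases neg_one_pow_eq_or ℚ m with h | h <;> rw [h] <;> simp [neg_div, div_neg]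
  have h2 : Cb b (m + 1) = (Nat.choose (b + m) b : ℚ) := by
    unfold Cb
    rw [Nat.add_sub_cancel, add_comm b m, Nat.choose_symm_add]
  rw [h1, h2, show m + 1 + b = b + 1 + m by ring, add_neg_cancel]

lemma sum_Icc_one {A : Type*} [AddCommMonoid A] (F : ℕ → A) (d : ℕ) :
    ∑ v ∈ Finset.Icc 1 d, F v = ∑ l ∈ Finset.range d, F (l + 1) := by
  induction d with
  | zero => simp
  | succ d ih => rw [Finset.sum_Icc_succ_top (by omega), ih, Finset.sum_range_succ]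

lemma hs_sub (e d k : ℕ) : hs e (d * (k + 1)) - hs e (d * k) =
    ∑ v ∈ Finset.Icc 1 d, 1 / ((d : ℚ) * k + v) ^ e := by
  unfold hs
  rw [Nat.mul_succ, Finset.sum_range_add, add_sub_cancel_left, sum_Icc_one]
  refine Finset.sum_congr rfl fun l _ => ?_
  push_cast
  rw [add_assoc]

/-- the shifted node -/
def nd (d k v : ℕ) : ℚ := (k : ℚ) + (v : ℚ) / d

lemma nd_pos {d v : ℕ} (k : ℕ) (hd : 1 ≤ d) (hv : 1 ≤ v) : 0 < nd d k v := by
  unfold nd
  have h1 : (0 : ℚ) < d := by exact_mod_cast hd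
  have h2 : (0 : ℚ) < v := by exact_mod_cast hv
  positivity

lemma bt_sub (z : ℕ → ℚ) (h b d k : ℕ) (hd : 1 ≤ d) :
    bt z h b d (k + 1) - bt z h b d k = -∑ v ∈ Finset.Icc 1 d, Sg h b (nd d k v) := by
  have hd0 : (d : ℚ) ≠ 0 := by
    have : (0 : ℚ) < d := by exact_mod_cast hd
    exact this.ne'
  unfold bt Sg
  rw [← Finset.sum_sub_distrib, Finset.sum_comm, ← Finset.sum_neg_distrib]
  refine Finset.sum_congr rfl fun i _ => ?_
  rw [← sub_mul, ← map_sub, ← Finset.sum_mul, ← neg_mul, ← map_sum, ← map_neg]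
  congr 2
  have h1 := hs_sub (i + b) d k
  have h2 : Cb b i * (d : ℚ) ^ (i + b) * (z (i + b) - hs (i + b) (d * (k + 1))) -
      Cb b i * (d : ℚ) ^ (i + b) * (z (i + b) - hs (i + b) (d * k)) =
      -(Cb b i * ((d : ℚ) ^ (i + b) * (hs (i + b) (d * (k + 1)) - hs (i + b) (d * k)))) := by ring
  rw [h2, h1, Finset.mul_sum, Finset.mul_sum]
  congr 1
  refine Finset.sum_congr rfl fun v _ => ?_
  have h3 : (d : ℚ) * k + v = d * nd d k v := by
    unfold nd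
    field_simp
  rw [h3, mul_pow, mul_one_div, div_mul_eq_div_div, div_self (pow_ne_zero _ hd0), mul_one_div]

/-- the difference of the germs modulo `X^(2h)` -/
lemma bt_rec (z : ℕ → ℚ) (h b d k : ℕ) (hb : Even b) (hd : 1 ≤ d) :
    (PowerSeries.X : PowerSeries ℚ) ^ (2 * h) ∣
      bt z h b d (k + 1) - bt z h b d k - ∑ v ∈ Finset.Icc 1 d, iv (-nd d k v) ^ (b + 1) := by
  have h1 : bt z h b d (k + 1) - bt z h b d k - ∑ v ∈ Finset.Icc 1 d, iv (-nd d k v) ^ (b + 1) =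
      -∑ v ∈ Finset.Icc 1 d, (Sg h b (nd d k v) + iv (-nd d k v) ^ (b + 1)) := by
    rw [bt_sub z h b d k hd, Finset.sum_add_distrib]
    ring
  rw [h1, dvd_neg]
  refine Finset.dvd_sum fun v hv => ?_
  exact Sg_add h b hb (nd_pos k hd (Finset.mem_Icc.1 hv).1).ne'

lemma rescale_dvd {m : ℕ} {f : PowerSeries ℚ} (hf : (PowerSeries.X : PowerSeries ℚ) ^ m ∣ f) :
    (PowerSeries.X : PowerSeries ℚ) ^ m ∣ PowerSeries.rescale (-1 : ℚ) f := by
  rw [PowerSeries.X_pow_dvd_iff] at hf ⊢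
  intro j hj
  rw [PowerSeries.coeff_rescale, hf j hj, mul_zero]

lemma rescale_iv (b : ℕ) (hb : Even b) (a : ℚ) :
    PowerSeries.rescale (-1 : ℚ) (iv (-a) ^ (b + 1)) = -iv a ^ (b + 1) := by
  have h1 : PowerSeries.rescale (-1 : ℚ) (iv (-a)) = -iv a := by
    have h2 := iv_neg (-a)
    rw [neg_neg] at h2
    rw [h2, neg_neg]
  rw [map_pow, h1, hb.add_one.neg_pow]

lemma bs_rec (z : ℕ → ℚ) (n h b d k : ℕ) (hb : Even b) (hd : 1 ≤ d) (hk : k + 1 < n) :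
    (PowerSeries.X : PowerSeries ℚ) ^ (2 * h) ∣
      bs z n h b d (k + 1) - bs z n h b d k - ∑ v ∈ Finset.Icc 1 d,
        (iv (-nd d k v) ^ (b + 1) + iv (nd d (n - 2 - k) v) ^ (b + 1)) := by
  have e1 : n - 1 - (k + 1) = n - 2 - k := by omega
  have e2 : n - 1 - k = n - 2 - k + 1 := by omega
  have h1 : bs z n h b d (k + 1) - bs z n h b d k - ∑ v ∈ Finset.Icc 1 d,
        (iv (-nd d k v) ^ (b + 1) + iv (nd d (n - 2 - k) v) ^ (b + 1)) =
      (bt z h b d (k + 1) - bt z h b d k - ∑ v ∈ Finset.Icc 1 d, iv (-nd d k v) ^ (b + 1)) -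
      PowerSeries.rescale (-1 : ℚ) (bt z h b d (n - 2 - k + 1) - bt z h b d (n - 2 - k) -
        ∑ v ∈ Finset.Icc 1 d, iv (-nd d (n - 2 - k) v) ^ (b + 1)) := by
    unfold bs
    rw [e1, e2, map_sub, map_sub, map_sum, Finset.sum_congr rfl fun v _ =>
      rescale_iv b hb (nd d (n - 2 - k) v), Finset.sum_neg_distrib, Finset.sum_add_distrib]
    ring
  rw [h1]
  exact dvd_sub (bt_rec z h b d k hb hd) (rescale_dvd (bt_rec z h b d (n - 2 - k) hb hd))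

lemma TS_Pf1 (b d k v : ℕ) : TS (-(k : ℚ)) (Pf1 b d v) =
    (PowerSeries.X + PowerSeries.C (-nd d k v)) ^ (b + 1) := by
  unfold Pf1 nd
  rw [map_pow, sub_eq_add_neg, ← C_neg, TS_lin, neg_add]

lemma TS_Pf2 (n b d k v : ℕ) (hk : k + 1 < n) : TS (-(k : ℚ)) (Pf2 n b d v) =
    (PowerSeries.X + PowerSeries.C (nd d (n - 2 - k) v)) ^ (b + 1) := by
  unfold Pf2 nd
  rw [map_pow, TS_lin, Nat.sub_sub, Nat.cast_sub (by omega)]
  congr 3
  push_cast
  ring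

end REC

open REC in
theorem t_rec : S_REC := by
  intro z n h b B d k hb hh hd hdB hk
  have h1 := bs_rec z n h b d k hb hd hk
  have h2 : TS (-(k : ℚ)) (Pi1 n b B) * ∑ v ∈ Finset.Icc 1 d,
        (iv (-nd d k v) ^ (b + 1) + iv (nd d (n - 2 - k) v) ^ (b + 1)) =
      TS (-(k : ℚ)) (eta n b B d) := by
    unfold eta
    rw [map_sum, Finset.mul_sum]
    refine Finset.sum_congr rfl fun v hv => ?_
    obtain ⟨hv1, hv2⟩ := Finset.mem_Icc.1 hv
    have hmem : (⟨d, v⟩ : Σ _ : ℕ, ℕ) ∈ Dv B := by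
      unfold Dv
      rw [Finset.mem_sigma, Finset.mem_Icc, Finset.mem_Icc]
      exact ⟨⟨hd, hdB⟩, hv1, hv2⟩
    have h3 : Pi1 n b B = Pf1 b d v * Pf2 n b d v *
        ∏ q ∈ (Dv B).erase ⟨d, v⟩, (Pf1 b q.1 q.2 * Pf2 n b q.1 q.2) := by
      unfold Pi1
      rw [← Finset.mul_prod_erase (Dv B) _ hmem]
    have h4 : (PowerSeries.X + PowerSeries.C (-nd d k v)) ^ (b + 1) * iv (-nd d k v) ^ (b + 1) =
        1 := by
      rw [← mul_pow, lin_mul_iv (neg_ne_zero.2 (nd_pos k hd hv1).ne'), one_pow]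
    have h5 : (PowerSeries.X + PowerSeries.C (nd d (n - 2 - k) v)) ^ (b + 1) *
        iv (nd d (n - 2 - k) v) ^ (b + 1) = 1 := by
      rw [← mul_pow, lin_mul_iv (nd_pos (n - 2 - k) hd hv1).ne', one_pow]
    rw [h3, map_mul, map_mul, map_mul, map_add, TS_Pf1, TS_Pf2 n b d k v hk]
    linear_combination
      ((TS (-(k : ℚ)) (∏ q ∈ (Dv B).erase ⟨d, v⟩, (Pf1 b q.1 q.2 * Pf2 n b q.1 q.2))) *
        (PowerSeries.X + PowerSeries.C (nd d (n - 2 - k) v)) ^ (b + 1)) * h4 +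
      ((TS (-(k : ℚ)) (∏ q ∈ (Dv B).erase ⟨d, v⟩, (Pf1 b q.1 q.2 * Pf2 n b q.1 q.2))) *
        (PowerSeries.X + PowerSeries.C (-nd d k v)) ^ (b + 1)) * h5
  rw [← h2, ← mul_sub]
  exact Dvd.dvd.mul_left h1 _

end

end Pool.Agent.Y926.TW
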