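import Pool.Agent.Y926.TW.Stm

/-!
# Project TW, job REG: regrouping a double sum by reduced fractions
-/

set_option autoImplicit false

open Polynomial Pool.Agent.H337R2 Pool.Agent.W165.OZ Pool.Agent.Y926.LZ

namespace Pool.Agent.Y926.TW

noncomputable section

private theorem reg_one {A : Type} [AddCommMonoid A] (B M d : ℕ) (hd : d ∈ Finset.Icc 1 B)
    (F : ℚ → A) :
    ∑ v ∈ Finset.range (d * M), F ((v : ℚ) / d) =
      ∑ e ∈ (Finset.Icc 1 B).filter (fun e => e ∣ d),
        ∑ u ∈ (Finset.range (e * M)).filter (fun u => Nat.Coprime u e), F ((u : ℚ) / e) := by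
  classical
  obtain ⟨hd1, hdB⟩ := Finset.mem_Icc.1 hd
  rw [Finset.sum_sigma']
  refine Finset.sum_bij' (fun v _ => (⟨d / Nat.gcd v d, v / Nat.gcd v d⟩ : Σ _ : ℕ, ℕ))
    (fun x _ => x.2 * (d / x.1)) ?_ ?_ ?_ ?_ ?_
  · intro v hv
    rw [Finset.mem_range] at hv
    have hg : 0 < Nat.gcd v d := Nat.gcd_pos_of_pos_right v hd1
    obtain ⟨a, ha⟩ := Nat.gcd_dvd_left v d
    obtain ⟨b, hb⟩ := Nat.gcd_dvd_right v d
    have hcop : Nat.Coprime (v / Nat.gcd v d) (d / Nat.gcd v d) := Nat.coprime_div_gcd_div_gcd hg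
    simp only [Finset.mem_sigma, Finset.mem_filter, Finset.mem_Icc, Finset.mem_range]
    refine ⟨⟨⟨?_, (Nat.div_le_self _ _).trans hdB⟩, Nat.div_dvd_of_dvd (Nat.gcd_dvd_right v d)⟩,
      ?_, hcop⟩
    · exact Nat.div_pos (Nat.le_of_dvd hd1 (Nat.gcd_dvd_right v d)) hg
    · rw [Nat.div_lt_iff_lt_mul hg]
      have h1 : d / Nat.gcd v d * M * Nat.gcd v d = d * M := by
        rw [mul_right_comm, Nat.div_mul_cancel (Nat.gcd_dvd_right v d)]
      rw [h1]
      exact hv
  · rintro ⟨e, u⟩ hx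
    simp only [Finset.mem_sigma, Finset.mem_filter, Finset.mem_Icc, Finset.mem_range] at hx
    obtain ⟨⟨⟨he1, heB⟩, hed⟩, hu, hcop⟩ := hx
    simp only [Finset.mem_range]
    have h2 : 0 < d / e := Nat.div_pos (Nat.le_of_dvd hd1 hed) he1
    calc u * (d / e) < e * M * (d / e) := Nat.mul_lt_mul_of_pos_right hu h2
      _ = d * M := by rw [mul_right_comm, Nat.mul_div_cancel' hed]
  · intro v hv
    have hg : 0 < Nat.gcd v d := Nat.gcd_pos_of_pos_right v hd1
    simp only
    have h1 : d / (d / Nat.gcd v d) = Nat.gcd v d :=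
      Nat.div_div_self (Nat.gcd_dvd_right v d) (by omega)
    rw [h1]
    exact Nat.div_mul_cancel (Nat.gcd_dvd_left v d)
  · rintro ⟨e, u⟩ hx
    simp only [Finset.mem_sigma, Finset.mem_filter, Finset.mem_Icc, Finset.mem_range] at hx
    obtain ⟨⟨⟨he1, heB⟩, hed⟩, hu, hcop⟩ := hx
    obtain ⟨k, rfl⟩ := hed
    have hk : 0 < k := Nat.pos_of_ne_zero (by rintro rfl; simp at hd1)
    have h1 : e * k / e = k := Nat.mul_div_cancel_left k he1
    have h2 : Nat.gcd (u * k) (e * k) = k := by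
      rw [Nat.gcd_mul_right, hcop, one_mul]
    simp only [h1, h2]
    rw [Nat.mul_div_cancel _ hk, Nat.mul_div_cancel _ hk]
  · intro v hv
    have hg : 0 < Nat.gcd v d := Nat.gcd_pos_of_pos_right v hd1
    simp only
    congr 1
    have hgq : ((Nat.gcd v d : ℕ) : ℚ) ≠ 0 := by exact_mod_cast hg.ne'
    rw [Nat.cast_div (Nat.gcd_dvd_left v d) hgq, Nat.cast_div (Nat.gcd_dvd_right v d) hgq,
      div_div_div_cancel_right₀ hgq]

theorem t_reg : S_REG := by
  classical
  intro A _ B M F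
  rw [Finset.sum_congr rfl fun d hd => reg_one B M d hd (F d)]
  rw [Finset.sum_congr rfl fun e _ => Finset.sum_comm (s := (Finset.range (e * M)).filter
    (fun u => Nat.Coprime u e)) (t := (Finset.Icc 1 B).filter (fun d => e ∣ d))
    (f := fun u d => F d ((u : ℚ) / e))]
  refine Finset.sum_comm' ?_
  intro d e
  simp only [Finset.mem_filter]
  tauto

end

end Pool.Agent.Y926.TW
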