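import Pool.Agent.Y926.TW.Stm2
import Pool.Agent.Y926.LZ.Fin

/-!
# The numerical part
-/

open Polynomial Pool.Agent.H337R2 Pool.Agent.W165.OZ Pool.Agent.Y926.LZ

namespace Pool.Agent.Y926.TW

noncomputable section

/-- `r` -/
def rS (S : ℕ) : ℕ := 2 ^ (48 * S)

/-- the bits -/
def XS (L S : ℕ) : ℕ := 4 * L + 6 + 96 * S

/-- the number of unknowns -/
def YS (b K S : ℕ) : ℕ := 4 * K * ((b + 1) * (rS S + 1))

/-- the first parameter -/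
def hS1 (b K L S : ℕ) : ℕ := Nat.sqrt ((2 * K * XS L S + XS L S ^ 2) * YS b K S ^ 2) + 1

/-- half the order of the poles -/
def hT (b K L S : ℕ) : ℕ := 16 * hS1 b K L S

lemma hS1_sq (b K L S : ℕ) :
    (2 * K * XS L S + XS L S ^ 2) * YS b K S ^ 2 ≤ hS1 b K L S ^ 2 := by
  unfold hS1
  exact (Nat.lt_succ_sqrt' _).le

lemma hS1_c1 (b K L S : ℕ) : XS L S * YS b K S ≤ hS1 b K L S := by
  have h1 : (XS L S * YS b K S) ^ 2 ≤ hS1 b K L S ^ 2 := by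
    refine le_trans ?_ (hS1_sq b K L S)
    rw [mul_pow]
    exact Nat.mul_le_mul_right _ (Nat.le_add_left _ _)
  exact (Nat.pow_le_pow_iff_left (by norm_num)).1 h1

lemma hS1_c2 (b K L S : ℕ) : 2 * K * XS L S * YS b K S ^ 2 ≤ hS1 b K L S ^ 2 := by
  refine le_trans ?_ (hS1_sq b K L S)
  exact Nat.mul_le_mul_right _ (Nat.le_add_right _ _)

/-- the exponents in Siegel's lemma -/
lemma sie_exp {X Y K h1 n m Eq D b S : ℕ} (hn : 1 ≤ n) (hY : 1 ≤ Y) (hmK : m ≤ 2 * K)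
    (hEq : Eq ≤ m * (Y * n)) (hD : D ≤ Y * n + (h1 * n) / m + 1)
    (hc1 : X * Y ≤ h1) (hc2 : 2 * K * X * Y ^ 2 ≤ h1 ^ 2) (hX : 4 * b + 7 + 96 * S ≤ X * Y) :
    Eq * (X * D + (4 * b + 7 + 96 * S) * n) ≤ 16 * h1 * n * (h1 * n) := by
  obtain ⟨u, hu⟩ : ∃ u, u = (h1 * n) / m := ⟨_, rfl⟩
  rw [← hu] at hD
  have hmu : m * u ≤ h1 * n := by rw [hu]; exact Nat.mul_div_le _ _
  have hEq2 : Eq ≤ 2 * K * (Y * n) := hEq.trans (Nat.mul_le_mul_right _ hmK)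
  have e1 : Eq * u ≤ (Y * n) * (h1 * n) := by
    calc Eq * u ≤ (m * (Y * n)) * u := Nat.mul_le_mul_right _ hEq
      _ = (Y * n) * (m * u) := by ring
      _ ≤ _ := Nat.mul_le_mul_left _ hmu
  have hYn : Y * n + 1 ≤ 2 * (Y * n) := by
    have : 1 ≤ Y * n := Nat.mul_pos hY hn
    omega
  have e2 : Eq * (Y * n + 1) ≤ 2 * K * (Y * n) * (2 * (Y * n)) := Nat.mul_le_mul hEq2 hYn
  have e3 : Eq * (X * D) ≤ 2 * (2 * K * X * Y ^ 2) * n ^ 2 + X * Y * h1 * n ^ 2 := by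
    calc Eq * (X * D) ≤ Eq * (X * (Y * n + u + 1)) := by gcongr
      _ = X * (Eq * (Y * n + 1)) + X * (Eq * u) := by ring
      _ ≤ X * (2 * K * (Y * n) * (2 * (Y * n))) + X * ((Y * n) * (h1 * n)) := by gcongr
      _ = _ := by ring
  have e4 : Eq * ((4 * b + 7 + 96 * S) * n) ≤ (2 * K * X * Y ^ 2) * n ^ 2 := by
    calc Eq * ((4 * b + 7 + 96 * S) * n) ≤ (2 * K * (Y * n)) * (X * Y * n) := by gcongr
      _ = _ := by ring
  calc Eq * (X * D + (4 * b + 7 + 96 * S) * n)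
      = Eq * (X * D) + Eq * ((4 * b + 7 + 96 * S) * n) := by ring
    _ ≤ (2 * (2 * K * X * Y ^ 2) * n ^ 2 + X * Y * h1 * n ^ 2) + (2 * K * X * Y ^ 2) * n ^ 2 :=
        add_le_add e3 e4
    _ ≤ (2 * h1 ^ 2 * n ^ 2 + h1 * h1 * n ^ 2) + h1 ^ 2 * n ^ 2 := by gcongr
    _ ≤ 16 * h1 * n * (h1 * n) := by nlinarith [Nat.zero_le (h1 * n * (h1 * n))]

/-- the numerical condition of Siegel's lemma -/
lemma sie_num {n m D W B L b S Dn h μ Eq : ℕ} (hW : m * D * W ≤ 2 ^ n) (hB : B ≤ 2 ^ L)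
    (hDn : Dn ≤ 16 ^ n) (hE : Eq * (XS L S * D + (4 * b + 7 + 96 * S) * n) ≤ h * n * μ) :
    (m * D * (W * B ^ (4 * D) * Dn ^ b * (54 * rS S ^ 2) ^ (D + n))) ^ Eq ≤ (2 ^ (h * n)) ^ μ := by
  have h1 : m * D * (W * B ^ (4 * D) * Dn ^ b * (54 * rS S ^ 2) ^ (D + n)) ≤
      2 ^ (XS L S * D + (4 * b + 7 + 96 * S) * n) := by
    have a1 : B ^ (4 * D) ≤ 2 ^ (4 * L * D) := by
      calc B ^ (4 * D) ≤ (2 ^ L) ^ (4 * D) := Nat.pow_le_pow_left hB _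
        _ = 2 ^ (4 * L * D) := by rw [← pow_mul]; congr 1; ring
    have a2 : Dn ^ b ≤ 2 ^ (4 * b * n) := by
      calc Dn ^ b ≤ (16 ^ n) ^ b := Nat.pow_le_pow_left hDn _
        _ = 2 ^ (4 * b * n) := by
          rw [show (16 : ℕ) = 2 ^ 4 by norm_num, ← pow_mul, ← pow_mul]; congr 1; ring
    have a3 : (54 * rS S ^ 2) ^ (D + n) ≤ 2 ^ ((6 + 96 * S) * (D + n)) := by
      have : 54 * rS S ^ 2 ≤ 2 ^ (6 + 96 * S) := by
        unfold rS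
        rw [pow_add, ← pow_mul, show 48 * S * 2 = 96 * S by ring]
        exact Nat.mul_le_mul_right _ (by norm_num)
      calc (54 * rS S ^ 2) ^ (D + n) ≤ (2 ^ (6 + 96 * S)) ^ (D + n) := Nat.pow_le_pow_left this _
        _ = _ := by rw [← pow_mul]
    calc m * D * (W * B ^ (4 * D) * Dn ^ b * (54 * rS S ^ 2) ^ (D + n))
        = (m * D * W) * B ^ (4 * D) * Dn ^ b * (54 * rS S ^ 2) ^ (D + n) := by ring
      _ ≤ 2 ^ n * 2 ^ (4 * L * D) * 2 ^ (4 * b * n) * 2 ^ ((6 + 96 * S) * (D + n)) := by gcongr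
      _ = 2 ^ (XS L S * D + (4 * b + 7 + 96 * S) * n) := by
          rw [← pow_add, ← pow_add, ← pow_add]
          congr 1
          unfold XS
          ring
  calc _ ≤ (2 ^ (XS L S * D + (4 * b + 7 + 96 * S) * n)) ^ Eq := Nat.pow_le_pow_left h1 _
    _ = 2 ^ (Eq * (XS L S * D + (4 * b + 7 + 96 * S) * n)) := by rw [← pow_mul]; congr 1; ring
    _ ≤ 2 ^ (h * n * μ) := Nat.pow_le_pow_right (by norm_num) hE
    _ = _ := by rw [← pow_mul]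

/-- the bound of `M8` -/
lemma M8_bd {n h B S E : ℕ} (hE : 2 * E ≤ h * n) (hh : 3 ≤ h * n) :
    (M8 n h B (rS S) E : ℝ) * 2 ^ (48 * S * h * n) ≤
      (4 ^ (h + 1) * (B : ℝ) ^ 2 * (rS S : ℝ) ^ 3) * (n : ℝ) ^ 3 * 2 ^ (3 * h * n) := by
  have hr1 : (1 : ℝ) ≤ (rS S : ℝ) := by
    have : 1 ≤ rS S := Nat.one_le_two_pow
    exact_mod_cast this
  have hr0 : (0 : ℝ) < (rS S : ℝ) := by linarith
  unfold M8
  push_cast
  have h1 : (rS S : ℝ) ^ (h * n - 3) ≤ (rS S : ℝ) ^ (2 * h * n - (2 * E + 1) - 2) :=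
    pow_le_pow_right₀ hr1 (by
      have : 2 * h * n = h * n + h * n := by ring
      omega)
  have h2 : (54 : ℝ) ^ E ≤ 2 ^ (3 * h * n) := by
    calc (54 : ℝ) ^ E ≤ (2 ^ 6) ^ E := pow_le_pow_left₀ (by norm_num) (by norm_num) _
      _ = 2 ^ (3 * (2 * E)) := by rw [← pow_mul]; congr 1; ring
      _ ≤ 2 ^ (3 * h * n) := pow_le_pow_right₀ (by norm_num) (by
          calc 3 * (2 * E) ≤ 3 * (h * n) := Nat.mul_le_mul_left _ hE
            _ = _ := by ring)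
  have h3 : (2 : ℝ) ^ (48 * S * h * n) = (rS S : ℝ) ^ (h * n - 3) * (rS S : ℝ) ^ 3 := by
    rw [← pow_add, Nat.sub_add_cancel hh]
    unfold rS
    push_cast
    rw [← pow_mul]
    congr 1
    ring
  have hp : (0 : ℝ) < (rS S : ℝ) ^ (h * n - 3) := by positivity
  calc 4 ^ (h + 1) * (n : ℝ) * 54 ^ E / (rS S : ℝ) ^ (2 * h * n - (2 * E + 1) - 2) * ((B : ℝ) * n) ^ 2 *
        2 ^ (48 * S * h * n)
      ≤ 4 ^ (h + 1) * (n : ℝ) * 2 ^ (3 * h * n) / (rS S : ℝ) ^ (h * n - 3) * ((B : ℝ) * n) ^ 2 *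
        2 ^ (48 * S * h * n) := by gcongr
    _ = _ := by
        rw [h3]
        field_simp

end

end Pool.Agent.Y926.TW
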