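import Pool.Agent.Y926.LZ.Fsz

/-!
# More than `√s` irrational odd zeta values: the statements of the parts

The forms are `∑_d ∑_{t ≥ 1} (1/b!) (d/dx)^b [R(x) g(y(x)) P_d(y(x))]_(x = t/d)` with a *vector* of polynomials
`P_d = ∑_l w_l(d) Q_l`, `∑_d w_l(d) d^j = 0` for the exponents `j` of the irrational values. The polynomials `Q_l` come
from Siegel's lemma, the non-vanishing comes from a Casoratian zero estimate in which the zeros of the `P_d` at the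
fractions are counted as well.
-/

open Polynomial Pool.Agent.H337R2 Pool.Agent.W165.OZ Pool.Agent.Y926.LZ

namespace Pool.Agent.Y926.TW

noncomputable section

/-! ### The zero estimate -/

/-- the shift `p(t - j)` -/
def sh (j : ℕ) (p : ℚ[X]) : ℚ[X] := p.comp (X - C (j : ℚ))

/-- CAS: the Casoratian of linearly independent polynomials does not vanish -/
def S_CAS : Prop := ∀ (m : ℕ) (Q : Fin m → ℚ[X]), LinearIndependent ℚ Q →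
  ∀ p : Fin m → ℚ[X], (∀ j < m, ∑ l, sh j (Q l) * p l = 0) → p = 0

/-- ZE: the zero estimate. The functions `β k l` play the role of the germs at `-k` of functions `β_l(t)` with
`β_l(t - 1) - β_l(t) = η_l(t) / Pj(t)`. -/
def S_ZE : Prop := ∀ (m n T b c D DA : ℕ) (Q : Fin m → ℚ[X]) (A Pj : ℚ[X]) (η : Fin m → ℚ[X])
  (β : ℕ → Fin m → PowerSeries ℚ) (Nd : Finset ℚ),
  LinearIndependent ℚ Q → Pj ≠ 0 → (∀ l, (Q l).natDegree ≤ D) → D ≤ DA → A.natDegree ≤ DA →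
  Pj.natDegree ≤ c → (∀ l, (η l).natDegree ≤ c) → m < n →
  (∀ k < n, (PowerSeries.X : PowerSeries ℚ) ^ T ∣ ∑ l, TS (-(k : ℚ)) (Q l) * β k l - TS (-(k : ℚ)) A) →
  (∀ k, k + 1 < n → ∀ l, (PowerSeries.X : PowerSeries ℚ) ^ T ∣
    TS (-(k : ℚ)) Pj * (β (k + 1) l - β k l) - TS (-(k : ℚ)) (η l)) →
  (∀ x ∈ Nd, (∀ k : ℕ, x ≠ -(k : ℚ)) ∧ ∃ a : Fin m → ℚ, a ≠ 0 ∧
    ∀ j ≤ m, (X - C x) ^ (b + 1) ∣ ∑ l, C (a l) * sh j (Q l)) →
  m * D + DA + m * c < T * (n - m) + (b + 1) * Nd.card →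
  ∃ (u : Fin m → ℚ[X]) (v : ℚ[X]), v ≠ 0 ∧
    ∀ l, Pj * (u l * sh 1 v - sh 1 (u l) * v) + η l * v * sh 1 v = 0

/-- the pairs `(d, v)`, `1 ≤ v ≤ d ≤ B` -/
def Dv (B : ℕ) : Finset (Σ _ : ℕ, ℕ) := (Finset.Icc 1 B).sigma fun d => Finset.Icc 1 d

/-- the factor `(t - v/d)^(b+1)` -/
def Pf1 (b d v : ℕ) : ℚ[X] := (X - C ((v : ℚ) / d)) ^ (b + 1)

/-- the factor `(t + n - 2 + v/d)^(b+1)` -/
def Pf2 (n b d v : ℕ) : ℚ[X] := (X + C ((n : ℚ) - 2 + (v : ℚ) / d)) ^ (b + 1)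

/-- the common denominator -/
def Pi1 (n b B : ℕ) : ℚ[X] := ∏ q ∈ Dv B, (Pf1 b q.1 q.2 * Pf2 n b q.1 q.2)

/-- `Pj · ∑_{v ≤ d} (1/(t - v/d)^(b+1) + 1/(t + n - 2 + v/d)^(b+1))` -/
def eta (n b B d : ℕ) : ℚ[X] := ∑ v ∈ Finset.Icc 1 d,
  (∏ q ∈ (Dv B).erase ⟨d, v⟩, (Pf1 b q.1 q.2 * Pf2 n b q.1 q.2)) * (Pf2 n b d v + Pf1 b d v)

/-- TELE: the function `∑ c_d ∑_{v ≤ d} (1/(t - v/d)^(b+1) + 1/(t + n - 2 + v/d)^(b+1))` is not of the form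
`r(t - 1) - r(t)` with a rational function `r` -/
def S_TELE : Prop := ∀ (n b B : ℕ) (c : ℕ → ℚ), Even b → 2 ≤ b → 1 ≤ n → ∑ d ∈ Finset.Icc 1 B, c d = 0 →
  ∀ u v : ℚ[X], v ≠ 0 →
  Pi1 n b B * (u * sh 1 v - sh 1 u * v) + (∑ d ∈ Finset.Icc 1 B, C (c d) * eta n b B d) * v * sh 1 v = 0 →
  ∀ d ∈ Finset.Icc 1 B, c d = 0

/-- DUAL: a functional on the jets at the poles which vanishes on the polynomials of degree `≤ G` is given by the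
jets of a polynomial of small degree -/
def S_DUAL : Prop := ∀ (n h G : ℕ) (E : ℕ → PowerSeries ℚ), 1 ≤ n → 1 ≤ h → G + 2 ≤ n * (2 * h) →
  (∀ F : ℚ[X], F.natDegree ≤ G → ∑ k ∈ Finset.range n,
    PowerSeries.coeff (2 * h - 1) (TS (-(k : ℚ)) F * VV ((sP n).erase k) (mP h) (-(k : ℚ)) * E k) = 0) →
  ∃ A : ℚ[X], A.natDegree + G + 2 ≤ n * (2 * h) ∧
    ∀ k < n, (PowerSeries.X : PowerSeries ℚ) ^ (2 * h) ∣ TS (-(k : ℚ)) A - E k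

/-- the germ at `-k` of the function belonging to the denominator `d` -/
def bt (z : ℕ → ℚ) (h b d k : ℕ) : PowerSeries ℚ := ∑ i ∈ Finset.Icc 1 (2 * h),
  PowerSeries.C (Cb b i * (d : ℚ) ^ (i + b) * (z (i + b) - hs (i + b) (d * k))) * PowerSeries.X ^ (i - 1)

/-- the symmetrised germ -/
def bs (z : ℕ → ℚ) (n h b d k : ℕ) : PowerSeries ℚ :=
  bt z h b d k + PowerSeries.rescale (-1 : ℚ) (bt z h b d (n - 1 - k))

/-- REC: the recursion -/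
def S_REC : Prop := ∀ (z : ℕ → ℚ) (n h b B d k : ℕ), Even b → 1 ≤ h → 1 ≤ d → d ≤ B → k + 1 < n →
  (PowerSeries.X : PowerSeries ℚ) ^ (2 * h) ∣
    TS (-(k : ℚ)) (Pi1 n b B) * (bs z n h b d (k + 1) - bs z n h b d k) - TS (-(k : ℚ)) (eta n b B d)

/-- the linear form of a vector `P` of polynomials, with `z j` in the place of `ζ(j)` -/
def LQ (z : ℕ → ℚ) (n h b B : ℕ) (P : ℕ → ℚ[X]) : ℚ := ∑ d ∈ Finset.Icc 1 B,
  (∑ i ∈ Finset.Icc 1 (2 * h), Cb b i * rhoP n h (KP n h (P d)) i * (d : ℚ) ^ (i + b) * z (i + b) -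
    bet n h b d (KP n h (P d)))

/-- the symmetrised germ of a vector of polynomials -/
def Es (z : ℕ → ℚ) (n h b B : ℕ) (P : ℕ → ℚ[X]) (k : ℕ) : PowerSeries ℚ := ∑ d ∈ Finset.Icc 1 B,
  TS (-(k : ℚ)) ((P d).comp (yp n)) * bs z n h b d k

/-- SYM: if the forms of all `Gb n i * P`, `i ≤ G`, vanish, then the symmetrised functional vanishes on all
polynomials of degree `≤ 2 G + 1` -/
def S_SYM : Prop := ∀ (z : ℕ → ℚ) (n h b B G : ℕ) (P : ℕ → ℚ[X]), 1 ≤ n → 1 ≤ h →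
  (∀ i ≤ G, LQ z n h b B (fun d => Gb n i * P d) = 0) →
  ∀ F : ℚ[X], F.natDegree ≤ 2 * G + 1 → ∑ k ∈ Finset.range n,
    PowerSeries.coeff (2 * h - 1) (TS (-(k : ℚ)) F * VV ((sP n).erase k) (mP h) (-(k : ℚ)) *
      Es z n h b B P k) = 0

/-! ### Denominators, weights -/

/-- `C(e) = ∑_{e ∣ d ≤ B} c(d)` -/
def Cd (B : ℕ) (c : ℕ → ℚ) (e : ℕ) : ℚ := ∑ d ∈ (Finset.Icc 1 B).filter (fun d => e ∣ d), c d

/-- the denominators `2 ≤ e ≤ B` which occur -/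
def su (B : ℕ) {m : ℕ} (c : Fin m → ℕ → ℚ) : Finset ℕ := by
  classical
  exact (Finset.Icc 2 B).filter (fun e => ∃ l, Cd B (c l) e ≠ 0)

/-- the number of fractions modulo `1` with these denominators -/
def NN (B : ℕ) {m : ℕ} (c : Fin m → ℕ → ℚ) : ℕ := ∑ e ∈ su B c, e.totient

/-- SLP: a subspace of minimal slope -/
def S_SLP : Prop := ∀ (B : ℕ) (J : Finset ℕ), J.card < B → ∃ (m : ℕ) (w : Fin m → ℕ → ℤ), 1 ≤ m ∧ m ≤ B ∧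
  LinearIndependent ℚ (fun (l : Fin m) (d : Fin B) => (w l (d.1 + 1) : ℚ)) ∧
  (∀ l, ∀ j ∈ J, ∑ d ∈ Finset.Icc 1 B, w l d * (d : ℤ) ^ j = 0) ∧
  NN B (fun l d => (w l d : ℚ)) * (B - J.card) ≤ m * B ^ 2 ∧
  ∀ (m1 : ℕ) (a : Fin m1 → Fin m → ℚ), LinearIndependent ℚ a →
    m1 * NN B (fun l d => (w l d : ℚ)) ≤ m * NN B (fun (i : Fin m1) d => ∑ l, a i l * (w l d : ℚ))

/-- NOD: the nodes `u/e - ν` -/
def S_NOD : Prop := ∀ (S : Finset ℕ) (ν L m : ℕ), (∀ e ∈ S, 2 ≤ e) → m ≤ L →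
  ∃ Nd : Finset ℚ, Nd.card = (∑ e ∈ S, e.totient) * (2 * L - m) ∧
    ∀ x ∈ Nd, (∀ k : ℤ, x ≠ k) ∧ ∃ e ∈ S, ∃ u : ℤ, IsCoprime u (e : ℤ) ∧
      -((e : ℤ) * ((L : ℤ) - m)) < u ∧ u < e * L ∧ x = (u : ℚ) / e - ν

/-- NOE: the number of equations -/
def S_NOE : Prop := ∀ (S : Finset ℕ) (L : ℕ), (∀ e ∈ S, 2 ≤ e) →
  (S.sigma fun e => (Finset.range (e * L)).filter (fun u => Nat.Coprime u e)).card =
    (∑ e ∈ S, e.totient) * L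

/-- REG: the sum over all `v/d`, grouped by the reduced fractions -/
def S_REG : Prop := ∀ (A : Type) [AddCommMonoid A] (B M : ℕ) (F : ℕ → ℚ → A),
  ∑ d ∈ Finset.Icc 1 B, ∑ v ∈ Finset.range (d * M), F d ((v : ℚ) / d) =
    ∑ e ∈ Finset.Icc 1 B, ∑ u ∈ (Finset.range (e * M)).filter (fun u => Nat.Coprime u e),
      ∑ d ∈ (Finset.Icc 1 B).filter (fun d => e ∣ d), F d ((u : ℚ) / e)

/-- COE: the evaluation coefficients are integral -/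
def S_COE : Prop := ∀ (n b e D i j : ℕ) (x : ℚ), 1 ≤ n → 1 ≤ e → (∃ a : ℤ, x = a / e) → i ≤ D → j ≤ b →
  ∃ M : ℤ, (e : ℚ) ^ (4 * D) * (Dl n 1 : ℚ) ^ b *
    PowerSeries.coeff j (TS x ((Gb n i).comp (yp n))) = M

end

end Pool.Agent.Y926.TW
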