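import Pool.Agent.Y926.TW.Stm
import Pool.Agent.Y926.LZ.LamZ

/-!
# More than `√s` irrational odd zeta values: the statements of the second group of parts

Throughout `n = 2 ν + 1`.
-/

open Polynomial Pool.Agent.H337R2 Pool.Agent.W165.OZ Pool.Agent.Y926.LZ

namespace Pool.Agent.Y926.TW

noncomputable section

/-- an integral combination of the basis -/
def Qv (n D : ℕ) (c : ℕ → ℤ) : ℚ[X] := ∑ i ∈ Finset.range D, C ((c i : ℤ) : ℚ) * Gb n i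

/-- the vector `P_d = ∑_l w_l(d) Q_l` -/
def Pv {m : ℕ} (w : Fin m → ℕ → ℤ) (Q : Fin m → ℚ[X]) (d : ℕ) : ℚ[X] :=
  ∑ l, C ((w l d : ℤ) : ℚ) * Q l

/-- `∑_{e ∣ d ≤ B} P_d = ∑_l C_l(e) Q_l` -/
def fe {m : ℕ} (B : ℕ) (w : Fin m → ℕ → ℤ) (Q : Fin m → ℚ[X]) (e : ℕ) : ℚ[X] :=
  ∑ l, C (Cd B (fun d => (w l d : ℚ)) e) * Q l

/-- vanishing to the order `b + 1` at the fractions `u/e - ν`, `0 ≤ u < e L` -/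
def Van {m : ℕ} (b B ν L : ℕ) (w : Fin m → ℕ → ℤ) (Q : Fin m → ℚ[X]) : Prop :=
  ∀ e, 2 ≤ e → e ≤ B → ∀ u : ℕ, u < e * L → Nat.Coprime u e →
    (X - C ((u : ℚ) / e - ν)) ^ (b + 1) ∣ (fe B w Q e).comp (yp (2 * ν + 1))

/-- SIE: Siegel's lemma -/
def S_SIE : Prop := ∀ (b B m ν r D W μ H : ℕ) (w : Fin m → ℕ → ℤ), 1 ≤ B → 1 ≤ μ → 1 ≤ W → 2 ≤ r → 1 ≤ ν →
  (∀ l, ∑ d ∈ Finset.Icc 1 B, |w l d| ≤ (W : ℤ)) →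
  (b + 1) * (NN B (fun l d => (w l d : ℚ)) * (r * (2 * ν + 1) + ν)) + μ ≤ m * D →
  (m * D * (W * B ^ (4 * D) * Dl (2 * ν + 1) 1 ^ b * (54 * r ^ 2) ^ (D + (2 * ν + 1)))) ^
    ((b + 1) * (NN B (fun l d => (w l d : ℚ)) * (r * (2 * ν + 1) + ν))) ≤ H ^ μ →
  ∃ c : Fin m → ℕ → ℤ, (∃ l, Qv (2 * ν + 1) D (c l) ≠ 0) ∧ (∀ l i, |c l i| ≤ (H : ℤ)) ∧
    Van b B ν (r * (2 * ν + 1) + ν) w (fun l => Qv (2 * ν + 1) D (c l))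

/-- INT: integrality of the forms -/
def S_INT : Prop := ∀ (z : ℕ → ℚ) (b B m h ν L D i q : ℕ) (w c : Fin m → ℕ → ℤ), Even b → ν + 1 ≤ L →
  2 * (i + D) + 3 ≤ (2 * ν + 1) * (2 * h) →
  (∀ l, ∑ d ∈ Finset.Icc 1 B, w l d = 0) →
  Van b B ν L w (fun l => Qv (2 * ν + 1) D (c l)) →
  (∀ j, Odd j → b < j → j ≤ 2 * h + b → (∀ l, WW B (w l) j = 0) ∨ ∃ a : ℤ, (q : ℚ) * z j = a) →
  ∃ M : ℤ, (q : ℚ) * (Dl (2 * ν + 1) 1 : ℚ) ^ (2 * h + b) *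
    LQ z (2 * ν + 1) h b B
      (fun d => Gb (2 * ν + 1) i * Pv w (fun l => Qv (2 * ν + 1) D (c l)) d) = M

/-- the bound of the terms, `E = i + D + 2 n` -/
def M8 (n h B r E : ℕ) : ℚ :=
  4 ^ (h + 1) * n * 54 ^ E / (r : ℚ) ^ (2 * h * n - (2 * E + 1) - 2) * ((B : ℚ) * n) ^ 2

/-- ARC: the forms are small -/
def S_ARC : Prop := ∀ (b B m h ν r D i W H : ℕ) (w c : Fin m → ℕ → ℤ), Even b → 1 ≤ b → 2 ≤ r → 1 ≤ ν →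
  2 * (i + D + 2 * (2 * ν + 1)) + 3 ≤ 2 * h * (2 * ν + 1) →
  (∀ l, ∑ d ∈ Finset.Icc 1 B, w l d = 0) → (∀ l i, |c l i| ≤ (H : ℤ)) →
  ∑ d ∈ Finset.Icc 1 B, ∑ l, |w l d| ≤ (W : ℤ) →
  Van b B ν (r * (2 * ν + 1) + ν) w (fun l => Qv (2 * ν + 1) D (c l)) →
  |∑ d ∈ Finset.Icc 1 B, Sd (2 * ν + 1) h b d (KP (2 * ν + 1) h
      (Gb (2 * ν + 1) i * Pv w (fun l => Qv (2 * ν + 1) D (c l)) d))| ≤
    W * (D * H * (2 * (M8 (2 * ν + 1) h B r (i + D + 2 * (2 * ν + 1)) : ℝ)))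

/-- RHO: the coefficients are not too large -/
def S_RHO : Prop := ∀ (n h D i j H : ℕ) (c : ℕ → ℤ), 1 ≤ n → j ≤ 2 * h → (∀ i, |c i| ≤ (H : ℤ)) →
  |rhoP n h (KP n h (Gb n i * Qv n D c)) j| ≤
    4 ^ h * (8 * (n : ℚ) ^ 2) * (D * H * 216 ^ (i + D + 2 * n)) * ((n : ℚ) * 4 ^ n) ^ (2 * h)

/-- DIF: the difference of the forms with `ζ(j)` and with `z j` -/
def S_DIF : Prop := ∀ (z : ℕ → ℚ) (n h b B m : ℕ) (w : Fin m → ℕ → ℤ) (g : ℚ[X]) (Q : Fin m → ℚ[X])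
  (R : ℚ) (W : ℕ) (δ : ℝ), 1 ≤ n → 1 ≤ B → Even b → 1 ≤ b → 0 ≤ δ → 0 ≤ R →
  (∀ l, 2 * (g * Q l).natDegree + 3 ≤ n * (2 * h)) →
  (∀ l, ∀ i ≤ 2 * h, |rhoP n h (KP n h (g * Q l)) i| ≤ R) →
  ∑ d ∈ Finset.Icc 1 B, ∑ l, |w l d| ≤ (W : ℤ) →
  (∀ j, Odd j → b < j → j ≤ 2 * h + b → (∀ l, WW B (w l) j = 0) ∨ |zr j - (z j : ℝ)| ≤ δ) →
  |∑ d ∈ Finset.Icc 1 B, Sd n h b d (KP n h (g * Pv w Q d)) -
      (LQ z n h b B (fun d => g * Pv w Q d) : ℝ)| ≤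
    2 * h * (2 ^ (2 * h + b) * R * (W * (B : ℝ) ^ (2 * h + b)) * δ)

/-- the hypotheses on the weights: independence, sum zero and minimal slope -/
def Slp (B m : ℕ) (w : Fin m → ℕ → ℤ) : Prop :=
  LinearIndependent ℚ (fun (l : Fin m) (d : Fin B) => (w l (d.1 + 1) : ℚ)) ∧
  (∀ l, ∑ d ∈ Finset.Icc 1 B, w l d = 0) ∧
  ∀ (m1 : ℕ) (a : Fin m1 → Fin m → ℚ), LinearIndependent ℚ a →
    m1 * NN B (fun l d => (w l d : ℚ)) ≤ m * NN B (fun (i : Fin m1) d => ∑ l, a i l * (w l d : ℚ))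

/-- ZT: the forms of `Gb n i * P`, `i ≤ G`, do not all vanish -/
def S_ZT : Prop := ∀ (z : ℕ → ℚ) (b B m h ν L D μ G : ℕ) (w : Fin m → ℕ → ℤ) (Q : Fin m → ℚ[X]),
  Even b → 2 ≤ b → 1 ≤ h → 1 ≤ B → m ≤ B → m ≤ L → m ≤ 2 * ν → Slp B m w → (∃ l, Q l ≠ 0) →
  (∀ l, (Q l).natDegree + 1 ≤ D) → Van b B ν L w Q →
  m * D ≤ (b + 1) * (NN B (fun l d => (w l d : ℚ)) * L) + μ + m →
  μ + h * m + 2 * ((b + 1) * (B ^ 2 * m)) + m ≤ G →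
  2 * D + 2 * G + 3 ≤ (2 * ν + 1) * (2 * h) →
  ∃ i ≤ G, LQ z (2 * ν + 1) h b B (fun d => Gb (2 * ν + 1) i * Pv w Q d) ≠ 0

end

end Pool.Agent.Y926.TW
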