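import Pool.Agent.Y926.TW.Main
import Pool.Agent.Y926.TW.Sim

/-!
# Odd zeta values in a window outside a finite-dimensional rational vector space
-/

open Pool.Agent.H337R2 Pool.Agent.W165.OZ Pool.Agent.Y926.LZ

namespace Pool.Agent.Y926.TW

/-- **Odd zeta values outside subspaces.** -/
theorem window_sub {b K D s : ℕ} (hK : 1 ≤ K)
    (hs : (2 : ℝ) ^ (132 * (D + 1)) * ((b : ℝ) + 1) ^ 2 * (K : ℝ) ^ 3 * Real.log (K + 1) ≤ (s : ℝ) ^ 2)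
    (V : Submodule ℚ ℝ) (hV : FiniteDimensional ℚ V) (hVD : Module.finrank ℚ V ≤ D) :
    K ≤ Set.ncard {j : ℕ | b < j ∧ j ≤ s ∧ Odd j ∧ (∑' n : ℕ, 1 / ((n : ℝ) + 1) ^ j) ∉ V} := by
  classical
  obtain ⟨I, hI, hset⟩ := mem_win b s (fun j => (∑' n : ℕ, 1 / ((n : ℝ) + 1) ^ j) ∉ V)
  rw [hset, Set.ncard_coe_finset]
  obtain ⟨q0, hq0⟩ := window_core (b := b) (K := K) (S := D + 1) (s := s) hK (by omega) hs
  obtain ⟨J, hJ⟩ : ∃ J, J = (Finset.range (s + 1)).filter (fun j => Odd j ∧ b < j ∧ j ∉ I) := ⟨_, rfl⟩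
  obtain ⟨q, hq, hqJ⟩ := sim_sub V D hVD J zr (fun j hj => by
    rw [hJ, Finset.mem_filter, Finset.mem_range] at hj
    by_contra hc
    exact hj.2.2.2 ((hI j).2 ⟨hj.2.2.1, by omega, hj.2.1, hc⟩)) q0
  refine hq0 q hq I fun j h1 h2 h3 h4 => ?_
  obtain ⟨p, hp⟩ := hqJ j (by
    rw [hJ, Finset.mem_filter, Finset.mem_range]
    exact ⟨by omega, h1, h2, h4⟩)
  refine ⟨p, ?_⟩
  push_cast
  exact hp

end Pool.Agent.Y926.TW
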